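import Pool.Agent.NH98.EW.StmB
import Pool.Agent.NH98.RT.Asm2

/-! # The Riemann case in every window -/

set_option autoImplicit false

open MeasureTheory Filter Topology Set
open Pool.Agent.TH942.LS (Dat)
open Pool.Agent.TH942.SL
open Pool.Agent.TH942.ES
open Pool.Agent.W263.BSD (GoodPrime pointCount IsLSeries bsdProduct bsdStar bsdProduct_pos
  bsdStar_pos rsSum corr_tendsto LInt lap lapC lapC_ofReal lapC_differentiableAt)
open Pool.Agent.TH270.MS Pool.Agent.TH270.MS.EQ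
open Pool.Agent.TH270.RS (cS' dat' DD_neg)
open Pool.Agent.NH98.RT

namespace Pool.Agent.NH98.EW

theorem Loc_mul {φ : ℝ → ℝ} {x τ : ℝ} {A : ℂ} (hτ : τ = 1 ∨ τ = -1) (h : Loc φ x A) :
    Loc (fun u => τ * φ u) x ((τ : ℂ) * A) := by
  have hτ1 : ‖(τ : ℂ)‖ = 1 := by
    rcases hτ with h | h <;> rw [h] <;> simp
  obtain ⟨η, b, hη, hb, ht⟩ := h
  refine ⟨η, fun ξ => (τ : ℂ) * b ξ, hη, hb.const_mul _, ?_⟩
  refine ht.congr fun σ => ?_
  refine integral_congr_ae (Eventually.of_forall fun ξ => ?_)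
  simp only
  have e : ∫ u in Ioi (1 : ℝ), ((τ * φ u : ℝ) : ℂ) *
      Complex.exp (-(((σ : ℂ) + ((x + ξ : ℝ) : ℂ) * Complex.I) * (u : ℂ))) =
      (τ : ℂ) * ∫ u in Ioi (1 : ℝ), (φ u : ℂ) *
        Complex.exp (-(((σ : ℂ) + ((x + ξ : ℝ) : ℂ) * Complex.I) * (u : ℂ))) := by
    rw [← integral_const_mul]
    refine integral_congr_ae (Eventually.of_forall fun u => ?_)
    simp only
    push_cast
    ring
  rw [e, mul_div_assoc, ← mul_sub, ← mul_sub, norm_mul, hτ1, one_mul]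

variable {lam c : ℕ → ℝ} {δ σ : ℝ} {G₀ g : ℂ → ℂ} {k p κ : ℕ} {η C : ℝ}

/-- deviations bounded in windows bound the sums over the zeros -/
theorem sumsW (hW : S_win) (hb : S_bdry) (E : Cn lam c δ σ G₀ g k p κ η C) (hne : ∀ s : ℂ, 0 < s.re → G₀ s ≠ 0)
    {r q : ℝ} (hr : (p : ℝ) = k + r) (hq : g 0 = Real.exp (r * Real.eulerMascheroniConstant - q))
    (heven : ∀ x : ℝ, analyticOrderNatAt G₀ (((-x : ℝ) : ℂ) * Complex.I) =
      analyticOrderNatAt G₀ ((x : ℂ) * Complex.I)) {τ B d : ℝ} (hτ : τ = 1 ∨ τ = -1) (hd0 : 0 < d) (hd1 : d < 1)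
    (hB : ∃ᶠ U : ℝ in atTop, ∀ u : ℝ, (1 - d) * U ≤ u → u ≤ U → τ * (u * (Sh lam c u - r * Real.log u - q)) ≤ B)
    (J : Finset ℝ) (hJ : ∀ x ∈ J, 0 < x) {w : ℝ} (hw : 0 < w) :
    ∑ x ∈ J, (analyticOrderNatAt G₀ ((x : ℂ) * Complex.I) : ℝ) * (2 * w / (w ^ 2 + x ^ 2)) ≤ B + 3 * |r| := by
  obtain ⟨h1, h2⟩ := hb lam c δ σ G₀ g k p κ η C E r q hne hr hq
  have D := E.D
  have hτ1 : |τ| = 1 := by
    rcases hτ with h | h <;> rw [h] <;> simp
  have hττ : τ ^ 2 = 1 := by
    rcases hτ with h | h <;> rw [h] <;> norm_num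
  refine hW (fun u => τ * ph lam c r q u)
    (fun x => (analyticOrderNatAt G₀ ((x : ℂ) * Complex.I) : ℝ)) τ (B + 3 * |r|) d hτ ((ph_meas D r q).const_mul τ)
    ?_ (fun x => Nat.cast_nonneg _) (fun x => ?_) (fun x => ?_) hd0 hd1 ?_ J hJ w hw
  · refine h1.congr (Eventually.of_forall fun u => ?_)
    simp only
    rw [mul_div_assoc, mul_pow, hττ, one_mul]
  · rw [heven]
  · have h3 := Loc_mul hτ (h2 x)
    have e : (τ : ℂ) * (if x = 0 then 0 else
      ((analyticOrderNatAt G₀ ((x : ℂ) * Complex.I) : ℝ) : ℂ) / ((x : ℂ) * Complex.I)) =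
      (if x = 0 then 0 else (τ : ℂ) * ((analyticOrderNatAt G₀ ((x : ℂ) * Complex.I) : ℝ) : ℂ) /
        ((x : ℂ) * Complex.I)) := by
      split_ifs
      · simp
      · ring
    rw [e] at h3
    exact h3
  · refine (hB.and_eventually (eventually_ge_atTop (1 / (1 - d)))).mono ?_
    rintro U ⟨h3, h4⟩ u hu1 hu2
    have hd2 : 0 < 1 - d := by linarith
    have h4' : 1 ≤ (1 - d) * U := by
      rw [div_le_iff₀ hd2] at h4
      linarith
    have hu : 1 ≤ u := h4'.trans hu1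
    have hu0 : 0 < u := by linarith
    have h3' := h3 u hu1 hu2
    have h5 := cmp D r q hu
    have h6 : |ph lam c r q u - u * (Sh lam c u - r * Real.log u - q)| ≤ 3 * |r| := by
      have e1 : ph lam c r q u - u * (Sh lam c u - r * Real.log u - q) =
          u * (Er lam c r (q - r * Real.eulerMascheroniConstant) u - (Sh lam c u - r * Real.log u - q)) +
            r * Tool.saw u := by
        unfold ph
        ring
      rw [e1]
      refine (abs_add_le _ _).trans ?_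
      rw [abs_mul, abs_mul, abs_of_pos hu0]
      have e2 : u * |Er lam c r (q - r * Real.eulerMascheroniConstant) u - (Sh lam c u - r * Real.log u - q)| ≤
          u * (2 * |r| / u) := mul_le_mul_of_nonneg_left h5 hu0.le
      have e3 : u * (2 * |r| / u) = 2 * |r| := by field_simp
      have e4 : |r| * |Tool.saw u| ≤ |r| * (1 / 2) := mul_le_mul_of_nonneg_left (Tool.saw_le u) (abs_nonneg _)
      have := abs_nonneg r
      linarith
    have h7 : |τ * (ph lam c r q u - u * (Sh lam c u - r * Real.log u - q))| ≤ 3 * |r| := by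
      rw [abs_mul, hτ1, one_mul]
      exact h6
    have h8 := (abs_le.1 h7).2
    have h9 : τ * ph lam c r q u = τ * (u * (Sh lam c u - r * Real.log u - q)) +
        τ * (ph lam c r q u - u * (Sh lam c u - r * Real.log u - q)) := by ring
    rw [h9]
    linarith

variable {a b : ℤ} {F : ℂ → ℂ}

/-- the rate of the correction between primes and prime powers -/
def CorrRate (a b : ℤ) : Prop :=
  Tendsto (fun x : ℝ => Real.log x * (Real.log (bsdStar a b x) - Real.log (bsdProduct a b x) + Real.log 2 / 2))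
    atTop (𝓝 0)

/-- **The Riemann case.** -/
theorem rh_caseW (hW : S_win) (hbd : S_bdry) {N : ℕ} [NeZero N]
    {f : CuspForm (CongruenceSubgroup.Gamma0 N : Subgroup (Matrix.GeneralLinearGroup (Fin 2) ℝ)) 2}
    (hΔ : 4 * a ^ 3 + 27 * b ^ 2 ≠ 0) (hF : IsLSeries a b F) (hf : Pool.Agent.TH941.Hecke f)
    (hb : Pool.Agent.TH941.Belongs a b f) (hw : Fricke f) (hcr : CorrRate a b)
    (hnz : ∀ s : ℂ, 1 < s.re → F s ≠ 0) {m : ℕ}
    (hm : analyticOrderAt F 1 = m) {C₀ : ℝ} (hC₀ : 0 < C₀)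
    (hlead : iteratedDeriv m F 1 / (m.factorial : ℂ) =
      ((√2 * Real.exp (m * Real.eulerMascheroniConstant) / C₀ : ℝ) : ℂ)) {τ : ℝ} (hτ : τ = 1 ∨ τ = -1) (B : ℝ)
    {d : ℝ} (hd0 : 0 < d) (hd1 : d < 1) :
    ¬ ∃ᶠ X : ℝ in atTop, ∀ x : ℝ, X ^ (1 - d) ≤ x → x ≤ X → τ * (Real.log x * dev a b m C₀ x) ≤ B := by
  intro hB
  obtain ⟨C₁, κ, hgr⟩ := growth_F hΔ hF hf hb
  have H := curve_mc hF (by norm_num : (0 : ℝ) < 1 / 8) hgr
  obtain ⟨e, g, p, he, Q⟩ := H.cn
  have hne : ∀ s : ℂ, 0 < s.re → (fun s => F (1 + s)) s ≠ 0 := fun s hs => hnz _ (by simpa using hs)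
  -- the order
  have hpm : p = m := by
    have h1 := (mero_of Q.hg Q.hg0 (local_form H.hη H.hΨ Q.near)).2
    have h2 := mero_ord hF.1 hm
    rw [h1] at h2
    have h3 : ((p : ℤ) - (0 : ℕ)) = m := by exact_mod_cast h2
    have h4 : (p : ℤ) = m := by simpa using h3
    exact_mod_cast h4
  obtain ⟨hA0, hA⟩ := coeff_lim hF.1 hm
  set q : ℝ := Real.log C₀ - Real.log 2 / 2 with hq
  have hg0 : g 0 = ((√2 * Real.exp (m * Real.eulerMascheroniConstant) / C₀ : ℝ) : ℂ) := by
    rw [← hlead]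
    have h1 : Tendsto g (𝓝[≠] 0) (𝓝 (g 0)) :=
      Q.hg.continuousAt.tendsto.mono_left nhdsWithin_le_nhds
    refine tendsto_nhds_unique h1 (hA.congr' ?_)
    filter_upwards [nhdsWithin_le_nhds Q.near, self_mem_nhdsWithin] with s h2 h3
    have h4 : s ≠ 0 := h3
    rw [h2, hpm]
    field_simp
  have hgq : g 0 = Real.exp ((m : ℝ) * Real.eulerMascheroniConstant - q) := by
    rw [hg0]
    congr 1
    rw [hq, show (m : ℝ) * Real.eulerMascheroniConstant - (Real.log C₀ - Real.log 2 / 2) =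
      Real.log 2 / 2 + m * Real.eulerMascheroniConstant - Real.log C₀ by ring, Real.exp_sub, Real.exp_add,
      Real.exp_log hC₀, ← log_sqrt_two, Real.exp_log (by positivity)]
  obtain ⟨ξ, C, w, k1, k2, k3, k4, k5, k6, k7⟩ := t_xi a b F N f hΔ hF hf hb hw
  have heven : ∀ x : ℝ, analyticOrderNatAt (fun s => F (1 + s)) (((-x : ℝ) : ℂ) * Complex.I) =
      analyticOrderNatAt (fun s => F (1 + s)) ((x : ℂ) * Complex.I) := by
    intro x
    rw [k6, k6]
    have : (((-x : ℝ) : ℂ) * Complex.I) = -((x : ℂ) * Complex.I) := by push_cast; ring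
    rw [this]
    exact order_symm k1 k4 k3 _
  obtain ⟨K, hK⟩ := star_close a b
  -- a pointwise translation for large `u`
  have hpt : ∀ᶠ u : ℝ in atTop, τ * (Real.log (Real.exp u) * dev a b m C₀ (Real.exp u)) ≤ B →
      τ * (u * (Sh (lamS (nQ a b) e) (cS' (nQ a b) (alQ a b) e) u - (m : ℝ) * Real.log u - q)) ≤ B + 2 := by
    have h2 : Tendsto (fun u : ℝ => |K| * (u * Real.exp (-(1 / 12 * u)))) atTop (𝓝 0) := by
      have h3 := Real.tendsto_pow_mul_exp_neg_atTop_nhds_zero 1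
      have h5 : Tendsto (fun u : ℝ => 1 / 12 * u) atTop atTop :=
        tendsto_id.const_mul_atTop (by norm_num)
      have h4 := (h3.comp h5).const_mul (12 * |K|)
      rw [mul_zero] at h4
      refine h4.congr fun u => ?_
      simp only [Function.comp_apply, pow_one]
      ring
    have h2' := (Metric.tendsto_nhds.1 (hcr.comp Real.tendsto_exp_atTop)) 1 one_pos
    filter_upwards [h2', h2.eventually (gt_mem_nhds one_pos), eventually_ge_atTop 1] with u h4 h5 h6 h3
    have hu0 : 0 < u := by linarith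
    have hxe : Real.exp 1 ≤ Real.exp u := Real.exp_le_exp.2 h6
    have h7 := hK (Real.exp u) hxe
    rw [Function.comp_apply, Real.dist_eq, sub_zero, Real.log_exp] at h4
    rw [dev_eq hC₀ hxe, Real.log_exp] at h3
    have h8 : Real.exp u ^ (-(1 / 12 : ℝ)) = Real.exp (-(1 / 12 * u)) := by
      rw [← Real.exp_mul]
      congr 1
      ring
    rw [h8] at h7
    rw [sh_eq H.E he]
    set P := Pl (nQ a b) (alQ a b) (Real.exp u) with hP
    set L := Real.log (bsdStar a b (Real.exp u)) with hL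
    set L' := Real.log (bsdProduct a b (Real.exp u)) with hL'
    have h9 : |u * (L + P)| ≤ 1 := by
      rw [abs_mul, abs_of_pos hu0]
      calc u * |L + P| ≤ u * (K * Real.exp (-(1 / 12 * u))) := mul_le_mul_of_nonneg_left h7 hu0.le
        _ ≤ u * (|K| * Real.exp (-(1 / 12 * u))) := by
            have := le_abs_self K
            have := Real.exp_pos (-(1 / 12 * u))
            gcongr
        _ = |K| * (u * Real.exp (-(1 / 12 * u))) := by ring
        _ ≤ 1 := h5.le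
    have h10 := abs_le.1 h9
    have h4' := abs_lt.1 h4
    have h11 : u * (-P - (m : ℝ) * Real.log u - q) =
        u * (L' - (m : ℝ) * Real.log u - Real.log C₀) + u * (L - L' + Real.log 2 / 2) - u * (L + P) := by
      rw [hq]
      ring
    rw [h11]
    rcases hτ with h | h
    · rw [h] at h3 ⊢
      linarith [h10.1, h4'.2]
    · rw [h] at h3 ⊢
      linarith [h10.2, h4'.1]
  -- windows
  obtain ⟨u0, hu0⟩ := eventually_atTop.1 hpt
  have hd2 : 0 < 1 - d := by linarith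
  have hB' : ∃ᶠ U : ℝ in atTop, ∀ u : ℝ, (1 - d) * U ≤ u → u ≤ U →
      τ * (u * (Sh (lamS (nQ a b) e) (cS' (nQ a b) (alQ a b) e) u - (m : ℝ) * Real.log u - q)) ≤ B + 2 := by
    refine Real.tendsto_log_atTop.frequently ((hB.and_eventually ((eventually_ge_atTop (1 : ℝ)).and
      ((Real.tendsto_log_atTop.eventually_ge_atTop (u0 / (1 - d)))))).mono ?_)
    rintro X ⟨h3, h4, h5⟩ u hu1 hu2
    have hX0 : 0 < X := by linarith
    have h6 : u0 ≤ u := by
      rw [div_le_iff₀ hd2] at h5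
      linarith
    refine hu0 u h6 (h3 (Real.exp u) ?_ ?_)
    · rw [Real.rpow_def_of_pos hX0]
      exact Real.exp_le_exp.2 (by linarith)
    · calc Real.exp u ≤ Real.exp (Real.log X) := Real.exp_le_exp.2 hu2
        _ = X := Real.exp_log hX0
  have hsum : ∀ J : Finset ℝ, (∀ x ∈ J, 0 < x) → ∀ v : ℝ, 0 < v →
      ∑ x ∈ J, (analyticOrderNatAt ξ ((x : ℂ) * Complex.I) : ℝ) * (2 * v / (v ^ 2 + x ^ 2)) ≤
        B + 2 + 3 * |(m : ℝ)| := by
    intro J hJ v hv
    have h1 := sumsW hW hbd Q hne (r := (m : ℝ)) (q := q) (by rw [hpm]; simp) hgq heven hτ hd0 hd1 hB' J hJ hv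
    refine le_trans (le_of_eq ?_) h1
    refine Finset.sum_congr rfl fun x _ => ?_
    rw [k6]
  have hzero : ∀ s : ℂ, ξ s = 0 → s.re = 0 := by
    intro s hs
    rcases lt_trichotomy s.re 0 with h | h | h
    · exfalso
      have h1 : 0 < (-s).re := by rw [Complex.neg_re]; linarith
      have h2 := k5 (-s) h1 (hnz _ (by simpa using h))
      rw [k3, hs, mul_zero] at h2
      exact h2 rfl
    · exact h
    · exact absurd hs (k5 s h (hnz _ (by simpa using h)))
  obtain ⟨v, hv1, hv2⟩ := k7 0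
  obtain ⟨K', hK'⟩ := t_had ξ C (B + 2 + 3 * |(m : ℝ)|) w k1 k2 k3 ⟨v, fun h => by
    rw [h, norm_zero, zero_mul, Real.exp_zero] at hv2
    linarith⟩ hzero hsum
  obtain ⟨v', hv1', hv2'⟩ := k7 K'
  exact absurd (hK' v' hv1') (not_le.2 hv2')

end Pool.Agent.NH98.EW
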