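import Pool.Agent.NH98.EW.StmB

/-! # The boundary behaviour of the transform of the deviation of the partial sums -/

set_option autoImplicit false

open MeasureTheory Filter Topology Set
open Pool.Agent.TH942.LS (Dat)
open Pool.Agent.TH942.SL
open Pool.Agent.W263.BSD (LInt lap lapC lapC_ofReal lapC_differentiableAt)
open Pool.Agent.TH270.MS
open Pool.Agent.NH98.RT
open Pool.Agent.NH98.RT.Tool

namespace Pool.Agent.NH98.EW.Bdry

/-! ### the general principle -/

theorem loc_of (F L mm R : ℂ → ℂ) (x : ℝ) (A : ℂ)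
    (hb : ∀ η : ℝ, 0 < η → ∃ b : ℝ → ℂ, IntegrableOn b (Ioo (-η) η) ∧
      Tendsto (fun σ : ℝ => ∫ ξ in Ioo (-η) η,
        ‖L ((σ : ℂ) + ((x + ξ : ℝ) : ℂ) * Complex.I) - b ξ‖) (𝓝[>] 0) (𝓝 0))
    (hL : ∀ s : ℂ, 0 < s.re → ContinuousAt L s)
    (hm : ∀ᶠ s in 𝓝 ((x : ℂ) * Complex.I), ContinuousAt mm s)
    (hR : ∀ᶠ s in 𝓝 ((x : ℂ) * Complex.I), ContinuousAt R s)
    (hF : ∀ᶠ s in 𝓝 ((x : ℂ) * Complex.I), 0 < s.re →
      F s = A / (s - (x : ℂ) * Complex.I) + mm s * L s + R s) :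
    ∃ (η : ℝ) (b : ℝ → ℂ), 0 < η ∧ IntegrableOn b (Ioo (-η) η) ∧
      Tendsto (fun σ : ℝ => ∫ ξ in Ioo (-η) η,
        ‖F ((σ : ℂ) + ((x + ξ : ℝ) : ℂ) * Complex.I) - A / ((σ : ℂ) + (ξ : ℂ) * Complex.I) - b ξ‖)
        (𝓝[>] 0) (𝓝 0) := by
  obtain ⟨ρ, hρ, hball⟩ := (Metric.nhds_basis_closedBall.eventually_iff).1 (hm.and (hR.and hF))
  set z : ℂ := (x : ℂ) * Complex.I with hz
  have hKc : IsCompact (Metric.closedBall z ρ) := isCompact_closedBall z ρ
  have hmc : ContinuousOn mm (Metric.closedBall z ρ) := fun s hs =>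
    (hball hs).1.continuousWithinAt
  have hRc : ContinuousOn R (Metric.closedBall z ρ) := fun s hs =>
    (hball hs).2.1.continuousWithinAt
  obtain ⟨M, hM⟩ := hKc.exists_bound_of_continuousOn hmc
  obtain ⟨M', hM'⟩ := hKc.exists_bound_of_continuousOn hRc
  have hM0 : 0 ≤ M := (norm_nonneg _).trans (hM z (Metric.mem_closedBall_self hρ.le))
  have hmu := Metric.uniformContinuousOn_iff.1 (hKc.uniformContinuousOn_of_continuous hmc)
  have hRu := Metric.uniformContinuousOn_iff.1 (hKc.uniformContinuousOn_of_continuous hRc)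
  set η : ℝ := ρ / 2 with hη
  have hη0 : 0 < η := by rw [hη]; linarith
  obtain ⟨b0, hb1, hb2⟩ := hb η hη0
  set w0 : ℝ → ℂ := fun ξ => ((x + ξ : ℝ) : ℂ) * Complex.I with hw0
  have hw0c : Continuous w0 := by
    rw [hw0]
    fun_prop
  have hmem : ∀ (t ξ : ℝ), 0 ≤ t → t ≤ η → ξ ∈ Ioo (-η) η → (t : ℂ) + w0 ξ ∈ Metric.closedBall z ρ := by
    intro t ξ ht ht' hξ
    rw [Metric.mem_closedBall, dist_eq_norm]
    have e : (t : ℂ) + w0 ξ - z = (t : ℂ) + (ξ : ℂ) * Complex.I := by
      rw [hw0, hz]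
      push_cast
      ring
    rw [e]
    refine (norm_add_le _ _).trans ?_
    rw [norm_mul, Complex.norm_I, mul_one, Complex.norm_real, Complex.norm_real, Real.norm_eq_abs,
      Real.norm_eq_abs, abs_of_nonneg ht]
    have h1 : |ξ| ≤ η := (abs_lt.2 ⟨hξ.1, hξ.2⟩).le
    rw [hη] at ht' h1
    linarith
  have hmem0 : ∀ ξ ∈ Ioo (-η) η, w0 ξ ∈ Metric.closedBall z ρ := by
    intro ξ hξ
    have := hmem 0 ξ le_rfl hη0.le hξ
    rwa [Complex.ofReal_zero, zero_add] at this
  have hc1 : ContinuousOn (fun ξ => mm (w0 ξ)) (Ioo (-η) η) :=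
    hmc.comp hw0c.continuousOn hmem0
  have hc2 : ContinuousOn (fun ξ => R (w0 ξ)) (Ioo (-η) η) :=
    hRc.comp hw0c.continuousOn hmem0
  have hfin : volume (Ioo (-η) η) ≠ ⊤ := by simp
  have hb3 : IntegrableOn (fun ξ => mm (w0 ξ) * b0 ξ + R (w0 ξ)) (Ioo (-η) η) := by
    refine Integrable.add ?_ ?_
    · refine Integrable.bdd_mul (c := M) hb1 (hc1.aestronglyMeasurable measurableSet_Ioo) ?_
      filter_upwards [ae_restrict_mem measurableSet_Ioo] with ξ hξ
      exact hM _ (hmem0 ξ hξ)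
    · refine Integrable.mono' (g := fun _ => M') (integrableOn_const hfin)
        (hc2.aestronglyMeasurable measurableSet_Ioo) ?_
      filter_upwards [ae_restrict_mem measurableSet_Ioo] with ξ hξ
      exact hM' _ (hmem0 ξ hξ)
  refine ⟨η, fun ξ => mm (w0 ξ) * b0 ξ + R (w0 ξ), hη0, hb3, ?_⟩
  refine tendsto_order.2 ⟨fun a ha => Eventually.of_forall fun t =>
    lt_of_lt_of_le ha (integral_nonneg fun ξ => norm_nonneg _), fun a ha => ?_⟩
  set B : ℝ := ∫ ξ in Ioo (-η) η, ‖b0 ξ‖ with hB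
  have hB0 : 0 ≤ B := integral_nonneg fun ξ => norm_nonneg _
  set e : ℝ := a / (2 * (B + 2 * η + 1)) with he
  have hden : 0 < 2 * (B + 2 * η + 1) := by positivity
  have he0 : 0 < e := div_pos ha hden
  have he1 : e * (B + 2 * η) < a / 2 := by
    have h1 : e * (2 * (B + 2 * η + 1)) = a := by rw [he]; field_simp
    nlinarith
  obtain ⟨d1, hd1, hd1'⟩ := hmu e he0
  obtain ⟨d2, hd2, hd2'⟩ := hRu e he0
  have hlim := hb2.const_mul M
  rw [mul_zero] at hlim
  have hs1 : ∀ᶠ t : ℝ in 𝓝[>] 0, t < min (min d1 d2) η :=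
    (gt_mem_nhds (lt_min (lt_min hd1 hd2) hη0)).filter_mono nhdsWithin_le_nhds
  filter_upwards [hlim.eventually (gt_mem_nhds (half_pos ha)), hs1, self_mem_nhdsWithin] with t h1 h2 h3
  have ht : 0 < t := h3
  have htd1 : t < d1 := lt_of_lt_of_le h2 ((min_le_left _ _).trans (min_le_left _ _))
  have htd2 : t < d2 := lt_of_lt_of_le h2 ((min_le_left _ _).trans (min_le_right _ _))
  have htη : t < η := lt_of_lt_of_le h2 (min_le_right _ _)
  have hLc : Continuous fun ξ : ℝ => L ((t : ℂ) + w0 ξ) := by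
    rw [continuous_iff_continuousAt]
    intro ξ
    have h5 : ContinuousAt L ((t : ℂ) + w0 ξ) := by
      apply hL
      rw [hw0]
      simpa using ht
    exact ContinuousAt.comp (f := fun ξ : ℝ => (t : ℂ) + w0 ξ) h5
      (continuous_const.add hw0c).continuousAt
  have i1 : IntegrableOn (fun ξ : ℝ => ‖L ((t : ℂ) + w0 ξ) - b0 ξ‖) (Ioo (-η) η) :=
    ((hLc.integrableOn_Icc.mono_set Ioo_subset_Icc_self).sub hb1).norm
  have i2 : IntegrableOn (fun ξ : ℝ => ‖b0 ξ‖) (Ioo (-η) η) := hb1.norm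
  have i3 : IntegrableOn (fun _ : ℝ => e) (Ioo (-η) η) := integrableOn_const hfin
  have hbd : ∫ ξ in Ioo (-η) η, ‖F ((t : ℂ) + w0 ξ) - A / ((t : ℂ) + (ξ : ℂ) * Complex.I) -
      (mm (w0 ξ) * b0 ξ + R (w0 ξ))‖ ≤
      ∫ ξ in Ioo (-η) η, (M * ‖L ((t : ℂ) + w0 ξ) - b0 ξ‖ + e * ‖b0 ξ‖ + e) := by
    refine integral_mono_of_nonneg (Eventually.of_forall fun ξ => norm_nonneg _)
      (((i1.const_mul M).add (i2.const_mul e)).add i3) ?_
    filter_upwards [ae_restrict_mem measurableSet_Ioo] with ξ hξ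
    have m1 := hmem t ξ ht.le htη.le hξ
    have m2 := hmem0 ξ hξ
    have hre : 0 < ((t : ℂ) + w0 ξ).re := by
      rw [hw0]
      simpa using ht
    have hFs := (hball m1).2.2 hre
    have e1 : (t : ℂ) + w0 ξ - z = (t : ℂ) + (ξ : ℂ) * Complex.I := by
      rw [hw0, hz]
      push_cast
      ring
    rw [e1] at hFs
    have hdist : dist ((t : ℂ) + w0 ξ) (w0 ξ) = t := by
      rw [dist_eq_norm, add_sub_cancel_right, Complex.norm_real, Real.norm_of_nonneg ht.le]
    have n1 : ‖mm ((t : ℂ) + w0 ξ) - mm (w0 ξ)‖ ≤ e := by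
      rw [← dist_eq_norm]
      exact (hd1' _ m1 _ m2 (by rw [hdist]; exact htd1)).le
    have n2 : ‖R ((t : ℂ) + w0 ξ) - R (w0 ξ)‖ ≤ e := by
      rw [← dist_eq_norm]
      exact (hd2' _ m1 _ m2 (by rw [hdist]; exact htd2)).le
    have e2 : F ((t : ℂ) + w0 ξ) - A / ((t : ℂ) + (ξ : ℂ) * Complex.I) -
        (mm (w0 ξ) * b0 ξ + R (w0 ξ)) =
        mm ((t : ℂ) + w0 ξ) * (L ((t : ℂ) + w0 ξ) - b0 ξ) +
          (mm ((t : ℂ) + w0 ξ) - mm (w0 ξ)) * b0 ξ + (R ((t : ℂ) + w0 ξ) - R (w0 ξ)) := by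
      rw [hFs]
      ring
    rw [e2]
    refine (norm_add_le _ _).trans (add_le_add ((norm_add_le _ _).trans (add_le_add ?_ ?_)) n2)
    · rw [norm_mul]
      exact mul_le_mul_of_nonneg_right (hM _ m1) (norm_nonneg _)
    · rw [norm_mul]
      exact mul_le_mul_of_nonneg_right n1 (norm_nonneg _)
  have hsum : ∫ ξ in Ioo (-η) η, (M * ‖L ((t : ℂ) + w0 ξ) - b0 ξ‖ + e * ‖b0 ξ‖ + e) =
      M * (∫ ξ in Ioo (-η) η, ‖L ((t : ℂ) + w0 ξ) - b0 ξ‖) + e * B + e * (2 * η) := by
    have i12 : IntegrableOn (fun ξ : ℝ => M * ‖L ((t : ℂ) + w0 ξ) - b0 ξ‖ + e * ‖b0 ξ‖) (Ioo (-η) η) :=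
      (i1.const_mul M).add (i2.const_mul e)
    rw [integral_add i12 i3,
      integral_add (i1.const_mul M) (i2.const_mul e), integral_const_mul, integral_const_mul,
      setIntegral_const]
    congr 1
    rw [smul_eq_mul, mul_comm]
    congr 1
    rw [measureReal_def, Real.volume_Ioo, ENNReal.toReal_ofReal (by linarith)]
    ring
  rw [hsum] at hbd
  calc _ ≤ _ := hbd
    _ < a := by
      have h1' : M * (∫ ξ in Ioo (-η) η, ‖L ((t : ℂ) + w0 ξ) - b0 ξ‖) < a / 2 := h1
      nlinarith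

/-! ### the integral over the unit interval of the sawtooth function -/

theorem JJ_formula {s : ℂ} (hs : s ≠ 0) :
    JJ s = (1 / 2) * (1 + Complex.exp (-s)) / s + (Complex.exp (-s) - 1) / s ^ 2 := by
  unfold JJ
  have hd : ∀ v : ℝ, HasDerivAt (fun v : ℝ => -((1 / 2 - v : ℝ) : ℂ) * Complex.exp (-(s * v)) / s +
      Complex.exp (-(s * v)) / s ^ 2) (((1 / 2 - v : ℝ) : ℂ) * Complex.exp (-(s * v))) v := by
    intro v
    have h1 : HasDerivAt (fun v : ℝ => Complex.exp (-(s * v))) (Complex.exp (-(s * v)) * (-(s * 1))) v := by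
      have := ((hasDerivAt_id v).ofReal_comp.const_mul s).neg.cexp
      simpa using this
    have h2 : HasDerivAt (fun v : ℝ => -((1 / 2 - v : ℝ) : ℂ)) (-((-1 : ℝ) : ℂ)) v :=
      ((hasDerivAt_id v).const_sub (1 / 2)).ofReal_comp.fun_neg
    refine (((h2.fun_mul h1).div_const s).fun_add (h1.div_const (s ^ 2))).congr_deriv ?_
    push_cast
    field_simp
    ring
  rw [intervalIntegral.integral_eq_sub_of_hasDerivAt (fun v _ => hd v)
    ((by fun_prop : Continuous fun v : ℝ => ((1 / 2 - v : ℝ) : ℂ) * Complex.exp (-(s * v))).intervalIntegrable _ _)]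
  have e1 : Complex.exp (-(s * ((1 : ℝ) : ℂ))) = Complex.exp (-s) := by
    rw [Complex.ofReal_one, mul_one]
  rw [e1]
  simp only [Complex.ofReal_zero, mul_zero, neg_zero, Complex.exp_zero]
  push_cast
  field_simp
  ring

theorem JJ_diff_ne {s : ℂ} (hs : s ≠ 0) : DifferentiableAt ℂ JJ s := by
  have h1 : JJ =ᶠ[𝓝 s] fun s => (1 / 2) * (1 + Complex.exp (-s)) / s + (Complex.exp (-s) - 1) / s ^ 2 := by
    filter_upwards [isOpen_ne.mem_nhds hs] with t ht
    exact JJ_formula ht
  refine DifferentiableAt.congr_of_eventuallyEq ?_ h1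
  have h2 : s ^ 2 ≠ 0 := pow_ne_zero _ hs
  fun_prop (disch := assumption)

theorem JJ_diff : Differentiable ℂ JJ := by
  intro s
  rcases eq_or_ne s 0 with rfl | hs
  · refine (Complex.analyticAt_of_differentiable_on_punctured_nhds_of_continuousAt ?_
      JJ_cont.continuousAt).differentiableAt
    filter_upwards [self_mem_nhdsWithin] with t ht
    exact JJ_diff_ne ht
  · exact JJ_diff_ne hs

theorem dslope_diff {f : ℂ → ℂ} (hf : Differentiable ℂ f) (z : ℂ) : Differentiable ℂ (dslope f z) := by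
  intro s
  have h1 : DifferentiableOn ℂ f Set.univ := hf.differentiableOn
  have h2 := (Complex.differentiableOn_dslope (c := z) (s := Set.univ) (by simp)).2 h1
  exact h2.differentiableAt (by simp)

/-- the function `(1 - e^{-s})` -/
noncomputable def om (s : ℂ) : ℂ := 1 - Complex.exp (-s)

theorem om_diff : Differentiable ℂ om := by
  unfold om
  fun_prop

theorem om_deriv (s : ℂ) : HasDerivAt om (Complex.exp (-s)) s := by
  unfold om
  have := ((hasDerivAt_id s).fun_neg.cexp).const_sub 1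
  simpa using this

theorem om_ne {s : ℂ} (hs : 0 < s.re) : om s ≠ 0 := by
  unfold om
  intro h4
  have h5 : ‖Complex.exp (-s)‖ = 1 := by
    rw [← sub_eq_zero.1 h4, norm_one]
  rw [Complex.norm_exp, Complex.neg_re] at h5
  have := Real.exp_lt_one_iff.2 (neg_lt_zero.2 hs)
  linarith

/-! ### the transform -/

section

variable {lam c : ℕ → ℝ} {δ σ : ℝ} {G₀ g : ℂ → ℂ} {k p κ : ℕ} {η C : ℝ}

/-- the part on the unit interval -/
noncomputable def f1 (lam c : ℕ → ℝ) (r c₀ u : ℝ) : ℝ :=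
  (Ioc (0 : ℝ) 1).indicator (fun u => u * Er lam c r c₀ u) u

theorem f1_meas (D : Dat lam c δ σ) (r c₀ : ℝ) : Measurable (f1 lam c r c₀) :=
  (measurable_id.mul (er_meas D r c₀)).indicator measurableSet_Ioc

theorem f1_int (D : Dat lam c δ σ) (r c₀ w : ℝ) : LInt (f1 lam c r c₀) w := by
  obtain ⟨C₁, hC₁, hb⟩ := er_le D r c₀
  have h0 : IntegrableOn (fun u : ℝ => C₁ * Real.exp (σ * u) * Real.exp (-(w * u))) (Ioc 0 1) :=
    (Continuous.integrableOn_Icc (by fun_prop)).mono_set Ioc_subset_Icc_self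
  have h1 := (h0.integrable_indicator measurableSet_Ioc).integrableOn (s := Ioi (0 : ℝ))
  refine Integrable.mono' h1 ((f1_meas D r c₀).mul (by fun_prop)).aestronglyMeasurable
    (Eventually.of_forall fun u => ?_)
  unfold f1
  by_cases hu : u ∈ Ioc (0 : ℝ) 1
  · rw [indicator_of_mem hu, indicator_of_mem hu, norm_mul, norm_mul, Real.norm_eq_abs, Real.norm_eq_abs,
      Real.norm_of_nonneg (Real.exp_pos _).le, abs_of_pos hu.1]
    refine mul_le_mul_of_nonneg_right ?_ (Real.exp_pos _).le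
    calc u * |Er lam c r c₀ u| ≤ 1 * |Er lam c r c₀ u| := mul_le_mul_of_nonneg_right hu.2 (abs_nonneg _)
      _ ≤ _ := by rw [one_mul]; exact hb u
  · rw [indicator_of_notMem hu, indicator_of_notMem hu]
    simp

theorem f1_diff (D : Dat lam c δ σ) (r c₀ : ℝ) : Differentiable ℂ (lapC (f1 lam c r c₀)) := fun s =>
  lapC_differentiableAt (w0 := s.re - 1) (f1_meas D r c₀) (fun w _ => f1_int D r c₀ w) (by linarith)

theorem tr (D : Dat lam c δ σ) (r q : ℝ)
    (hsq : Integrable fun u => Er lam c r (q - r * Real.eulerMascheroniConstant) u ^ 2) {s : ℂ} (hs : 0 < s.re) :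
    ∫ u in Ioi (1 : ℝ), (ph lam c r q u : ℂ) * Complex.exp (-(s * (u : ℂ))) =
      -deriv (lapC (Er lam c r (q - r * Real.eulerMascheroniConstant))) s -
        lapC (f1 lam c r (q - r * Real.eulerMascheroniConstant)) s +
        r * (Complex.exp (-s) * JJ s / om s) := by
  set c₀ : ℝ := q - r * Real.eulerMascheroniConstant with hc₀
  have hint : ∀ x : ℝ, 0 < x → LInt (Er lam c r c₀) x := fun x hx => linf_of_sq (er_meas D r c₀) hsq hx
  have hint2 : ∀ w : ℝ, 0 < w → IntegrableOn (fun u => u * Er lam c r c₀ u * Real.exp (-(w * u))) (Ioi 0) :=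
    fun w hw => int_mul (er_meas D r c₀) (fun w hw => hint w hw) hw
  have m2 : Measurable fun u => u * Er lam c r c₀ u := measurable_id.mul (er_meas D r c₀)
  have i0 : IntegrableOn (fun u : ℝ => ((u * Er lam c r c₀ u : ℝ) : ℂ) *
      Complex.exp (-(s * (u : ℂ)))) (Ioi 0) := int_cx m2 (hint2 _ hs)
  have i1 : IntegrableOn (fun u : ℝ => ((u * Er lam c r c₀ u : ℝ) : ℂ) *
      Complex.exp (-(s * (u : ℂ)))) (Ioi 1) :=
    i0.mono_set (Ioi_subset_Ioi zero_le_one)
  have i2 : IntegrableOn (fun u : ℝ => (saw u : ℂ) *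
      Complex.exp (-(s * (u : ℂ)))) (Ioi 1) := int_cx saw_meas (saw_int hs 1)
  have h1 : lapC (fun u => u * Er lam c r c₀ u) s =
      (∫ u in Ioc (0 : ℝ) 1, ((u * Er lam c r c₀ u : ℝ) : ℂ) * Complex.exp (-(s * (u : ℂ)))) +
      ∫ u in Ioi (1 : ℝ), ((u * Er lam c r c₀ u : ℝ) : ℂ) * Complex.exp (-(s * (u : ℂ))) := by
    unfold lapC
    rw [← Ioc_union_Ioi_eq_Ioi (show (0 : ℝ) ≤ 1 by norm_num), setIntegral_union
      (Ioc_disjoint_Ioi le_rfl) measurableSet_Ioi (i0.mono_set Ioc_subset_Ioi_self) i1]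
  have h2 : ∫ u in Ioi (1 : ℝ), (ph lam c r q u : ℂ) * Complex.exp (-(s * (u : ℂ))) =
      (∫ u in Ioi (1 : ℝ), ((u * Er lam c r c₀ u : ℝ) : ℂ) * Complex.exp (-(s * (u : ℂ)))) +
      (r : ℂ) * ∫ u in Ioi (1 : ℝ), (saw u : ℂ) * Complex.exp (-(s * (u : ℂ))) := by
    rw [← integral_const_mul, ← integral_add i1 (i2.const_mul _)]
    refine integral_congr_ae (Eventually.of_forall fun u => ?_)
    simp only
    unfold ph
    push_cast
    ring
  have h3 : lapC (f1 lam c r c₀) s =
      ∫ u in Ioc (0 : ℝ) 1, ((u * Er lam c r c₀ u : ℝ) : ℂ) * Complex.exp (-(s * (u : ℂ))) := by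
    have e1 : ∀ u : ℝ, (f1 lam c r c₀ u : ℂ) * Complex.exp (-(s * (u : ℂ))) =
        (Ioc (0 : ℝ) 1).indicator (fun u : ℝ => ((u * Er lam c r c₀ u : ℝ) : ℂ) *
          Complex.exp (-(s * (u : ℂ)))) u := by
      intro u
      unfold f1
      by_cases hu : u ∈ Ioc (0 : ℝ) 1
      · rw [indicator_of_mem hu, indicator_of_mem hu]
      · rw [indicator_of_notMem hu, indicator_of_notMem hu]
        simp
    unfold lapC
    rw [integral_congr_ae (Eventually.of_forall e1), setIntegral_indicator measurableSet_Ioc,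
      inter_eq_self_of_subset_right Ioc_subset_Ioi_self]
  have h4 := mom D r c₀ hint hs
  have h5 : ∫ u in Ioi (1 : ℝ), (saw u : ℂ) * Complex.exp (-(s * (u : ℂ))) =
      Complex.exp (-s) * JJ s / om s := by
    rw [eq_div_iff (om_ne hs)]
    exact saw_tr hs
  rw [h2, h5, ← h4, h1, h3]
  ring

/-! ### the points different from zero -/

theorem V_ex {x : ℝ} (hx : x ≠ 0) : ∃ V : ℂ → ℂ,
    (∀ᶠ s in 𝓝 ((x : ℂ) * Complex.I), ContinuousAt V s) ∧
    ∀ᶠ s in 𝓝 ((x : ℂ) * Complex.I), 0 < s.re →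
      Complex.exp (-s) / om s * (JJ s - 1 / s) = V s := by
  have hz0 : (x : ℂ) * Complex.I ≠ 0 := mul_ne_zero (by exact_mod_cast hx) Complex.I_ne_zero
  have hzre : ((x : ℂ) * Complex.I).re = 0 := by simp
  have hper := fun h => JJ_per (x := x) hx h
  generalize (x : ℂ) * Complex.I = z at hz0 hzre hper
  have hn0 : ∀ᶠ s in 𝓝 z, s ≠ 0 := isOpen_ne.mem_nhds hz0
  by_cases h : Complex.exp (-z) = 1
  · have hJ := hper h
    set N : ℂ → ℂ := fun s => s * JJ s - 1 with hN
    have hNd : Differentiable ℂ N := (differentiable_id.mul JJ_diff).sub_const 1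
    have hN0 : N z = 0 := by
      rw [hN]
      simp only
      rw [hJ]
      field_simp
      ring
    have ho0 : om z = 0 := by
      unfold om
      rw [h, sub_self]
    have d1 := dslope_diff hNd z
    have d2 := dslope_diff om_diff z
    have hne : dslope om z z ≠ 0 := by
      rw [dslope_same, (om_deriv z).deriv, h]
      exact one_ne_zero
    have hn1 : ∀ᶠ s in 𝓝 z, dslope om z s ≠ 0 := d2.continuous.continuousAt.eventually_ne hne
    refine ⟨fun s => Complex.exp (-s) / s * (dslope N z s / dslope om z s), ?_, ?_⟩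
    · filter_upwards [hn0, hn1] with s h1 h2
      refine ContinuousAt.mul (ContinuousAt.div (by fun_prop) continuousAt_id h1)
        (ContinuousAt.div d1.continuous.continuousAt d2.continuous.continuousAt h2)
    · filter_upwards [hn0, hn1] with s h1 h2 hs
      have hsz : s ≠ z := by
        rintro rfl
        rw [hzre] at hs
        exact lt_irrefl _ hs
      have hsz' : s - z ≠ 0 := sub_ne_zero.2 hsz
      have ho := om_ne hs
      rw [dslope_of_ne _ hsz, dslope_of_ne _ hsz, slope_def_field, slope_def_field, hN0, ho0, sub_zero,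
        sub_zero, hN]
      simp only
      field_simp
  · have ho0 : om z ≠ 0 := by
      unfold om
      exact sub_ne_zero.2 (Ne.symm h)
    have hn1 : ∀ᶠ s in 𝓝 z, om s ≠ 0 := om_diff.continuous.continuousAt.eventually_ne ho0
    refine ⟨fun s => Complex.exp (-s) / om s * (JJ s - 1 / s), ?_, Eventually.of_forall fun s _ => rfl⟩
    filter_upwards [hn0, hn1] with s h1 h2
    refine ContinuousAt.mul (ContinuousAt.div (by fun_prop) om_diff.continuous.continuousAt h2)
        (JJ_cont.continuousAt.sub (ContinuousAt.div continuousAt_const continuousAt_id h1))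

theorem case_ne (E : Cn lam c δ σ G₀ g k p κ η C) (r c₀ : ℝ)
    (hsq : Integrable fun u => Er lam c r c₀ u ^ 2) {x : ℝ} (hx : x ≠ 0) :
    ∃ R : ℂ → ℂ, (∀ᶠ s in 𝓝 ((x : ℂ) * Complex.I), ContinuousAt R s) ∧
      ∀ᶠ s in 𝓝 ((x : ℂ) * Complex.I), 0 < s.re →
        -deriv (lapC (Er lam c r c₀)) s - lapC (f1 lam c r c₀) s + r * (Complex.exp (-s) * JJ s / om s) =
          (((analyticOrderNatAt G₀ ((x : ℂ) * Complex.I) : ℝ) : ℂ) / ((x : ℂ) * Complex.I)) /
            (s - (x : ℂ) * Complex.I) + 1 / s * lapC (Er lam c r c₀) s + R s := by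
  have D := E.D
  have hint : ∀ x : ℝ, 0 < x → LInt (Er lam c r c₀) x := fun x hx => linf_of_sq (er_meas D r c₀) hsq hx
  obtain ⟨V, hV1, hV2⟩ := V_ex hx
  have hz0 : (x : ℂ) * Complex.I ≠ 0 := mul_ne_zero (by exact_mod_cast hx) Complex.I_ne_zero
  have hzre : ((x : ℂ) * Complex.I).re = 0 := by simp
  have hxi : -η < ((x : ℂ) * Complex.I).re := by simpa using E.hη
  generalize (x : ℂ) * Complex.I = z at hz0 hzre hxi hV1 hV2
  have hU : IsOpen {s : ℂ | -η < s.re} := isOpen_lt continuous_const Complex.continuous_re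
  have hUc : Convex ℝ {s : ℂ | -η < s.re} := convex_halfSpace_re_gt _
  have a1 : AnalyticOnNhd ℂ G₀ {s : ℂ | -η < s.re} :=
    DifferentiableOn.analyticOnNhd (fun z hz => (E.hG z hz).differentiableWithinAt) hU
  have hfin : analyticOrderAt G₀ z ≠ ⊤ := by
    intro htop
    rw [analyticOrderAt_eq_top] at htop
    have h1 := a1.eqOn_of_preconnected_of_eventuallyEq (analyticOnNhd_const (v := (0 : ℂ)))
      hUc.isPreconnected (show z ∈ {s : ℂ | -η < s.re} from hxi) htop
    have h2 : ((σ + 1 : ℝ) : ℂ) ∈ {s : ℂ | -η < s.re} := by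
      show -η < (((σ + 1 : ℝ) : ℂ)).re
      rw [Complex.ofReal_re]
      linarith [E.D.σ0, E.hη]
    have h3 : G₀ ((σ + 1 : ℝ) : ℂ) = 0 := h1 h2
    have h4 := E.hexp ((σ + 1 : ℝ) : ℂ) (by rw [Complex.ofReal_re]; linarith)
    rw [h3] at h4
    have h5 : ((σ + 1 : ℝ) : ℂ) ≠ 0 := by
      have := E.D.σ0
      exact_mod_cast (by linarith : (σ + 1 : ℝ) ≠ 0)
    exact mul_ne_zero (pow_ne_zero _ h5) (Complex.exp_ne_zero _) h4
  have hG := a1 _ hxi
  set m : ℕ := analyticOrderNatAt G₀ z with hm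
  have h1 : analyticOrderAt G₀ z = m := by
    rw [hm, Nat.cast_analyticOrderNatAt hfin]
  rw [hG.analyticOrderAt_eq_natCast] at h1
  obtain ⟨g1, hg, hg0, he⟩ := h1
  have he' : G₀ =ᶠ[𝓝 z] fun s => (s - z) ^ m * g1 s := by
    filter_upwards [he] with s hs
    rw [hs, smul_eq_mul]
  have hgne : ∀ᶠ s in 𝓝 z, g1 s ≠ 0 := hg.continuousAt.eventually_ne hg0
  have hgd : ∀ᶠ s in 𝓝 z, DifferentiableAt ℂ g1 s :=
    hg.eventually_analyticAt.mono fun s hs => hs.differentiableAt
  have hgdc : ∀ᶠ s in 𝓝 z, ContinuousAt (deriv g1) s :=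
    hg.deriv.eventually_analyticAt.mono fun s hs => hs.continuousAt
  have hn0 : ∀ᶠ s in 𝓝 z, s ≠ 0 := isOpen_ne.mem_nhds hz0
  have hev : ∀ᶠ s in 𝓝 z, s ≠ z → deriv G₀ s / G₀ s = m / (s - z) + deriv g1 s / g1 s := by
    filter_upwards [he'.eventuallyEq_nhds, hgne, hgd] with s h2 h3 h4 h5
    have h6 : s - z ≠ 0 := sub_ne_zero.2 h5
    have hd1 : HasDerivAt (fun s : ℂ => (s - z) ^ m) (m * (s - z) ^ (m - 1)) s := by
      have := ((hasDerivAt_id s).sub_const z).fun_pow m
      simpa using this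
    have hd : HasDerivAt (fun s => (s - z) ^ m * g1 s)
        (m * (s - z) ^ (m - 1) * g1 s + (s - z) ^ m * deriv g1 s) s :=
      hd1.mul h4.hasDerivAt
    rw [h2.deriv_eq, h2.self_of_nhds, hd.deriv]
    rcases Nat.eq_zero_or_pos m with hm0 | hm0
    · rw [hm0]
      simp
    · obtain ⟨j, hj⟩ : ∃ j, m = j + 1 := ⟨m - 1, by omega⟩
      rw [hj, Nat.add_sub_cancel, pow_succ]
      field_simp
      ring
  refine ⟨fun s => -(m : ℂ) / (s * z) + 1 / s * (deriv g1 s / g1 s) - k / s ^ 2 -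
    lapC (f1 lam c r c₀) s + r * V s, ?_, ?_⟩
  · filter_upwards [hn0, hgne, hgdc, hgd, hV1] with s h2 h3 h4 h5 h6
    have c1 : ContinuousAt (fun s : ℂ => -(m : ℂ) / (s * z)) s :=
      ContinuousAt.div continuousAt_const (continuousAt_id.mul continuousAt_const) (mul_ne_zero h2 hz0)
    have c2 : ContinuousAt (fun s : ℂ => 1 / s * (deriv g1 s / g1 s)) s :=
      (ContinuousAt.div continuousAt_const continuousAt_id h2).mul (h4.div h5.continuousAt h3)
    have c3 : ContinuousAt (fun s : ℂ => (k : ℂ) / s ^ 2) s :=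
      ContinuousAt.div continuousAt_const (continuousAt_id.pow 2) (pow_ne_zero _ h2)
    exact (((c1.add c2).sub c3).sub (f1_diff D r c₀).continuous.continuousAt).add
      (continuousAt_const.mul h6)
  · filter_upwards [hn0, hgne, hev, hV2] with s h2 h3 h4 h6 hs
    have hsz : s ≠ z := by
      rintro rfl
      rw [hzre] at hs
      exact lt_irrefl _ hs
    have h7 := h4 hsz
    have h8 := rep_deriv E r c₀ hint hs
    have h9 := h6 hs
    have ho := om_ne hs
    have hsz' : s - z ≠ 0 := sub_ne_zero.2 hsz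
    rw [h7] at h8
    rw [← h9]
    have ho' : (1 : ℂ) - Complex.exp (-s) = om s := rfl
    rw [ho'] at h8
    have h10 : deriv (lapC (Er lam c r c₀)) s = (1 / s) * (k / s - lapC (Er lam c r c₀) s +
        r * (Complex.exp (-s) / om s) - (m / (s - z) + deriv g1 s / g1 s)) := by
      rw [h8]
      field_simp
      ring
    rw [h10]
    push_cast
    field_simp
    ring

/-! ### the point zero -/

theorem dslope_om_zero : dslope om 0 0 = 1 := by
  rw [dslope_same, (om_deriv 0).deriv]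
  simp

theorem om_zero : om 0 = 0 := by
  unfold om
  simp

theorem case_zero (E : Cn lam c δ σ G₀ g k p κ η C) (r c₀ : ℝ) (hr : (p : ℝ) = k + r)
    (hsq : Integrable fun u => Er lam c r c₀ u ^ 2) :
    ∃ R : ℂ → ℂ, (∀ᶠ s in 𝓝 (0 : ℂ), ContinuousAt R s) ∧
      ∀ᶠ s in 𝓝 (0 : ℂ), 0 < s.re →
        -deriv (lapC (Er lam c r c₀)) s - lapC (f1 lam c r c₀) s + r * (Complex.exp (-s) * JJ s / om s) =
          R s := by
  have D := E.D
  have hint : ∀ x : ℝ, 0 < x → LInt (Er lam c r c₀) x := fun x hx => linf_of_sq (er_meas D r c₀) hsq hx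
  have hg := E.hg
  have hg0 := E.hg0
  have d2 := dslope_diff om_diff 0
  have dJ := dslope_diff JJ_diff 0
  set E1 : ℂ → ℂ := dslope om 0 with hE1
  have hE10 : E1 0 = 1 := dslope_om_zero
  have n1 : ∀ᶠ s in 𝓝 (0 : ℂ), E1 s ∈ Complex.slitPlane := by
    refine d2.continuous.continuousAt.eventually_mem (Complex.isOpen_slitPlane.mem_nhds ?_)
    rw [hE10]
    exact Complex.one_mem_slitPlane
  have n2 : ∀ᶠ s in 𝓝 (0 : ℂ), g s / g 0 ∈ Complex.slitPlane := by
    have h1 : ContinuousAt (fun s => g s / g 0) 0 := hg.continuousAt.div_const _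
    refine h1.eventually_mem (Complex.isOpen_slitPlane.mem_nhds ?_)
    rw [div_self hg0]
    exact Complex.one_mem_slitPlane
  have n3 : ∀ᶠ s in 𝓝 (0 : ℂ), DifferentiableAt ℂ g s :=
    hg.eventually_analyticAt.mono fun s hs => hs.differentiableAt
  have n4 : ∀ᶠ s in 𝓝 (0 : ℂ), ∀ᶠ t in 𝓝 s, G₀ t = t ^ p * g t := E.near.eventually_nhds
  obtain ⟨ρ, hρ, hball⟩ := (Metric.nhds_basis_ball.eventually_iff).1 (n1.and (n2.and (n3.and n4)))
  have hm0 : (0 : ℂ) ∈ Metric.ball (0 : ℂ) ρ := Metric.mem_ball_self hρ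
  set T : ℂ → ℂ := fun s => r * Complex.log (E1 s) - Complex.log (g s / g 0) with hT
  have hT0 : T 0 = 0 := by
    rw [hT]
    simp only
    rw [hE10, div_self hg0, Complex.log_one]
    ring
  have hTder : ∀ s ∈ Metric.ball (0 : ℂ) ρ,
      HasDerivAt T (r * (deriv E1 s / E1 s) - deriv g s / g s) s := by
    intro s hs
    obtain ⟨b1, b2, b3, -⟩ := hball hs
    have h1 := (d2 s).hasDerivAt.clog b1
    have h2 := (b3.hasDerivAt.div_const (g 0)).clog b2
    refine ((h1.const_mul (r : ℂ)).sub h2).congr_deriv ?_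
    have h3 : g s ≠ 0 := by
      intro h3
      rw [h3, zero_div] at b2
      exact Complex.zero_notMem_slitPlane b2
    field_simp
  have hTd : DifferentiableOn ℂ T (Metric.ball (0 : ℂ) ρ) := fun s hs =>
    (hTder s hs).differentiableAt.differentiableWithinAt
  set L : ℂ → ℂ := lapC (Er lam c r c₀) with hL
  have hLd : ∀ s : ℂ, 0 < s.re → DifferentiableAt ℂ L s := fun s hs =>
    lapC_differentiableAt (er_meas D r c₀) (fun w hw => hint w hw) hs
  set U : Set ℂ := Metric.ball (0 : ℂ) ρ ∩ {s : ℂ | 0 < s.re} with hU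
  have hop : IsOpen {s : ℂ | 0 < s.re} := isOpen_lt continuous_const Complex.continuous_re
  have hUo : IsOpen U := Metric.isOpen_ball.inter hop
  have hUc : Convex ℝ U := (convex_ball (0 : ℂ) ρ).inter (convex_halfSpace_re_gt 0)
  set H : ℂ → ℂ := fun s => s * L s - T s with hH
  have hHder : ∀ s ∈ U, HasDerivAt H 0 s := by
    intro s hs
    obtain ⟨b1, b2, b3, b4⟩ := hball hs.1
    have hre : 0 < s.re := hs.2
    have hs0 : s ≠ 0 := by
      rintro rfl
      simp at hre
    have h1 := (hasDerivAt_id s).fun_mul (hLd s hre).hasDerivAt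
    refine (h1.sub (hTder s hs.1)).congr_deriv ?_
    have h2 := rep_deriv E r c₀ hint hre
    have e2 : deriv G₀ s / G₀ s = p / s + deriv g s / g s := by
      have hev : G₀ =ᶠ[𝓝 s] fun s => s ^ p * g s := b4
      have h5 : HasDerivAt (fun s : ℂ => s ^ p) (p * s ^ (p - 1)) s := by
        have := (hasDerivAt_id s).fun_pow p
        simpa using this
      have h3 : g s ≠ 0 := by
        intro h3
        rw [h3, zero_div] at b2
        exact Complex.zero_notMem_slitPlane b2
      rw [hev.deriv_eq, hev.self_of_nhds, (h5.fun_mul b3.hasDerivAt).deriv]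
      rcases Nat.eq_zero_or_pos p with hm0 | hm0
      · rw [hm0]
        simp
      · obtain ⟨j, hj⟩ : ∃ j, p = j + 1 := ⟨p - 1, by omega⟩
        rw [hj, Nat.add_sub_cancel, pow_succ]
        field_simp
        ring
    have ho := om_ne hre
    have e3 : deriv E1 s / E1 s = Complex.exp (-s) / om s - 1 / s := by
      have hev : E1 =ᶠ[𝓝 s] fun s => om s / s := by
        filter_upwards [isOpen_ne.mem_nhds hs0] with t ht
        rw [hE1, dslope_of_ne _ ht, slope_def_field, om_zero, sub_zero, sub_zero]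
      have h5 : HasDerivAt (fun y => om y / y) ((Complex.exp (-s) * s - om s * 1) / s ^ 2) s :=
        (om_deriv s).fun_div (hasDerivAt_id s) hs0
      rw [hev.deriv_eq, hev.self_of_nhds, h5.deriv]
      field_simp
    have ho' : (1 : ℂ) - Complex.exp (-s) = om s := rfl
    rw [e2, ho'] at h2
    have hpc : (p : ℂ) = k + r := by exact_mod_cast hr
    rw [hpc, ← hL] at h2
    rw [e3]
    simp only [id_eq, one_mul]
    linear_combination (norm := skip) h2
    field_simp
    ring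
  have hHd : DifferentiableOn ℂ H U := fun s hs => (hHder s hs).differentiableAt.differentiableWithinAt
  have hconst : ∀ s ∈ U, ∀ t ∈ U, H s = H t := fun s hs t ht =>
    hUo.is_const_of_deriv_eq_zero hUc.isPreconnected hHd (fun z hz => (hHder z hz).deriv) hs ht
  have hlim : Tendsto (fun ε : ℝ => H (ε : ℂ)) (𝓝[>] 0) (𝓝 0) := by
    have h1 := eps_lapC D r c₀ hsq 0
    have h2 := ((hTder 0 hm0).continuousAt.tendsto).comp tend_eps
    have h3 := h1.sub h2
    rw [hT0, sub_zero] at h3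
    refine h3.congr fun ε => ?_
    simp only [Function.comp_apply, Complex.ofReal_zero, zero_mul, add_zero]
    rfl
  have hev0 : ∀ᶠ ε : ℝ in 𝓝[>] 0, (ε : ℂ) ∈ U := by
    filter_upwards [tend_eps.eventually (Metric.ball_mem_nhds (0 : ℂ) hρ), self_mem_nhdsWithin] with ε h1 h2
    exact ⟨h1, by simpa using h2⟩
  have hHz : ∀ s ∈ U, H s = 0 := by
    intro s hs
    have h1 : Tendsto (fun ε : ℝ => H (ε : ℂ)) (𝓝[>] 0) (𝓝 (H s)) := by
      refine tendsto_const_nhds.congr' ?_
      filter_upwards [hev0] with ε hε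
      exact hconst s hs _ hε
    exact tendsto_nhds_unique h1 hlim
  set W : ℂ → ℂ := dslope T 0 with hW
  have hWd : DifferentiableOn ℂ W (Metric.ball (0 : ℂ) ρ) :=
    (Complex.differentiableOn_dslope (Metric.ball_mem_nhds (0 : ℂ) hρ)).2 hTd
  have hLW : ∀ s ∈ U, L s = W s := by
    intro s hs
    have hre : 0 < s.re := hs.2
    have hs0 : s ≠ 0 := by
      rintro rfl
      simp at hre
    have h1 := hHz s hs
    rw [hH] at h1
    simp only at h1
    rw [hW, dslope_of_ne _ hs0, slope_def_field, hT0, sub_zero, sub_zero, ← sub_eq_zero.1 h1]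
    field_simp
  have hWd2 : DifferentiableOn ℂ (deriv W) (Metric.ball (0 : ℂ) ρ) := hWd.deriv Metric.isOpen_ball
  refine ⟨fun s => -deriv W s - lapC (f1 lam c r c₀) s + r * (Complex.exp (-s) * dslope JJ 0 s / E1 s), ?_, ?_⟩
  · filter_upwards [Metric.ball_mem_nhds (0 : ℂ) hρ] with s hs
    obtain ⟨b1, -⟩ := hball hs
    have h1 : ContinuousAt (deriv W) s :=
      (hWd2.differentiableAt (Metric.isOpen_ball.mem_nhds hs)).continuousAt
    have h2 : E1 s ≠ 0 := Complex.slitPlane_ne_zero b1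
    exact (h1.neg.sub (f1_diff D r c₀).continuous.continuousAt).add
      (continuousAt_const.mul ((ContinuousAt.mul (by fun_prop) dJ.continuous.continuousAt).div
        d2.continuous.continuousAt h2))
  · filter_upwards [Metric.ball_mem_nhds (0 : ℂ) hρ] with s hs hre
    have hsU : s ∈ U := ⟨hs, hre⟩
    have hs0 : s ≠ 0 := by
      rintro rfl
      simp at hre
    have h1 : deriv L s = deriv W s := by
      refine Filter.EventuallyEq.deriv_eq ?_
      filter_upwards [hUo.mem_nhds hsU] with t ht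
      exact hLW t ht
    have ho := om_ne hre
    rw [h1, hE1, dslope_of_ne _ hs0, dslope_of_ne _ hs0, slope_def_field, slope_def_field, om_zero, JJ_zero,
      sub_zero, sub_zero, sub_zero]
    field_simp

end

end Pool.Agent.NH98.EW.Bdry

namespace Pool.Agent.NH98.EW

open Bdry in
theorem t_bdry (h : S_l2) : S_bdry := by
  intro lam c δ σ G₀ g k p κ η C E r q hne hr hq
  have D := E.D
  have hsq := sq_int E hne hr hq
  refine ⟨?_, fun x => ?_⟩
  · set c₀ : ℝ := q - r * Real.eulerMascheroniConstant with hc₀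
    have h1 : IntegrableOn (fun u : ℝ => 2 * Er lam c r c₀ u ^ 2 + 2 * r ^ 2 * u ^ (-2 : ℝ)) (Ioi 1) :=
      (hsq.integrableOn.const_mul 2).add
        ((integrableOn_Ioi_rpow_of_lt (by norm_num) one_pos).const_mul _)
    refine Integrable.mono' h1 (((ph_meas D r q).div measurable_id).pow_const 2).aestronglyMeasurable ?_
    filter_upwards [ae_restrict_mem measurableSet_Ioi] with u hu
    have hu1 : 1 < u := hu
    have hu0 : 0 < u := by linarith
    rw [Real.norm_of_nonneg (sq_nonneg _)]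
    have e1 : ph lam c r q u / u = Er lam c r c₀ u + r * saw u / u := by
      unfold ph
      rw [← hc₀]
      field_simp
    have e2 : u ^ (-2 : ℝ) = (1 / u) ^ 2 := by
      rw [Real.rpow_neg hu0.le, one_div, inv_pow]
      norm_num
    rw [e1, e2]
    have h2 := saw_le u
    have h3 : (r * saw u / u) ^ 2 ≤ r ^ 2 * (1 / u) ^ 2 := by
      have h4 : saw u ^ 2 ≤ 1 := by
        rw [← sq_abs]
        nlinarith [abs_nonneg (saw u)]
      have h5 : (r * saw u / u) ^ 2 = r ^ 2 * (1 / u) ^ 2 * saw u ^ 2 := by ring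
      rw [h5]
      exact mul_le_of_le_one_right (by positivity) h4
    nlinarith [sq_nonneg (Er lam c r c₀ u - r * saw u / u)]
  · have hint : ∀ x : ℝ, 0 < x → LInt (Er lam c r (q - r * Real.eulerMascheroniConstant)) x :=
      fun x hx => linf_of_sq (er_meas D r _) hsq hx
    have hLc : ∀ s : ℂ, 0 < s.re → ContinuousAt (lapC (Er lam c r (q - r * Real.eulerMascheroniConstant))) s :=
      fun s hs => (lapC_differentiableAt (er_meas D r _) (fun w hw => hint w hw) hs).continuousAt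
    have hb := fun η' (hη' : 0 < η') => h (Er lam c r (q - r * Real.eulerMascheroniConstant))
      (er_meas D r _) hsq x η' hη'
    set F : ℂ → ℂ := fun s => ∫ u in Ioi (1 : ℝ), (ph lam c r q u : ℂ) * Complex.exp (-(s * (u : ℂ))) with hF
    have hFe : ∀ s : ℂ, 0 < s.re → F s = _ := fun s hs => tr D r q hsq hs
    rcases eq_or_ne x 0 with hx | hx
    · rw [if_pos hx]
      obtain ⟨R, hR1, hR2⟩ := case_zero E r (q - r * Real.eulerMascheroniConstant) hr hsq
      have e0 : (x : ℂ) * Complex.I = 0 := by rw [hx]; simp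
      exact loc_of F (lapC (Er lam c r (q - r * Real.eulerMascheroniConstant))) (fun _ => 0) R x 0 hb hLc
        (Eventually.of_forall fun s => continuousAt_const) (by rw [e0]; exact hR1) (by
          rw [e0]
          filter_upwards [hR2] with s hs hre
          rw [hFe s hre, hs hre]
          simp)
    · rw [if_neg hx]
      obtain ⟨R, hR1, hR2⟩ := case_ne E r (q - r * Real.eulerMascheroniConstant) hsq hx
      have hz0 : (x : ℂ) * Complex.I ≠ 0 := mul_ne_zero (by exact_mod_cast hx) Complex.I_ne_zero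
      refine loc_of F (lapC (Er lam c r (q - r * Real.eulerMascheroniConstant))) (fun s => 1 / s) R x _ hb hLc
        ?_ hR1 ?_
      · filter_upwards [isOpen_ne.mem_nhds hz0] with s hs
        exact ContinuousAt.div continuousAt_const continuousAt_id hs
      · filter_upwards [hR2] with s hs hre
        rw [hFe s hre, hs hre]

end Pool.Agent.NH98.EW
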