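import Pool.Agent.NH98.EW.Stm
import Pool.Agent.H153R4.Pl

/-! # Boundary values of the Laplace transform of a square integrable function -/

set_option autoImplicit false

open MeasureTheory Filter Topology Set FourierTransform
open scoped ENNReal

namespace Pool.Agent.NH98.EW.L2

/-- `f(u) e^{-σu}` for `u > 0` -/
noncomputable def fs (f : ℝ → ℝ) (σ : ℝ) (u : ℝ) : ℂ :=
  (Ioi (0 : ℝ)).indicator (fun u => ((f u * Real.exp (-(σ * u)) : ℝ) : ℂ)) u

variable {f : ℝ → ℝ}

theorem fs_meas (hf : Measurable f) (σ : ℝ) : Measurable (fs f σ) := by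
  unfold fs
  refine Measurable.indicator ?_ measurableSet_Ioi
  exact Complex.measurable_ofReal.comp (hf.mul (by fun_prop))

theorem fs_norm {σ : ℝ} (hσ : 0 ≤ σ) (u : ℝ) : ‖fs f σ u‖ ≤ |f u| := by
  unfold fs
  by_cases hu : u ∈ Ioi (0 : ℝ)
  · rw [indicator_of_mem hu, Complex.norm_real, norm_mul, Real.norm_eq_abs,
      Real.norm_of_nonneg (Real.exp_pos _).le]
    have h1 : Real.exp (-(σ * u)) ≤ 1 := by
      rw [Real.exp_le_one_iff]
      have := mul_nonneg hσ (le_of_lt (show (0 : ℝ) < u from hu))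
      linarith
    exact mul_le_of_le_one_right (abs_nonneg _) h1
  · rw [indicator_of_notMem hu, norm_zero]
    exact abs_nonneg _

theorem fs_memLp (hf : Measurable f) (hsq : Integrable fun u => f u ^ 2) {σ : ℝ} (hσ : 0 ≤ σ) :
    MemLp (fs f σ) 2 := by
  rw [memLp_two_iff_integrable_sq_norm (fs_meas hf σ).aestronglyMeasurable]
  refine hsq.mono' ((fs_meas hf σ).norm.pow_const 2).aestronglyMeasurable (Eventually.of_forall fun u => ?_)
  rw [Real.norm_of_nonneg (sq_nonneg _), ← sq_abs (f u)]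
  exact pow_le_pow_left₀ (norm_nonneg _) (fs_norm hσ u) 2

theorem fs_int (hf : Measurable f) (hsq : Integrable fun u => f u ^ 2) {σ : ℝ} (hσ : 0 < σ) :
    Integrable (fs f σ) := by
  unfold fs
  rw [integrable_indicator_iff measurableSet_Ioi]
  have h1 : IntegrableOn (fun u : ℝ => Real.exp (-(2 * σ) * u)) (Ioi 0) :=
    integrableOn_exp_mul_Ioi (by linarith) 0
  have h2 : IntegrableOn (fun u : ℝ => f u ^ 2 + Real.exp (-(2 * σ) * u)) (Ioi 0) :=
    hsq.integrableOn.add h1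
  refine Integrable.mono' h2 (Complex.measurable_ofReal.comp (hf.mul (by fun_prop))).aestronglyMeasurable
    (Eventually.of_forall fun u => ?_)
  have e1 : Real.exp (-(2 * σ) * u) = Real.exp (-(σ * u)) ^ 2 := by
    rw [← Real.exp_nat_mul]
    congr 1
    push_cast
    ring
  rw [Complex.norm_real, norm_mul, Real.norm_eq_abs, Real.norm_of_nonneg (Real.exp_pos _).le, e1, ← sq_abs (f u)]
  nlinarith [sq_nonneg (|f u| - Real.exp (-(σ * u))), abs_nonneg (f u), Real.exp_pos (-(σ * u))]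

theorem fs_fourier (σ t : ℝ) : 𝓕 (fs f σ) t =
    ∫ u in Ioi (0 : ℝ), (f u : ℂ) * Complex.exp (-(((σ : ℂ) + ((2 * Real.pi * t : ℝ) : ℂ) * Complex.I) * (u : ℂ))) := by
  rw [Real.fourier_real_eq_integral_exp_smul, ← integral_indicator measurableSet_Ioi]
  refine integral_congr_ae (Eventually.of_forall fun u => ?_)
  simp only [smul_eq_mul]
  unfold fs
  by_cases hu : u ∈ Ioi (0 : ℝ)
  · have e1 : ((f u * Real.exp (-(σ * u)) : ℝ) : ℂ) = (f u : ℂ) * Complex.exp ((-(σ * u) : ℝ) : ℂ) := by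
      push_cast
      rfl
    rw [indicator_of_mem hu, indicator_of_mem hu, e1, mul_left_comm, ← Complex.exp_add]
    congr 2
    push_cast
    ring
  · rw [indicator_of_notMem hu, indicator_of_notMem hu, mul_zero]

theorem sq_eLp (h : ℝ → ℂ) : eLpNorm h 2 volume ^ 2 = ∫⁻ z : ℝ, ‖h z‖ₑ ^ 2 := by
  rw [eLpNorm_eq_lintegral_rpow_enorm_toReal (by norm_num) (by norm_num)]
  simp only [ENNReal.toReal_ofNat, ENNReal.rpow_ofNat, one_div]
  rw [← ENNReal.rpow_natCast, ← ENNReal.rpow_mul]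
  norm_num

theorem fs_tend (hf : Measurable f) (hsq : Integrable fun u => f u ^ 2) :
    Tendsto (fun σ : ℝ => eLpNorm (fun u => fs f σ u - fs f 0 u) 2 volume) (𝓝[>] 0) (𝓝 0) := by
  have h1 : Tendsto (fun σ : ℝ => ∫⁻ u : ℝ, ‖fs f σ u - fs f 0 u‖ₑ ^ 2) (𝓝[>] 0)
      (𝓝 (∫⁻ _ : ℝ, 0)) := by
    refine tendsto_lintegral_filter_of_dominated_convergence (fun u => ENNReal.ofReal (4 * f u ^ 2))
      (Eventually.of_forall fun σ => ((fs_meas hf σ).sub (fs_meas hf 0)).enorm.pow_const 2) ?_ ?_ ?_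
    · filter_upwards [self_mem_nhdsWithin] with σ hσ
      refine Eventually.of_forall fun u => ?_
      have hσ' : (0 : ℝ) < σ := hσ
      rw [← ofReal_norm, ← ENNReal.ofReal_pow (norm_nonneg _)]
      refine ENNReal.ofReal_le_ofReal ?_
      have h2 := norm_sub_le (fs f σ u) (fs f 0 u)
      have h3 := fs_norm (f := f) hσ'.le u
      have h4 := fs_norm (f := f) (le_refl (0 : ℝ)) u
      calc ‖fs f σ u - fs f 0 u‖ ^ 2 ≤ (2 * |f u|) ^ 2 :=
            pow_le_pow_left₀ (norm_nonneg _) (by linarith) 2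
        _ = 4 * f u ^ 2 := by rw [mul_pow, sq_abs]; norm_num
    · have h2 : Integrable fun u => 4 * f u ^ 2 := hsq.const_mul 4
      exact ((hasFiniteIntegral_iff_ofReal (Eventually.of_forall fun u => by positivity)).1 h2.2).ne
    · refine Eventually.of_forall fun u => ?_
      have h2 : Tendsto (fun σ : ℝ => fs f σ u) (𝓝[>] 0) (𝓝 (fs f 0 u)) := by
        have h3 : Continuous fun σ : ℝ => fs f σ u := by
          unfold fs
          by_cases hu : u ∈ Ioi (0 : ℝ)
          · simp only [indicator_of_mem hu]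
            fun_prop
          · simp only [indicator_of_notMem hu]
            fun_prop
        exact (h3.tendsto 0).mono_left nhdsWithin_le_nhds
      have h4 := (h2.sub_const (fs f 0 u)).enorm
      rw [sub_self, enorm_zero] at h4
      have h5 := ((ENNReal.continuous_pow 2).tendsto 0).comp h4
      rw [zero_pow two_ne_zero] at h5
      exact h5
  rw [lintegral_zero] at h1
  have h2 : Tendsto (fun σ : ℝ => (∫⁻ u : ℝ, ‖fs f σ u - fs f 0 u‖ₑ ^ 2) ^ (1 / 2 : ℝ)) (𝓝[>] 0)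
      (𝓝 (0 ^ (1 / 2 : ℝ))) := ((ENNReal.continuous_rpow_const).tendsto 0).comp h1
  rw [ENNReal.zero_rpow_of_pos (by norm_num)] at h2
  refine h2.congr fun σ => ?_
  rw [← sq_eLp, ← ENNReal.rpow_natCast, ← ENNReal.rpow_mul]
  norm_num

theorem main : S_l2 := by
  intro f hf hsq x η hη
  have hπ := Real.pi_pos
  have m0 : MemLp (fs f 0) 2 := fs_memLp hf hsq le_rfl
  set B : Lp ℂ 2 (volume : Measure ℝ) := 𝓕 (m0.toLp (fs f 0)) with hB
  -- the difference in `L²`
  have hdiff : ∀ σ : ℝ, 0 < σ → eLpNorm (fun t => 𝓕 (fs f σ) t - (B : ℝ → ℂ) t) 2 volume =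
      eLpNorm (fun u => fs f σ u - fs f 0 u) 2 volume := by
    intro σ hσ
    have m1 : MemLp (fs f σ) 2 := fs_memLp hf hsq hσ.le
    have i1 : Integrable (fs f σ) := fs_int hf hsq hσ
    have h1 := Pool.Agent.H153R4.fourier_ae_eq (fs f σ) i1 m1
    have h2 : ‖(𝓕 (m1.toLp (fs f σ)) : Lp ℂ 2 (volume : Measure ℝ)) - B‖ = ‖m1.toLp (fs f σ) - m0.toLp (fs f 0)‖ := by
      have h3 : (𝓕 (m1.toLp (fs f σ)) : Lp ℂ 2 (volume : Measure ℝ)) - B =
          Lp.fourierTransformₗᵢ ℝ ℂ (m1.toLp (fs f σ) - m0.toLp (fs f 0)) := by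
        rw [map_sub]
        rfl
      rw [h3]
      exact (Lp.fourierTransformₗᵢ ℝ ℂ).norm_map _
    rw [Lp.norm_def, Lp.norm_def] at h2
    have h3 := (ENNReal.toReal_eq_toReal_iff' (Lp.memLp _).eLpNorm_lt_top.ne
      (Lp.memLp _).eLpNorm_lt_top.ne).1 h2
    have h4 : eLpNorm (((𝓕 (m1.toLp (fs f σ)) : Lp ℂ 2 (volume : Measure ℝ)) - B : Lp ℂ 2 (volume : Measure ℝ)) : ℝ → ℂ) 2 volume =
        eLpNorm (fun t => 𝓕 (fs f σ) t - (B : ℝ → ℂ) t) 2 volume := by
      refine eLpNorm_congr_ae ?_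
      filter_upwards [Lp.coeFn_sub (𝓕 (m1.toLp (fs f σ)) : Lp ℂ 2 (volume : Measure ℝ)) B, h1] with t k1 k2
      rw [k1, Pi.sub_apply, k2]
    have h5 : eLpNorm ((m1.toLp (fs f σ) - m0.toLp (fs f 0) : Lp ℂ 2 (volume : Measure ℝ)) : ℝ → ℂ) 2 volume =
        eLpNorm (fun u => fs f σ u - fs f 0 u) 2 volume := by
      refine eLpNorm_congr_ae ?_
      filter_upwards [Lp.coeFn_sub (m1.toLp (fs f σ)) (m0.toLp (fs f 0)), m1.coeFn_toLp, m0.coeFn_toLp]
        with t k1 k2 k3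
      rw [k1, Pi.sub_apply, k2, k3]
    rw [← h4, ← h5]
    exact h3
  -- local integrability
  set y0 : ℝ := -η / (2 * Real.pi) + x / (2 * Real.pi) with hy0
  set y1 : ℝ := η / (2 * Real.pi) + x / (2 * Real.pi) with hy1
  have hy : y0 ≤ y1 := by
    rw [hy0, hy1]
    have : -η / (2 * Real.pi) ≤ η / (2 * Real.pi) := div_le_div_of_nonneg_right (by linarith) (by positivity)
    linarith
  have hloc : ∀ g : ℝ → ℂ, MemLp g 2 → IntegrableOn g (Ioc y0 y1) := by
    intro g hg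
    have h1 := (hg.restrict (Ioc y0 y1))
    exact h1.integrable (by norm_num)
  have hcomp : ∀ g : ℝ → ℂ, MemLp g 2 →
      IntegrableOn (fun ξ : ℝ => g (ξ / (2 * Real.pi) + x / (2 * Real.pi))) (Ioo (-η) η) := by
    intro g hg
    have h1 : IntervalIntegrable g volume y0 y1 := (intervalIntegrable_iff_integrableOn_Ioc_of_le hy).2 (hloc g hg)
    have h2 := (h1.comp_add_right (x / (2 * Real.pi)))
    rw [hy0, hy1, add_sub_cancel_right, add_sub_cancel_right] at h2
    have h3 := h2.comp_mul_right (c := (2 * Real.pi)⁻¹)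
    have e : ∀ r : ℝ, r / (2 * Real.pi) / (2 * Real.pi)⁻¹ = r := by
      intro r; field_simp
    rw [e, e] at h3
    have h4 := (intervalIntegrable_iff_integrableOn_Ioo_of_le (by linarith : -η ≤ η)).1 h3
    refine h4.congr (Eventually.of_forall fun ξ => ?_)
    simp only [div_eq_mul_inv]
  have hBm : MemLp (B : ℝ → ℂ) 2 := Lp.memLp B
  refine ⟨fun ξ => (B : ℝ → ℂ) (ξ / (2 * Real.pi) + x / (2 * Real.pi)), hcomp _ hBm, ?_⟩
  -- the bound
  have hbd : ∀ σ : ℝ, 0 < σ → (∫ ξ in Ioo (-η) η,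
      ‖(∫ u in Ioi (0 : ℝ), (f u : ℂ) * Complex.exp (-(((σ : ℂ) + ((x + ξ : ℝ) : ℂ) * Complex.I) * (u : ℂ)))) -
      (B : ℝ → ℂ) (ξ / (2 * Real.pi) + x / (2 * Real.pi))‖) =
      (2 * Real.pi) * (eLpNorm (fun t => 𝓕 (fs f σ) t - (B : ℝ → ℂ) t) 1 (volume.restrict (Ioc y0 y1))).toReal := by
    intro σ hσ
    have e1 : ∀ ξ : ℝ, ‖(∫ u in Ioi (0 : ℝ), (f u : ℂ) *
        Complex.exp (-(((σ : ℂ) + ((x + ξ : ℝ) : ℂ) * Complex.I) * (u : ℂ)))) -
        (B : ℝ → ℂ) (ξ / (2 * Real.pi) + x / (2 * Real.pi))‖ =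
        (fun t => ‖𝓕 (fs f σ) t - (B : ℝ → ℂ) t‖) (ξ / (2 * Real.pi) + x / (2 * Real.pi)) := by
      intro ξ
      simp only
      rw [fs_fourier]
      have e2 : 2 * Real.pi * (ξ / (2 * Real.pi) + x / (2 * Real.pi)) = x + ξ := by
        field_simp
        ring
      rw [e2]
    simp_rw [e1]
    rw [← integral_Ioc_eq_integral_Ioo, ← intervalIntegral.integral_of_le (by linarith : -η ≤ η),
      intervalIntegral.integral_comp_div_add (fun t => ‖𝓕 (fs f σ) t - (B : ℝ → ℂ) t‖)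
        (by positivity : (2 * Real.pi) ≠ 0), smul_eq_mul, intervalIntegral.integral_of_le hy]
    congr 1
    rw [eLpNorm_one_eq_lintegral_enorm, integral_norm_eq_lintegral_enorm]
    have m1 : MemLp (fs f σ) 2 := fs_memLp hf hsq hσ.le
    have i1 : Integrable (fs f σ) := fs_int hf hsq hσ
    have h1 := Pool.Agent.H153R4.fourier_ae_eq (fs f σ) i1 m1
    have h2 : AEStronglyMeasurable (𝓕 (fs f σ)) volume :=
      ((Lp.memLp _).aestronglyMeasurable).congr h1
    exact (h2.sub hBm.aestronglyMeasurable).restrict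
  have hfin : Tendsto (fun σ : ℝ => (2 * Real.pi) *
      (eLpNorm (fun t => 𝓕 (fs f σ) t - (B : ℝ → ℂ) t) 1 (volume.restrict (Ioc y0 y1))).toReal) (𝓝[>] 0) (𝓝 0) := by
    have h1 : Tendsto (fun σ : ℝ => eLpNorm (fun u => fs f σ u - fs f 0 u) 2 volume *
        (volume.restrict (Ioc y0 y1)) univ ^ (1 / (1 : ℝ≥0∞).toReal - 1 / (2 : ℝ≥0∞).toReal)) (𝓝[>] 0) (𝓝 0) := by
      have h2 := ENNReal.Tendsto.mul_const (b := (volume.restrict (Ioc y0 y1)) univ ^
        (1 / (1 : ℝ≥0∞).toReal - 1 / (2 : ℝ≥0∞).toReal)) (fs_tend hf hsq) (Or.inr (by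
          refine ENNReal.rpow_ne_top_of_nonneg (by norm_num) ?_
          rw [Measure.restrict_apply_univ, Real.volume_Ioc]
          exact ENNReal.ofReal_ne_top))
      rwa [zero_mul] at h2
    have h3 : Tendsto (fun σ : ℝ => eLpNorm (fun t => 𝓕 (fs f σ) t - (B : ℝ → ℂ) t) 1
        (volume.restrict (Ioc y0 y1))) (𝓝[>] 0) (𝓝 0) := by
      refine tendsto_of_tendsto_of_tendsto_of_le_of_le' tendsto_const_nhds h1
        (Eventually.of_forall fun _ => zero_le) ?_
      filter_upwards [self_mem_nhdsWithin] with σ hσ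
      have hσ' : (0 : ℝ) < σ := hσ
      have m1 : MemLp (fs f σ) 2 := fs_memLp hf hsq hσ'.le
      have i1 : Integrable (fs f σ) := fs_int hf hsq hσ'
      have k1 := Pool.Agent.H153R4.fourier_ae_eq (fs f σ) i1 m1
      have k2 : AEStronglyMeasurable (𝓕 (fs f σ)) volume :=
        ((Lp.memLp _).aestronglyMeasurable).congr k1
      have k3 := eLpNorm_le_eLpNorm_mul_rpow_measure_univ (p := 1) (q := 2)
        (μ := volume.restrict (Ioc y0 y1)) (by norm_num) (k2.sub hBm.aestronglyMeasurable).restrict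
      refine k3.trans ?_
      rw [← hdiff σ hσ']
      exact mul_le_mul_left (eLpNorm_mono_measure _ Measure.restrict_le_self) _
    have h4 := (ENNReal.tendsto_toReal ENNReal.zero_ne_top).comp h3
    have h5 := h4.const_mul (2 * Real.pi)
    simpa using h5
  refine hfin.congr' ?_
  filter_upwards [self_mem_nhdsWithin] with σ hσ
  exact (hbd σ hσ).symm

end Pool.Agent.NH98.EW.L2

namespace Pool.Agent.NH98.EW

theorem t_l2 : S_l2 := L2.main

end Pool.Agent.NH98.EW
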