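import Pool.Agent.NH98.EW.Stm
import Pool.Agent.NH98.RS2.Taub

/-! # EW-1: a band limited kernel and the lemma of Riemann and Lebesgue (helper40) -/

set_option autoImplicit false

namespace Pool.Agent.NH98.EW.RL

open MeasureTheory Filter Topology Set
open Pool.Agent.Helper923.PNT (K K_nonneg K_le_one K_le K_measurable K_integrable
  K_integral_pos fejer_complex)
open Pool.Agent.NH98.RS2.TB (q q_nonneg q_le q_bound q_integral_pos ker ker_eq ker_nonneg
  ker_measurable ker_integrable ker_integral cauchy_integrable wt wt_continuous wt_norm nu two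
  lin_exp)

noncomputable section

lemma K_eq (v : ℝ) : K v = Real.sinc (v / 2) ^ 2 := by
  unfold K
  by_cases hv : v = 0
  · simp [hv]
  · rw [if_neg hv, Real.sinc_of_ne_zero (by simpa using hv)]
    have h1 : Real.cos v = 1 - 2 * Real.sin (v / 2) ^ 2 := by
      have h2 := Real.cos_two_mul (v / 2)
      have h3 := Real.sin_sq_add_cos_sq (v / 2)
      have h4 : 2 * (v / 2) = v := by ring
      rw [h4] at h2
      linarith
    rw [h1]
    field_simp
    ring

lemma K_continuous : Continuous K := by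
  have h : K = fun v => Real.sinc (v / 2) ^ 2 := funext K_eq
  rw [h]
  exact (Real.continuous_sinc.comp (continuous_id.div_const 2)).pow 2

lemma ker_continuous (L u : ℝ) : Continuous (ker L u) := by
  have := K_continuous
  unfold Pool.Agent.NH98.RS2.TB.ker
  fun_prop

lemma ker_shift (L U u : ℝ) : ker L 0 (u - U) = ker L U u := by
  unfold Pool.Agent.NH98.RS2.TB.ker
  congr 3
  ring

variable {ψ : ℝ → ℂ}

lemma mul_le_sq_add_sq (a b : ℝ) : a * b ≤ a ^ 2 + b ^ 2 := by
  nlinarith [sq_nonneg (a - b), sq_nonneg a, sq_nonneg b]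

lemma psi_exp_int (hm : Measurable ψ) (hψ : IntegrableOn (fun u : ℝ => (‖ψ u‖ / u) ^ 2) (Ioi 1))
    {σ : ℝ} (hσ : 0 < σ) : IntegrableOn (fun u => ‖ψ u‖ * Real.exp (-σ * u)) (Ioi 1) := by
  have hexp : IntegrableOn (fun t => (1 + 2 / σ) ^ 2 * Real.exp (-σ * t)) (Ioi 1) :=
    (integrableOn_exp_mul_Ioi (by linarith) 1).const_mul _
  refine Integrable.mono' (hψ.add hexp) (by fun_prop) ?_
  refine (ae_restrict_mem measurableSet_Ioi).mono fun u hu => ?_
  have hu' : (1 : ℝ) < u := hu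
  have h1 := lin_exp hσ (by linarith : (0 : ℝ) ≤ u)
  have h2 := Real.exp_pos (-σ * u)
  rw [Real.norm_of_nonneg (by positivity), Pi.add_apply]
  have h3 : u * Real.exp (-σ * u) ≤ (1 + 2 / σ) * Real.exp (-(σ / 2) * u) := by
    nlinarith
  have h4 : (u * Real.exp (-σ * u)) ^ 2 ≤ (1 + 2 / σ) ^ 2 * Real.exp (-σ * u) := by
    have h5 := pow_le_pow_left₀ (by positivity) h3 2
    rw [mul_pow (1 + 2 / σ)] at h5
    have h6 : Real.exp (-(σ / 2) * u) ^ 2 = Real.exp (-σ * u) := by
      rw [← Real.exp_nat_mul]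
      congr 1
      push_cast
      ring
    rwa [h6] at h5
  have h7 : ‖ψ u‖ * Real.exp (-σ * u) = (‖ψ u‖ / u) * (u * Real.exp (-σ * u)) := by
    field_simp
  rw [h7]
  exact (mul_le_sq_add_sq _ _).trans (add_le_add le_rfl h4)

lemma psi_ker_int (hm : Measurable ψ) (hψ : IntegrableOn (fun u : ℝ => (‖ψ u‖ / u) ^ 2) (Ioi 1))
    (L U : ℝ) (hL : 0 < L) : IntegrableOn (fun u => ‖ψ u‖ * ker L U u) (Ioi 1) := by
  set A : ℝ := |U| + 1 / L with hA
  have hA0 : 0 ≤ A := by positivity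
  have hc : IntegrableOn (fun t => (50 * A * L ^ 2) ^ 2 * (1 + (L * (U - t)) ^ 2)⁻¹) (Ioi 1) :=
    ((cauchy_integrable L U hL).const_mul _).integrableOn
  have hkm := ker_measurable L U
  refine Integrable.mono' (hψ.add hc) (by fun_prop) ?_
  refine (ae_restrict_mem measurableSet_Ioi).mono fun u hu => ?_
  have hu' : (1 : ℝ) < u := hu
  have hk := ker_nonneg L U u
  rw [Real.norm_of_nonneg (by positivity), Pi.add_apply]
  set v : ℝ := L * (U - u) with hv
  have hqv := q_nonneg v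
  have h1 : u ≤ A * (1 + |v|) := by
    have h2 : u ≤ |U| + |U - u| := by
      have h5 := le_abs_self U
      have h6 := neg_abs_le (U - u)
      linarith
    have h3 : |U - u| = 1 / L * |v| := by
      rw [hv, abs_mul, abs_of_pos hL]
      field_simp
    have h4 : 0 ≤ |U| * |v| := by positivity
    have h5 : 0 ≤ 1 / L := by positivity
    calc u ≤ |U| + 1 / L * |v| := by rw [← h3]; exact h2
      _ ≤ |U| + 1 / L + (|U| * |v| + 1 / L * |v|) := by linarith
      _ = A * (1 + |v|) := by rw [hA]; ring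
  have h2 : u * ker L U u ≤ 50 * A * L ^ 2 * (1 + v ^ 2)⁻¹ := by
    rw [ker_eq, ← hv]
    have h3 := q_bound v
    calc u * (L ^ 2 * q v) ≤ A * (1 + |v|) * (L ^ 2 * q v) :=
          mul_le_mul_of_nonneg_right h1 (by positivity)
      _ = A * L ^ 2 * ((1 + |v|) * q v) := by ring
      _ ≤ A * L ^ 2 * (50 * (1 + v ^ 2)⁻¹) := mul_le_mul_of_nonneg_left h3 (by positivity)
      _ = _ := by ring
  have h4 : (u * ker L U u) ^ 2 ≤ (50 * A * L ^ 2) ^ 2 * (1 + v ^ 2)⁻¹ := by
    have h5 := pow_le_pow_left₀ (by positivity) h2 2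
    rw [mul_pow _ ((1 + v ^ 2)⁻¹)] at h5
    refine h5.trans (mul_le_mul_of_nonneg_left ?_ (by positivity))
    have h6 : (1 + v ^ 2)⁻¹ ≤ 1 := inv_le_one_of_one_le₀ (by nlinarith [sq_nonneg v])
    have h7 : 0 ≤ (1 + v ^ 2)⁻¹ := by positivity
    nlinarith
  have h7 : ‖ψ u‖ * ker L U u = (‖ψ u‖ / u) * (u * ker L U u) := by
    field_simp
  rw [h7]
  exact (mul_le_sq_add_sq _ _).trans (add_le_add le_rfl h4)

/-- the Laplace transform -/
def Ps (ψ : ℝ → ℂ) (σ ξ : ℝ) : ℂ :=
  ∫ u in Ioi (1 : ℝ), ψ u * Complex.exp (-(((σ : ℂ) + (ξ : ℂ) * Complex.I) * (u : ℂ)))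

lemma Ps_measurable (hm : Measurable ψ) (σ : ℝ) : StronglyMeasurable (Ps ψ σ) := by
  unfold Ps
  have h : StronglyMeasurable (Function.uncurry fun (ξ u : ℝ) =>
      ψ u * Complex.exp (-(((σ : ℂ) + (ξ : ℂ) * Complex.I) * (u : ℂ)))) := by
    apply Measurable.stronglyMeasurable
    have h4 : (Function.uncurry fun (ξ u : ℝ) =>
      ψ u * Complex.exp (-(((σ : ℂ) + (ξ : ℂ) * Complex.I) * (u : ℂ)))) = fun x : ℝ × ℝ =>
      ψ x.2 * Complex.exp (-(((σ : ℂ) + (x.1 : ℂ) * Complex.I) * (x.2 : ℂ))) := by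
      ext x; rfl
    rw [h4]
    have h5 : Measurable (fun x : ℝ × ℝ => ψ x.2) := hm.comp measurable_snd
    fun_prop
  exact h.integral_prod_right

lemma Ps_norm (ψ : ℝ → ℂ) (σ ξ : ℝ) :
    ‖Ps ψ σ ξ‖ ≤ ∫ u in Ioi (1 : ℝ), ‖ψ u‖ * Real.exp (-σ * u) := by
  unfold Ps
  refine (norm_integral_le_integral_norm _).trans (le_of_eq ?_)
  refine integral_congr_ae (Eventually.of_forall fun u => ?_)
  simp only [norm_mul, Complex.norm_exp]
  congr 2
  simp

/-- the first step: Fubini -/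
lemma fub2 (hm : Measurable ψ) (hψ : IntegrableOn (fun u : ℝ => (‖ψ u‖ / u) ^ 2) (Ioi 1))
    (L σ U : ℝ) (hL : 0 < L) (hσ : 0 < σ) :
    ∫ p : ℝ × ℝ, wt L p.1 * wt L p.2 * Complex.exp (Complex.I * ((U * (p.1 + p.2) : ℝ) : ℂ)) *
      Ps ψ σ (p.1 + p.2) ∂((nu L).prod (nu L))
    = ∫ t in Ioi (1 : ℝ), ψ t * ((Real.exp (-σ * t) * ker L U t : ℝ) : ℂ) := by
  set g : ℝ × ℝ → ℝ → ℂ := fun p t => wt L p.1 * wt L p.2 *
    Complex.exp (Complex.I * ((U * (p.1 + p.2) : ℝ) : ℂ)) * (ψ t *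
        Complex.exp (-(((σ : ℂ) + ((p.1 + p.2 : ℝ) : ℂ) * Complex.I) * (t : ℂ)))) with hg
  have hgm : Measurable (Function.uncurry g) := by
    have h1 : Measurable (fun x : (ℝ × ℝ) × ℝ => ψ x.2) := hm.comp measurable_snd
    have h2 : Measurable (fun x : (ℝ × ℝ) × ℝ => wt L x.1.1) :=
      (wt_continuous L).measurable.comp (measurable_fst.comp measurable_fst)
    have h3 : Measurable (fun x : (ℝ × ℝ) × ℝ => wt L x.1.2) :=
      (wt_continuous L).measurable.comp (measurable_snd.comp measurable_fst)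
    have h4 : Function.uncurry g = fun x : (ℝ × ℝ) × ℝ => wt L x.1.1 * wt L x.1.2 *
      Complex.exp (Complex.I * ((U * (x.1.1 + x.1.2) : ℝ) : ℂ)) * (ψ x.2 *
        Complex.exp (-(((σ : ℂ) + ((x.1.1 + x.1.2 : ℝ) : ℂ) * Complex.I) * (x.2 : ℂ)))) := by
      ext x; rfl
    rw [h4]
    fun_prop
  have hnorm : ∀ p ∈ Ioc (-L) L ×ˢ Ioc (-L) L, ∀ t ∈ Ioi (1 : ℝ),
      ‖g p t‖ ≤ ‖ψ t‖ * Real.exp (-σ * t) := by
    intro p hp t ht
    simp only [hg, norm_mul, Complex.norm_exp]
    have e1 : (Complex.I * ((U * (p.1 + p.2) : ℝ) : ℂ)).re = 0 := by simp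
    have e2 : (-(((σ : ℂ) + ((p.1 + p.2 : ℝ) : ℂ) * Complex.I) * (t : ℂ))).re = -σ * t := by
      simp
    rw [e1, e2, Real.exp_zero, mul_one]
    have h1 := wt_norm hL hp.1
    have h2 := wt_norm hL hp.2
    have h4 : ‖wt L p.1‖ * ‖wt L p.2‖ ≤ 1 * 1 :=
      mul_le_mul h1 h2 (norm_nonneg _) zero_le_one
    have h6 := Real.exp_pos (-σ * t)
    calc ‖wt L p.1‖ * ‖wt L p.2‖ * (‖ψ t‖ * Real.exp (-σ * t))
        ≤ (1 * 1) * (‖ψ t‖ * Real.exp (-σ * t)) :=
          mul_le_mul_of_nonneg_right h4 (by positivity)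
      _ = _ := by ring
  have hint : Integrable (Function.uncurry g)
      (((nu L).prod (nu L)).prod (volume.restrict (Ioi (1 : ℝ)))) := by
    have hb : Integrable (fun x : (ℝ × ℝ) × ℝ =>
        (1 : ℝ) * (‖ψ x.2‖ * Real.exp (-σ * x.2)))
        (((nu L).prod (nu L)).prod (volume.restrict (Ioi (1 : ℝ)))) := by
      apply Integrable.mul_prod (f := fun _ : ℝ × ℝ => (1 : ℝ))
        (g := fun t => ‖ψ t‖ * Real.exp (-σ * t))
      · exact integrable_const _
      · exact psi_exp_int hm hψ hσ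
    refine Integrable.mono' hb hgm.aestronglyMeasurable ?_
    rw [nu, Measure.prod_restrict, Measure.prod_restrict]
    refine (ae_restrict_mem ((measurableSet_Ioc.prod measurableSet_Ioc).prod
      measurableSet_Ioi)).mono ?_
    intro x hx
    rw [one_mul]
    exact hnorm x.1 hx.1 x.2 hx.2
  have step1 : ∫ p : ℝ × ℝ, wt L p.1 * wt L p.2 *
      Complex.exp (Complex.I * ((U * (p.1 + p.2) : ℝ) : ℂ)) *
      Ps ψ σ (p.1 + p.2) ∂((nu L).prod (nu L))
      = ∫ p : ℝ × ℝ, (∫ t in Ioi (1 : ℝ), g p t) ∂((nu L).prod (nu L)) := by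
    refine integral_congr_ae (Eventually.of_forall fun p => ?_)
    simp only [hg, Ps]
    rw [integral_const_mul]
  rw [step1, integral_integral_swap hint]
  refine integral_congr_ae (Eventually.of_forall fun t => ?_)
  simp only [hg]
  have htwo := two L (U - t) hL
  have h9 : ∀ p : ℝ × ℝ, wt L p.1 * wt L p.2 *
      Complex.exp (Complex.I * ((U * (p.1 + p.2) : ℝ) : ℂ)) *
      (ψ t * Complex.exp (-(((σ : ℂ) + ((p.1 + p.2 : ℝ) : ℂ) * Complex.I) * (t : ℂ))))
      = (ψ t * ((Real.exp (-σ * t) : ℝ) : ℂ)) *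
        (wt L p.1 * wt L p.2 *
          Complex.exp (Complex.I * (((U - t) * (p.1 + p.2) : ℝ) : ℂ))) := by
    intro p
    have e : Complex.exp (Complex.I * ((U * (p.1 + p.2) : ℝ) : ℂ)) *
        Complex.exp (-(((σ : ℂ) + ((p.1 + p.2 : ℝ) : ℂ) * Complex.I) * (t : ℂ)))
      = ((Real.exp (-σ * t) : ℝ) : ℂ) *
        Complex.exp (Complex.I * (((U - t) * (p.1 + p.2) : ℝ) : ℂ)) := by
      rw [← Complex.exp_add, Complex.ofReal_exp, ← Complex.exp_add]
      congr 1
      push_cast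
      ring
    linear_combination (wt L p.1 * wt L p.2 * ψ t) * e
  simp_rw [h9]
  rw [integral_const_mul, htwo]
  unfold Pool.Agent.NH98.RS2.TB.ker
  push_cast
  ring

/-- functions of the sum -/
lemma sum_int {f : ℝ → ℂ} (hf : Integrable f) (hm : StronglyMeasurable f) (L : ℝ) (hL : 0 < L) :
    Integrable (fun p : ℝ × ℝ => f (p.1 + p.2)) ((nu L).prod (nu L)) ∧
    ∫ p : ℝ × ℝ, ‖f (p.1 + p.2)‖ ∂((nu L).prod (nu L)) ≤ 2 * L * ∫ x, ‖f x‖ := by
  have hsm : StronglyMeasurable (fun p : ℝ × ℝ => f (p.1 + p.2)) :=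
    hm.comp_measurable (by fun_prop)
  have hin : ∀ y : ℝ, Integrable (fun x => f (x + y)) (nu L) := fun y =>
    (hf.comp_add_right y).integrableOn
  have hle : ∀ y : ℝ, ∫ x, ‖f (x + y)‖ ∂(nu L) ≤ ∫ x, ‖f x‖ := by
    intro y
    calc ∫ x, ‖f (x + y)‖ ∂(nu L) ≤ ∫ x, ‖f (x + y)‖ :=
          setIntegral_le_integral (hf.comp_add_right y).norm
            (Eventually.of_forall fun x => norm_nonneg _)
      _ = ∫ x, ‖f x‖ := integral_add_right_eq_self (fun x => ‖f x‖) y
  have h0 : ∀ y : ℝ, 0 ≤ ∫ x, ‖f (x + y)‖ ∂(nu L) := fun y =>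
    integral_nonneg fun x => norm_nonneg _
  have hmm : AEStronglyMeasurable (fun y : ℝ => ∫ x, ‖f (x + y)‖ ∂(nu L)) (nu L) := by
    have h1 : StronglyMeasurable (Function.uncurry fun (y x : ℝ) => ‖f (x + y)‖) :=
      (hm.comp_measurable (by fun_prop : Measurable fun p : ℝ × ℝ => p.2 + p.1)).norm
    exact h1.integral_prod_right.aestronglyMeasurable
  have hI : Integrable (fun y : ℝ => ∫ x, ‖f (x + y)‖ ∂(nu L)) (nu L) := by
    refine Integrable.mono' (integrable_const (∫ x, ‖f x‖)) hmm (Eventually.of_forall fun y => ?_)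
    rw [Real.norm_of_nonneg (h0 y)]
    exact hle y
  have hA : Integrable (fun p : ℝ × ℝ => f (p.1 + p.2)) ((nu L).prod (nu L)) := by
    rw [integrable_prod_iff' hsm.aestronglyMeasurable]
    exact ⟨Eventually.of_forall fun y => hin y, hI⟩
  refine ⟨hA, ?_⟩
  rw [integral_prod_symm _ hA.norm]
  calc ∫ y, ∫ x, ‖f (x + y)‖ ∂(nu L) ∂(nu L) ≤ ∫ y, (∫ x, ‖f x‖) ∂(nu L) :=
        integral_mono hI (integrable_const _) hle
    _ = 2 * L * ∫ x, ‖f x‖ := by
      rw [integral_const, smul_eq_mul, nu, measureReal_restrict_apply_univ,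
        Real.volume_real_Ioc_of_le (by linarith)]
      ring

lemma exp_norm (L U : ℝ) (hL : 0 < L) {p : ℝ × ℝ} (hp : p ∈ Ioc (-L) L ×ˢ Ioc (-L) L) (z : ℂ) :
    ‖wt L p.1 * wt L p.2 * Complex.exp (Complex.I * ((U * (p.1 + p.2) : ℝ) : ℂ)) * z‖ ≤ ‖z‖ := by
  rw [norm_mul, norm_mul, norm_mul, Complex.norm_exp]
  have e1 : (Complex.I * ((U * (p.1 + p.2) : ℝ) : ℂ)).re = 0 := by simp
  rw [e1, Real.exp_zero, mul_one]
  have h1 := wt_norm hL hp.1
  have h2 := wt_norm hL hp.2
  have h4 : ‖wt L p.1‖ * ‖wt L p.2‖ ≤ 1 * 1 :=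
    mul_le_mul h1 h2 (norm_nonneg _) zero_le_one
  calc ‖wt L p.1‖ * ‖wt L p.2‖ * ‖z‖ ≤ (1 * 1) * ‖z‖ :=
        mul_le_mul_of_nonneg_right h4 (norm_nonneg _)
    _ = ‖z‖ := by ring

lemma weight_int {f : ℝ → ℂ} (hf : Integrable f) (hm : StronglyMeasurable f) (L : ℝ) (hL : 0 < L)
    (U : ℝ) : Integrable (fun p : ℝ × ℝ => wt L p.1 * wt L p.2 *
      Complex.exp (Complex.I * ((U * (p.1 + p.2) : ℝ) : ℂ)) * f (p.1 + p.2))
      ((nu L).prod (nu L)) := by
  have h1 := (sum_int hf hm L hL).1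
  have hw := wt_continuous L
  refine Integrable.mono' h1.norm ?_ ?_
  · refine AEStronglyMeasurable.mul ?_ h1.aestronglyMeasurable
    exact Continuous.aestronglyMeasurable (by fun_prop)
  · rw [nu, Measure.prod_restrict]
    refine (ae_restrict_mem (measurableSet_Ioc.prod measurableSet_Ioc)).mono fun p hp => ?_
    exact exp_norm L U hL hp _

/-- the limit `σ → 0+` -/
lemma lim2 (hm : Measurable ψ) (hψ : IntegrableOn (fun u : ℝ => (‖ψ u‖ / u) ^ 2) (Ioi 1))
    {η : ℝ} (hη : 0 < η) {b : ℝ → ℂ} (hb : Integrable b) (hbm : StronglyMeasurable b)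
    (hlim : Tendsto (fun σ : ℝ => ∫ ξ in Ioo (-η) η, ‖Ps ψ σ ξ - b ξ‖) (𝓝[>] 0) (𝓝 0))
    (U : ℝ) :
    ∫ p : ℝ × ℝ, wt (η / 4) p.1 * wt (η / 4) p.2 *
      Complex.exp (Complex.I * ((U * (p.1 + p.2) : ℝ) : ℂ)) * b (p.1 + p.2)
      ∂((nu (η / 4)).prod (nu (η / 4)))
    = ∫ t in Ioi (1 : ℝ), ψ t * ((ker (η / 4) U t : ℝ) : ℂ) := by
  set L := η / 4 with hLd
  have hL : 0 < L := by positivity
  have hmem : ∀ p ∈ Ioc (-L) L ×ˢ Ioc (-L) L, p.1 + p.2 ∈ Ioo (-η) η := by
    intro p hp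
    have h1 := hp.1
    have h2 := hp.2
    simp only [mem_Ioc] at h1 h2
    constructor <;> linarith
  -- the functions of the frequency, cut off
  set D : ℝ → ℝ → ℂ := fun σ => (Ioo (-η) η).indicator (fun ξ => Ps ψ σ ξ - b ξ) with hD
  have hDm : ∀ σ, StronglyMeasurable (D σ) := fun σ =>
    ((Ps_measurable hm σ).sub hbm).indicator measurableSet_Ioo
  have hDi : ∀ σ, Integrable (D σ) := by
    intro σ
    have h1 : IntegrableOn (fun ξ => Ps ψ σ ξ - b ξ) (Ioo (-η) η) := by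
      refine Integrable.sub ?_ hb.integrableOn
      refine Integrable.mono' (integrable_const (∫ u in Ioi (1 : ℝ), ‖ψ u‖ * Real.exp (-σ * u)))
        (Ps_measurable hm σ).aestronglyMeasurable (Eventually.of_forall fun ξ => Ps_norm ψ σ ξ)
    exact h1.integrable_indicator measurableSet_Ioo
  have hDn : ∀ σ, ∫ ξ, ‖D σ ξ‖ = ∫ ξ in Ioo (-η) η, ‖Ps ψ σ ξ - b ξ‖ := by
    intro σ
    rw [← integral_indicator measurableSet_Ioo]
    refine integral_congr_ae (Eventually.of_forall fun ξ => ?_)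
    simp only [hD]
    exact norm_indicator_eq_indicator_norm _ _
  have hPi : ∀ σ : ℝ, Integrable (fun p : ℝ × ℝ => wt L p.1 * wt L p.2 *
      Complex.exp (Complex.I * ((U * (p.1 + p.2) : ℝ) : ℂ)) * Ps ψ σ (p.1 + p.2))
      ((nu L).prod (nu L)) := by
    intro σ
    have hw := wt_continuous L
    refine Integrable.mono' (integrable_const (∫ u in Ioi (1 : ℝ), ‖ψ u‖ * Real.exp (-σ * u)))
      ?_ ?_
    · refine AEStronglyMeasurable.mul (Continuous.aestronglyMeasurable (by fun_prop)) ?_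
      exact ((Ps_measurable hm σ).comp_measurable (by fun_prop)).aestronglyMeasurable
    · rw [nu, Measure.prod_restrict]
      refine (ae_restrict_mem (measurableSet_Ioc.prod measurableSet_Ioc)).mono fun p hp => ?_
      exact (exp_norm L U hL hp _).trans (Ps_norm ψ σ _)
  have hbi := weight_int hb hbm L hL U
  have hl : Tendsto (fun σ : ℝ => ∫ p : ℝ × ℝ, wt L p.1 * wt L p.2 *
      Complex.exp (Complex.I * ((U * (p.1 + p.2) : ℝ) : ℂ)) *
      Ps ψ σ (p.1 + p.2) ∂((nu L).prod (nu L))) (𝓝[>] 0)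
      (𝓝 (∫ p : ℝ × ℝ, wt L p.1 * wt L p.2 *
      Complex.exp (Complex.I * ((U * (p.1 + p.2) : ℝ) : ℂ)) *
      b (p.1 + p.2) ∂((nu L).prod (nu L)))) := by
    rw [tendsto_iff_norm_sub_tendsto_zero]
    have h2 := hlim.const_mul (2 * L)
    rw [mul_zero] at h2
    refine squeeze_zero (fun σ => norm_nonneg _) (fun σ => ?_) h2
    rw [← integral_sub (hPi σ) hbi, ← hDn σ]
    refine le_trans ?_ (sum_int (hDi σ) (hDm σ) L hL).2
    refine norm_integral_le_of_norm_le (sum_int (hDi σ) (hDm σ) L hL).1.norm ?_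
    rw [nu, Measure.prod_restrict]
    refine (ae_restrict_mem (measurableSet_Ioc.prod measurableSet_Ioc)).mono fun p hp => ?_
    simp only [hD]
    rw [indicator_of_mem (hmem p hp), ← mul_sub]
    exact exp_norm L U hL hp _
  have hr : Tendsto (fun σ : ℝ => ∫ t in Ioi (1 : ℝ),
      ψ t * ((Real.exp (-σ * t) * ker L U t : ℝ) : ℂ))
      (𝓝[>] 0) (𝓝 (∫ t in Ioi (1 : ℝ), ψ t * ((ker L U t : ℝ) : ℂ))) := by
    refine tendsto_integral_filter_of_dominated_convergence
      (fun t => ‖ψ t‖ * ker L U t) ?_ ?_ ?_ ?_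
    · refine Eventually.of_forall fun σ => ?_
      refine Measurable.aestronglyMeasurable ?_
      have := ker_measurable L U
      fun_prop
    · filter_upwards [self_mem_nhdsWithin] with σ hσ
      have hσ' : (0 : ℝ) < σ := hσ
      refine (ae_restrict_mem measurableSet_Ioi).mono fun t ht => ?_
      have ht' : (1 : ℝ) < t := ht
      have hk := ker_nonneg L U t
      rw [norm_mul, Complex.norm_real, norm_mul, Real.norm_of_nonneg (Real.exp_pos _).le,
        Real.norm_of_nonneg hk]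
      refine mul_le_mul_of_nonneg_left ?_ (norm_nonneg _)
      have h3 : Real.exp (-σ * t) ≤ 1 := by
        rw [Real.exp_le_one_iff]
        nlinarith
      calc Real.exp (-σ * t) * ker L U t ≤ 1 * ker L U t :=
            mul_le_mul_of_nonneg_right h3 hk
        _ = _ := one_mul _
    · exact psi_ker_int hm hψ L U hL
    · refine Eventually.of_forall fun t => ?_
      have h0 : Continuous (fun σ : ℝ => ψ t * ((Real.exp (-σ * t) * ker L U t : ℝ) : ℂ)) := by
        fun_prop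
      have := h0.tendsto 0
      simp only [neg_zero, zero_mul, Real.exp_zero, one_mul] at this
      exact this.mono_left nhdsWithin_le_nhds
  refine tendsto_nhds_unique hl (hr.congr' ?_)
  filter_upwards [self_mem_nhdsWithin] with σ hσ
  have hσ' : (0 : ℝ) < σ := hσ
  exact (fub2 hm hψ L σ U hL hσ').symm

/-- the lemma of Riemann and Lebesgue -/
lemma rl2 {b : ℝ → ℂ} (hb : Integrable b) (hbm : StronglyMeasurable b) (L : ℝ) (hL : 0 < L) :
    Tendsto (fun U : ℝ => ∫ p : ℝ × ℝ, wt L p.1 * wt L p.2 *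
      Complex.exp (Complex.I * ((U * (p.1 + p.2) : ℝ) : ℂ)) * b (p.1 + p.2)
      ∂((nu L).prod (nu L))) atTop (𝓝 0) := by
  have hw := wt_continuous L
  -- inner integral
  set F : ℝ → ℝ → ℂ := fun u y => ∫ x, wt L x * wt L y *
    Complex.exp (Complex.I * ((u * (x + y) : ℝ) : ℂ)) * b (x + y) ∂(nu L)
    with hF
  have hint := weight_int hb hbm L hL
  have hinner : ∀ y : ℝ, Tendsto (fun u => F u y) atTop (𝓝 0) := by
    intro y
    set f : ℝ → ℂ := (Ioc (-L) L).indicator
      (fun x => wt L x * wt L y * b (x + y)) with hf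
    have hrl := Real.tendsto_integral_exp_smul_cocompact f
    have hmap : Tendsto (fun u : ℝ => -u / (2 * Real.pi)) atTop (cocompact ℝ) := by
      refine Tendsto.mono_right ?_ atBot_le_cocompact
      have hpi : 0 < 2 * Real.pi := by positivity
      exact (tendsto_neg_atTop_atBot).atBot_div_const hpi
    have h1 := (hrl.comp hmap).norm
    rw [norm_zero] at h1
    rw [tendsto_zero_iff_norm_tendsto_zero]
    refine h1.congr fun u => ?_
    have h2 : F u y = Complex.exp (Complex.I * ((u * y : ℝ) : ℂ)) *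
        ∫ v : ℝ, Real.fourierChar (-(v * (-u / (2 * Real.pi)))) • f v := by
      rw [← integral_const_mul]
      simp only [hF, nu]
      rw [← integral_indicator measurableSet_Ioc]
      refine integral_congr_ae (Eventually.of_forall fun x => ?_)
      simp only [hf]
      by_cases hx : x ∈ Ioc (-L) L
      · rw [indicator_of_mem hx, indicator_of_mem hx, Circle.smul_def, Real.fourierChar_apply,
          smul_eq_mul]
        have e : Complex.exp (2 * Real.pi * (-(x * (-u / (2 * Real.pi))) : ℝ) * Complex.I)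
          = Complex.exp (Complex.I * ((u * x : ℝ) : ℂ)) := by
          congr 1
          have hpi : (Real.pi : ℂ) ≠ 0 := by exact_mod_cast Real.pi_ne_zero
          push_cast
          field_simp
        have e2 : Complex.exp (Complex.I * ((u * (x + y) : ℝ) : ℂ)) =
            Complex.exp (Complex.I * ((u * y : ℝ) : ℂ)) *
              Complex.exp (Complex.I * ((u * x : ℝ) : ℂ)) := by
          rw [← Complex.exp_add]
          congr 1
          push_cast
          ring
        push_cast at e e2 ⊢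
        rw [e, e2]
        ring
      · rw [indicator_of_notMem hx, indicator_of_notMem hx, smul_zero, mul_zero]
    have h3 : ‖Complex.exp (Complex.I * ((u * y : ℝ) : ℂ))‖ = 1 := by
      rw [Complex.norm_exp]
      simp
    simp only [Function.comp]
    rw [h2, norm_mul, h3, one_mul]
  have houter : Tendsto (fun u => ∫ y, F u y ∂(nu L)) atTop (𝓝 0) := by
    have h0 : (0 : ℂ) = ∫ y : ℝ, (0 : ℂ) ∂(nu L) := by simp
    rw [h0]
    refine tendsto_integral_filter_of_dominated_convergence (fun _ => ∫ x, ‖b x‖) ?_ ?_ ?_ ?_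
    · refine Eventually.of_forall fun u => ?_
      exact (hint u).integral_prod_right.aestronglyMeasurable
    · refine Eventually.of_forall fun u => ?_
      refine (ae_restrict_mem measurableSet_Ioc).mono fun y hy => ?_
      simp only [hF]
      have hby : Integrable (fun x => ‖b (x + y)‖) (nu L) :=
        (hb.comp_add_right y).norm.integrableOn
      calc ‖∫ x, wt L x * wt L y *
          Complex.exp (Complex.I * ((u * (x + y) : ℝ) : ℂ)) * b (x + y) ∂(nu L)‖
          ≤ ∫ x, ‖b (x + y)‖ ∂(nu L) := by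
            refine norm_integral_le_of_norm_le hby ?_
            refine (ae_restrict_mem measurableSet_Ioc).mono fun x hx => ?_
            exact exp_norm L u hL (p := (x, y)) ⟨hx, hy⟩ _
        _ ≤ ∫ x, ‖b (x + y)‖ := setIntegral_le_integral (hb.comp_add_right y).norm
            (Eventually.of_forall fun x => norm_nonneg _)
        _ = ∫ x, ‖b x‖ := integral_add_right_eq_self (fun x => ‖b x‖) y
    · exact integrable_const _
    · exact Eventually.of_forall fun y => hinner y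
  refine houter.congr fun u => ?_
  rw [integral_prod_symm _ (hint u)]

end

end Pool.Agent.NH98.EW.RL

namespace Pool.Agent.NH98.EW

open MeasureTheory Filter Topology Set RL
open Pool.Agent.NH98.RS2.TB (q q_nonneg q_le q_bound q_integral_pos ker ker_eq ker_nonneg
  ker_measurable ker_integrable ker_integral cauchy_integrable wt wt_continuous wt_norm nu two
  lin_exp)

/-- EW-1 -/
theorem t_rl : S_rl := by
  intro η hη
  set L := η / 4 with hLd
  have hL : 0 < L := by positivity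
  have hκ := q_integral_pos
  set c : ℝ := (L * ∫ v, q v)⁻¹ with hc
  have hc0 : 0 < c := by positivity
  refine ⟨fun v => c * ker L 0 v, c * (25 * L ^ 2 * (1 + 1 / L ^ 2) ^ 2),
    (ker_continuous L 0).const_mul c |>.congr (fun _ => rfl), fun v => ?_, fun v => ?_, ?_, ?_⟩
  · exact mul_nonneg hc0.le (ker_nonneg _ _ _)
  · rw [mul_div_assoc]
    refine mul_le_mul_of_nonneg_left ?_ hc0.le
    rw [ker_eq]
    have h1 := q_le (L * (0 - v))
    have h2 : (0 : ℝ) < 1 + v ^ 2 := by positivity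
    have h3 : (0 : ℝ) < 1 + (L * (0 - v)) ^ 2 := by positivity
    have h4 : (1 + (L * (0 - v)) ^ 2)⁻¹ ≤ (1 + 1 / L ^ 2) * (1 + v ^ 2)⁻¹ := by
      rw [← div_eq_mul_inv, le_div_iff₀ h2, inv_mul_le_iff₀ h3]
      have h5 : (1 + (L * (0 - v)) ^ 2) * (1 + 1 / L ^ 2) = 1 + v ^ 2 + (L ^ 2 * v ^ 2 + 1 / L ^ 2) := by
        field_simp
        ring
      rw [h5]
      have : 0 ≤ L ^ 2 * v ^ 2 + 1 / L ^ 2 := by positivity
      linarith
    have h5 : (0 : ℝ) ≤ (1 + (L * (0 - v)) ^ 2)⁻¹ := by positivity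
    calc L ^ 2 * q (L * (0 - v))
        ≤ L ^ 2 * (25 * ((1 + (L * (0 - v)) ^ 2)⁻¹ * (1 + (L * (0 - v)) ^ 2)⁻¹)) :=
          mul_le_mul_of_nonneg_left h1 (by positivity)
      _ ≤ L ^ 2 * (25 * (((1 + 1 / L ^ 2) * (1 + v ^ 2)⁻¹) * ((1 + 1 / L ^ 2) * (1 + v ^ 2)⁻¹))) := by
          gcongr
      _ = _ := by
          field_simp
  · rw [integral_const_mul, ker_integral L 0 hL, hc]
    exact inv_mul_cancel₀ (by positivity)
  · intro ψ b hm hψ hb hlim
    set b₁ : ℝ → ℂ := hb.aestronglyMeasurable.mk b with hb₁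
    have hb₁m : StronglyMeasurable b₁ := hb.aestronglyMeasurable.stronglyMeasurable_mk
    have hbe : b =ᵐ[volume.restrict (Ioo (-η) η)] b₁ := hb.aestronglyMeasurable.ae_eq_mk
    set b₂ : ℝ → ℂ := (Ioo (-η) η).indicator b₁ with hb₂
    have hb₂m : StronglyMeasurable b₂ := hb₁m.indicator measurableSet_Ioo
    have hb₂i : Integrable b₂ := by
      have h1 : IntegrableOn b₁ (Ioo (-η) η) := Integrable.congr hb hbe
      exact h1.integrable_indicator measurableSet_Ioo
    have hl : Tendsto (fun σ : ℝ => ∫ ξ in Ioo (-η) η, ‖Ps ψ σ ξ - b₂ ξ‖) (𝓝[>] 0) (𝓝 0) := by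
      refine hlim.congr fun σ => ?_
      refine integral_congr_ae ?_
      filter_upwards [hbe, ae_restrict_mem measurableSet_Ioo] with ξ h1 h2
      rw [hb₂, indicator_of_mem h2, ← h1]
      rfl
    have h3 := (rl2 hb₂i hb₂m L hL).const_mul (c : ℂ)
    rw [mul_zero] at h3
    refine h3.congr fun U => ?_
    rw [lim2 hm hψ hη hb₂i hb₂m hl U, ← integral_const_mul]
    refine integral_congr_ae (Eventually.of_forall fun u => ?_)
    simp only
    rw [ker_shift]
    push_cast
    ring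

end Pool.Agent.NH98.EW
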