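import Pool.Agent.NH98.EW.Stm
import Pool.Agent.NH98.RT.Kernel
import Pool.Agent.NH98.RT.Abel

/-!
Project EW (helper98), part EW-2: functions bounded above in windows.  Written by helper81.
-/

set_option autoImplicit false

open MeasureTheory Filter Topology Set

namespace Pool.Agent.NH98.EW.Win

open Pool.Agent.NH98.RT.Abel (W W_nonneg)

lemma ab_le (a b : ℝ) : a * b ≤ a ^ 2 + b ^ 2 := by
  nlinarith [sq_nonneg (a - b), sq_nonneg a, sq_nonneg b]

/-- the transform -/
noncomputable def LT (ψ : ℝ → ℂ) (σ ξ : ℝ) : ℂ :=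
  ∫ u in Ioi (1 : ℝ), ψ u * Complex.exp (-(((σ : ℂ) + (ξ : ℂ) * Complex.I) * (u : ℂ)))

lemma norm_ex (σ ξ u : ℝ) :
    ‖Complex.exp (-(((σ : ℂ) + (ξ : ℂ) * Complex.I) * (u : ℂ)))‖ = Real.exp (-(σ * u)) := by
  rw [Complex.norm_exp]
  congr 1
  simp

lemma dom_int {ψ : ℝ → ℂ} (h : IntegrableOn (fun u : ℝ => (‖ψ u‖ / u) ^ 2) (Ioi 1)) {σ : ℝ}
    (hσ : 0 < σ) :
    IntegrableOn (fun u : ℝ => (‖ψ u‖ / u) ^ 2 + 4 / σ ^ 2 * Real.exp (-σ * u)) (Ioi 1) :=
  h.add ((integrableOn_exp_mul_Ioi (by linarith) 1).const_mul _)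

lemma dom_le (ψ : ℝ → ℂ) {σ : ℝ} (hσ : 0 < σ) (ξ : ℝ) {u : ℝ} (hu : 1 < u) :
    ‖ψ u * Complex.exp (-(((σ : ℂ) + (ξ : ℂ) * Complex.I) * (u : ℂ)))‖ ≤
      (‖ψ u‖ / u) ^ 2 + 4 / σ ^ 2 * Real.exp (-σ * u) := by
  rw [norm_mul, norm_ex]
  have h0 : 0 < u := by linarith
  have h1 : u ≤ 2 / σ * Real.exp (σ / 2 * u) := by
    have h2 : σ / 2 * u + 1 ≤ Real.exp (σ / 2 * u) := Real.add_one_le_exp _
    calc u = 2 / σ * (σ / 2 * u) := by field_simp
      _ ≤ _ := mul_le_mul_of_nonneg_left (by linarith) (by positivity)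
  have h2 : u * Real.exp (-(σ * u)) ≤ 2 / σ * Real.exp (-(σ / 2) * u) := by
    calc u * Real.exp (-(σ * u)) ≤ 2 / σ * Real.exp (σ / 2 * u) * Real.exp (-(σ * u)) :=
          mul_le_mul_of_nonneg_right h1 (Real.exp_pos _).le
      _ = _ := by
        rw [mul_assoc, ← Real.exp_add]
        congr 2
        ring
  have h3 : (u * Real.exp (-(σ * u))) ^ 2 ≤ 4 / σ ^ 2 * Real.exp (-σ * u) := by
    calc (u * Real.exp (-(σ * u))) ^ 2 ≤ (2 / σ * Real.exp (-(σ / 2) * u)) ^ 2 :=
          pow_le_pow_left₀ (by positivity) h2 2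
      _ = 4 / σ ^ 2 * (Real.exp (-(σ / 2) * u)) ^ 2 := by ring
      _ = _ := by
        rw [← Real.exp_nat_mul]
        congr 2
        push_cast
        ring
  have h4 : ‖ψ u‖ * Real.exp (-(σ * u)) = (‖ψ u‖ / u) * (u * Real.exp (-(σ * u))) := by
    field_simp
  rw [h4]
  have h5 := ab_le (‖ψ u‖ / u) (u * Real.exp (-(σ * u)))
  linarith

lemma meas_ex {ψ : ℝ → ℂ} (hm : Measurable ψ) (σ ξ : ℝ) :
    Measurable (fun u : ℝ => ψ u * Complex.exp (-(((σ : ℂ) + (ξ : ℂ) * Complex.I) * (u : ℂ)))) := by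
  apply hm.mul
  apply Continuous.measurable
  fun_prop

lemma LT_int {ψ : ℝ → ℂ} (hm : Measurable ψ)
    (h : IntegrableOn (fun u : ℝ => (‖ψ u‖ / u) ^ 2) (Ioi 1)) {σ : ℝ} (hσ : 0 < σ) (ξ : ℝ) :
    IntegrableOn (fun u : ℝ => ψ u * Complex.exp (-(((σ : ℂ) + (ξ : ℂ) * Complex.I) * (u : ℂ))))
      (Ioi 1) :=
  Integrable.mono' (dom_int h hσ) (meas_ex hm σ ξ).aestronglyMeasurable
    ((ae_restrict_mem measurableSet_Ioi).mono fun u hu => dom_le ψ hσ ξ hu)

lemma LT_cont {ψ : ℝ → ℂ} (hm : Measurable ψ)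
    (h : IntegrableOn (fun u : ℝ => (‖ψ u‖ / u) ^ 2) (Ioi 1)) {σ : ℝ} (hσ : 0 < σ) :
    Continuous (fun ξ => LT ψ σ ξ) := by
  unfold LT
  apply continuous_of_dominated
    (bound := fun u => (‖ψ u‖ / u) ^ 2 + 4 / σ ^ 2 * Real.exp (-σ * u))
  · intro ξ
    exact (meas_ex hm σ ξ).aestronglyMeasurable
  · intro ξ
    exact (ae_restrict_mem measurableSet_Ioi).mono fun u hu => dom_le ψ hσ ξ hu
  · exact dom_int h hσ
  · exact Eventually.of_forall fun u => by fun_prop

lemma LT_one {σ : ℝ} (hσ : 0 < σ) (ξ : ℝ) : LT (fun _ => 1) σ ξ =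
    Complex.exp (-((σ : ℂ) + (ξ : ℂ) * Complex.I)) / ((σ : ℂ) + (ξ : ℂ) * Complex.I) := by
  unfold LT
  have h2 : (-((σ : ℂ) + (ξ : ℂ) * Complex.I)).re < 0 := by
    simpa using hσ
  have h3 := integral_exp_mul_complex_Ioi h2 1
  simp only [Complex.ofReal_one, mul_one] at h3
  have h4 : ∀ u : ℝ, (1 : ℂ) * Complex.exp (-(((σ : ℂ) + (ξ : ℂ) * Complex.I) * (u : ℂ))) =
      Complex.exp (-((σ : ℂ) + (ξ : ℂ) * Complex.I) * (u : ℂ)) := fun u => by
    rw [one_mul, neg_mul]
  simp_rw [h4]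
  rw [h3, neg_div_neg_eq]

/-- multiplication by a character shifts the transform -/
lemma LT_shift (ψ : ℝ → ℂ) (x σ ξ : ℝ) :
    LT (fun u => ψ u * Complex.exp (-((x : ℂ) * Complex.I * (u : ℂ)))) σ ξ = LT ψ σ (x + ξ) := by
  unfold LT
  refine integral_congr_ae (Eventually.of_forall fun u => ?_)
  simp only
  rw [mul_assoc, ← Complex.exp_add]
  congr 2
  push_cast
  ring

lemma LT_sub {ψ χ : ℝ → ℂ} {σ ξ : ℝ}
    (h1 : IntegrableOn (fun u : ℝ => ψ u *
      Complex.exp (-(((σ : ℂ) + (ξ : ℂ) * Complex.I) * (u : ℂ)))) (Ioi 1))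
    (h2 : IntegrableOn (fun u : ℝ => χ u *
      Complex.exp (-(((σ : ℂ) + (ξ : ℂ) * Complex.I) * (u : ℂ)))) (Ioi 1)) :
    LT (fun u => ψ u - χ u) σ ξ = LT ψ σ ξ - LT χ σ ξ := by
  unfold LT
  rw [← integral_sub h1 h2]
  refine integral_congr_ae (Eventually.of_forall fun u => ?_)
  simp only
  ring

lemma LT_const (A : ℂ) {σ : ℝ} (hσ : 0 < σ) (ξ : ℝ) : LT (fun _ => A) σ ξ =
    A * (Complex.exp (-((σ : ℂ) + (ξ : ℂ) * Complex.I)) / ((σ : ℂ) + (ξ : ℂ) * Complex.I)) := by
  rw [← LT_one hσ ξ]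
  unfold LT
  rw [← integral_const_mul]
  refine integral_congr_ae (Eventually.of_forall fun u => ?_)
  simp only
  ring

lemma cvg {F : ℝ → ℝ → ℂ} (hF : Continuous (Function.uncurry F)) (η : ℝ) :
    Tendsto (fun σ : ℝ => ∫ ξ in Ioo (-η) η, ‖F σ ξ - F 0 ξ‖) (𝓝[>] 0) (𝓝 0) := by
  have h1 : Continuous (fun σ : ℝ => ∫ ξ in Icc (-η) η, ‖F σ ξ - F 0 ξ‖) := by
    apply continuous_parametric_integral_of_continuous _ isCompact_Icc
    apply Continuous.norm
    apply Continuous.sub
    · exact hF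
    · exact hF.comp (continuous_const.prodMk continuous_snd)
  have h2 := (h1.tendsto 0).mono_left (nhdsWithin_le_nhds (s := Ioi 0))
  simp only [sub_self, norm_zero, integral_zero] at h2
  refine h2.congr fun σ => ?_
  exact integral_Icc_eq_integral_Ioo

lemma sq_int_const (A : ℂ) : IntegrableOn (fun u : ℝ => (‖A‖ / u) ^ 2) (Ioi 1) := by
  have h1 : IntegrableOn (fun u : ℝ => u ^ (-2 : ℝ)) (Ioi 1) :=
    integrableOn_Ioi_rpow_of_lt (by norm_num) one_pos
  refine (h1.const_mul (‖A‖ ^ 2)).congr ?_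
  refine (ae_restrict_mem measurableSet_Ioi).mono fun u hu => ?_
  have hu' : (0 : ℝ) < u := lt_trans one_pos hu
  simp only
  rw [Real.rpow_neg hu'.le, div_pow, div_eq_mul_inv]
  norm_cast

/-- the properties of the kernel -/
structure Good (w : ℝ → ℝ) (C η : ℝ) : Prop where
  cont : Continuous w
  nonneg : ∀ v, 0 ≤ w v
  le : ∀ v, w v ≤ C / (1 + v ^ 2) ^ 2
  one : ∫ v, w v = 1
  rl : ∀ (ψ b : ℝ → ℂ), Measurable ψ → IntegrableOn (fun u : ℝ => (‖ψ u‖ / u) ^ 2) (Ioi 1) →
    IntegrableOn b (Ioo (-η) η) →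
    Tendsto (fun σ : ℝ => ∫ ξ in Ioo (-η) η, ‖LT ψ σ ξ - b ξ‖) (𝓝[>] 0) (𝓝 0) →
    Tendsto (fun U : ℝ => ∫ u in Ioi (1 : ℝ), ψ u * (w (u - U) : ℂ)) atTop (𝓝 0)

section kernel

variable {w : ℝ → ℝ} {C η : ℝ}

lemma Good.C_nonneg (hw : Good w C η) : 0 ≤ C := by
  have h1 := hw.nonneg 0
  have h2 := hw.le 0
  norm_num at h2
  linarith

lemma cauchy_int (U : ℝ) : Integrable (fun u : ℝ => (1 + (u - U) ^ 2)⁻¹) :=
  integrable_inv_one_add_sq.comp_sub_right U

lemma cauchy_le (U : ℝ) : ∫ u in Ioi (1 : ℝ), (1 + (u - U) ^ 2)⁻¹ ≤ Real.pi := by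
  have h1 : ∫ u : ℝ, (1 + (u - U) ^ 2)⁻¹ = Real.pi := by
    rw [← integral_univ_inv_one_add_sq]
    exact integral_sub_right_eq_self (fun v : ℝ => (1 + v ^ 2)⁻¹) U
  rw [← h1]
  exact setIntegral_le_integral (cauchy_int U)
    (Eventually.of_forall fun u => by positivity)

/-- products with the kernel are integrable -/
lemma Good.int (hw : Good w C η) {ψ : ℝ → ℂ} (hm : Measurable ψ)
    (h : IntegrableOn (fun u : ℝ => (‖ψ u‖ / u) ^ 2) (Ioi 1)) (U : ℝ) :
    IntegrableOn (fun u : ℝ => ψ u * (w (u - U) : ℂ)) (Ioi 1) := by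
  have hC := hw.C_nonneg
  have h1 : IntegrableOn (fun u : ℝ => (‖ψ u‖ / u) ^ 2 +
      (2 + 2 * U ^ 2) * C ^ 2 * (1 + (u - U) ^ 2)⁻¹) (Ioi 1) :=
    h.add ((cauchy_int U).integrableOn.const_mul _)
  refine Integrable.mono' h1 ?_ ?_
  · apply Measurable.aestronglyMeasurable
    apply hm.mul
    apply Continuous.measurable
    have := hw.cont
    fun_prop
  · refine (ae_restrict_mem measurableSet_Ioi).mono fun u hu => ?_
    have hu' : (0 : ℝ) < u := lt_trans one_pos hu
    have h2 := hw.nonneg (u - U)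
    have h3 := hw.le (u - U)
    rw [norm_mul, Complex.norm_real, Real.norm_of_nonneg h2]
    have h4 : ‖ψ u‖ * w (u - U) = (‖ψ u‖ / u) * (u * w (u - U)) := by
      field_simp
    rw [h4]
    have h5 := ab_le (‖ψ u‖ / u) (u * w (u - U))
    have h6 : (u * w (u - U)) ^ 2 ≤ (2 + 2 * U ^ 2) * C ^ 2 * (1 + (u - U) ^ 2)⁻¹ := by
      set v := u - U with hv
      have hv1 : 0 < 1 + v ^ 2 := by positivity
      have h7 : u ^ 2 ≤ (2 + 2 * U ^ 2) * (1 + v ^ 2) := by
        have : u = v + U := by rw [hv]; ring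
        rw [this]
        nlinarith [sq_nonneg (v - U), sq_nonneg (U * v), sq_nonneg v, sq_nonneg U]
      have h8 : w v ^ 2 ≤ C ^ 2 / (1 + v ^ 2) ^ 4 := by
        calc w v ^ 2 ≤ (C / (1 + v ^ 2) ^ 2) ^ 2 := pow_le_pow_left₀ h2 h3 2
          _ = _ := by rw [div_pow, ← pow_mul]
      have h9 : C ^ 2 / (1 + v ^ 2) ^ 4 ≤ C ^ 2 / (1 + v ^ 2) ^ 2 := by
        apply div_le_div_of_nonneg_left (sq_nonneg C) (by positivity)
        exact pow_le_pow_right₀ (by nlinarith [sq_nonneg v]) (by norm_num)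
      calc (u * w v) ^ 2 = u ^ 2 * w v ^ 2 := by ring
        _ ≤ ((2 + 2 * U ^ 2) * (1 + v ^ 2)) * (C ^ 2 / (1 + v ^ 2) ^ 2) :=
          mul_le_mul h7 (h8.trans h9) (sq_nonneg _) (by positivity)
        _ = _ := by field_simp
    linarith

lemma Good.integrable (hw : Good w C η) : Integrable w :=
  integrable_of_integral_eq_one hw.one

/-- the windows of the constant function -/
lemma Good.one_lim (hw : Good w C η) :
    Tendsto (fun U : ℝ => ∫ u in Ioi (1 : ℝ), w (u - U)) atTop (𝓝 1) := by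
  have h1 : ∀ U : ℝ, ∫ u in Ioi (1 : ℝ), w (u - U) = ∫ v in Ioi (1 - U), w v := by
    intro U
    rw [← integral_indicator measurableSet_Ioi, ← integral_indicator measurableSet_Ioi,
      ← integral_add_right_eq_self _ U]
    refine integral_congr_ae (Eventually.of_forall fun v => ?_)
    simp only [indicator, mem_Ioi, add_sub_cancel_right, sub_lt_iff_lt_add]
  simp_rw [h1]
  have h2 : Tendsto (fun U : ℝ => 1 - U) atTop atBot :=
    tendsto_atBot_add_const_left atTop 1 tendsto_neg_atTop_atBot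
  have h3 := (aecover_Ioi (μ := volume) h2).integral_tendsto_of_countably_generated hw.integrable
  rwa [hw.one] at h3

/-- the windows of a character -/
lemma Good.exp_lim (hw : Good w C η) (hη : 0 < η) {x : ℝ} (hx : x ≠ 0) (hxη : η ≤ |x| / 2) :
    Tendsto (fun U : ℝ => ∫ u in Ioi (1 : ℝ),
      Complex.exp (-((x : ℂ) * Complex.I * (u : ℂ))) * (w (u - U) : ℂ)) atTop (𝓝 0) := by
  have hx' : 0 < |x| := abs_pos.2 hx
  set F : ℝ → ℝ → ℂ := fun σ ξ =>
    Complex.exp (-((σ : ℂ) + ((x + ξ : ℝ) : ℂ) * Complex.I)) /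
      ((σ : ℂ) + ((x + max (-η) (min η ξ) : ℝ) : ℂ) * Complex.I) with hF
  have hFc : Continuous (Function.uncurry F) := by
    have e : Function.uncurry F = fun p : ℝ × ℝ =>
      Complex.exp (-((p.1 : ℂ) + ((x + p.2 : ℝ) : ℂ) * Complex.I)) /
      ((p.1 : ℂ) + ((x + max (-η) (min η p.2) : ℝ) : ℂ) * Complex.I) := by
      funext p
      rfl
    rw [e]
    apply Continuous.div (by fun_prop) (by fun_prop)
    intro p hp
    have h1 := congrArg Complex.im hp
    simp only [Complex.add_im, Complex.ofReal_im, Complex.mul_im, Complex.ofReal_re,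
      Complex.I_im, Complex.I_re, mul_one, mul_zero, add_zero, zero_add, Complex.zero_im] at h1
    have h2 : |max (-η) (min η p.2)| ≤ η := by
      rw [abs_le]
      refine ⟨le_max_left _ _, max_le (by linarith) (min_le_left _ _)⟩
    have h3 : x = -max (-η) (min η p.2) := by linarith
    have h4 : |x| = |max (-η) (min η p.2)| := by rw [h3, abs_neg]
    linarith
  have hψm : Measurable (fun u : ℝ => Complex.exp (-((x : ℂ) * Complex.I * (u : ℂ)))) := by
    apply Continuous.measurable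
    fun_prop
  have hn : ∀ u : ℝ, ‖Complex.exp (-((x : ℂ) * Complex.I * (u : ℂ)))‖ = 1 := by
    intro u
    rw [Complex.norm_exp]
    simp
  apply hw.rl (fun u : ℝ => Complex.exp (-((x : ℂ) * Complex.I * (u : ℂ)))) (fun ξ => F 0 ξ) hψm
  · refine (sq_int_const 1).congr (Eventually.of_forall fun u => ?_)
    simp only
    rw [hn, norm_one]
  · have h1 : Continuous (fun ξ => F 0 ξ) := hFc.comp (continuous_const.prodMk continuous_id)
    exact (h1.integrableOn_Icc (a := -η) (b := η)).mono_set Ioo_subset_Icc_self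
  · refine (cvg hFc η).congr' ?_
    filter_upwards [self_mem_nhdsWithin] with σ hσ
    have hσ' : 0 < σ := hσ
    refine setIntegral_congr_fun measurableSet_Ioo fun ξ hξ => ?_
    have h1 := LT_shift (fun _ => 1) x σ ξ
    simp only [one_mul] at h1
    rw [h1, LT_one hσ']
    have h2 : max (-η) (min η ξ) = ξ := by
      rw [min_eq_right hξ.2.le, max_eq_right hξ.1.le]
    have h3 : F σ ξ = Complex.exp (-((σ : ℂ) + ((x + ξ : ℝ) : ℂ) * Complex.I)) /
      ((σ : ℂ) + ((x + ξ : ℝ) : ℂ) * Complex.I) := by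
      simp only [hF, h2]
    rw [h3]

/-- the function `(1 - exp (-s)) / s` -/
noncomputable def gg : ℂ → ℂ := dslope (fun s : ℂ => -Complex.exp (-s)) 0

lemma gg_cont : Continuous gg := by
  have hd : Differentiable ℂ (fun s : ℂ => -Complex.exp (-s)) := by fun_prop
  rw [← continuousOn_univ]
  unfold gg
  exact (continuousOn_dslope univ_mem).2 ⟨hd.continuous.continuousOn, hd 0⟩

lemma gg_eq {s : ℂ} (hs : s ≠ 0) : gg s = (1 - Complex.exp (-s)) / s := by
  unfold gg
  rw [dslope_of_ne _ hs, slope_def_field]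
  simp only [neg_zero, Complex.exp_zero, sub_zero]
  congr 1
  ring

/-- the windows at a pole -/
lemma Good.phi_lim (hw : Good w C η) (hη : 0 < η) {φ : ℝ → ℝ} (hm : Measurable φ)
    (h : IntegrableOn (fun u : ℝ => (φ u / u) ^ 2) (Ioi 1)) {x : ℝ} {A : ℂ} {η' : ℝ} {b : ℝ → ℂ}
    (hηη : η ≤ η') (hb : IntegrableOn b (Ioo (-η') η'))
    (hL : Tendsto (fun σ : ℝ => ∫ ξ in Ioo (-η') η',
      ‖(∫ u in Ioi (1 : ℝ), (φ u : ℂ) *
        Complex.exp (-(((σ : ℂ) + ((x + ξ : ℝ) : ℂ) * Complex.I) * (u : ℂ)))) -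
      A / ((σ : ℂ) + (ξ : ℂ) * Complex.I) - b ξ‖) (𝓝[>] 0) (𝓝 0)) :
    Tendsto (fun U : ℝ => ∫ u in Ioi (1 : ℝ),
      (φ u : ℂ) * Complex.exp (-((x : ℂ) * Complex.I * (u : ℂ))) * (w (u - U) : ℂ)) atTop
      (𝓝 A) := by
  have hsub : Ioo (-η) η ⊆ Ioo (-η') η' := Ioo_subset_Ioo (by linarith) hηη
  have hφm : Measurable (fun u : ℝ => (φ u : ℂ)) := Complex.measurable_ofReal.comp hm
  have hexm : Measurable (fun u : ℝ => Complex.exp (-((x : ℂ) * Complex.I * (u : ℂ)))) := by
    apply Continuous.measurable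
    fun_prop
  have hn : ∀ u : ℝ, ‖Complex.exp (-((x : ℂ) * Complex.I * (u : ℂ)))‖ = 1 := by
    intro u
    rw [Complex.norm_exp]
    simp
  have hφs : IntegrableOn (fun u : ℝ => (‖(φ u : ℂ)‖ / u) ^ 2) (Ioi 1) := by
    refine h.congr (Eventually.of_forall fun u => ?_)
    simp only
    rw [Complex.norm_real, div_pow, div_pow, Real.norm_eq_abs, sq_abs]
  have hφes : IntegrableOn (fun u : ℝ =>
      (‖(φ u : ℂ) * Complex.exp (-((x : ℂ) * Complex.I * (u : ℂ)))‖ / u) ^ 2) (Ioi 1) := by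
    refine hφs.congr (Eventually.of_forall fun u => ?_)
    simp only
    rw [norm_mul, hn, mul_one]
  set ψ : ℝ → ℂ := fun u => (φ u : ℂ) * Complex.exp (-((x : ℂ) * Complex.I * (u : ℂ))) - A
    with hψ
  have hψm : Measurable ψ := (hφm.mul hexm).sub measurable_const
  have hψs : IntegrableOn (fun u : ℝ => (‖ψ u‖ / u) ^ 2) (Ioi 1) := by
    refine Integrable.mono' ((hφes.const_mul 2).add ((sq_int_const A).const_mul 2)) ?_ ?_
    · apply Measurable.aestronglyMeasurable
      exact (hψm.norm.div measurable_id).pow_const 2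
    · refine (ae_restrict_mem measurableSet_Ioi).mono fun u hu => ?_
      have hu' : (0 : ℝ) < u := lt_trans one_pos hu
      rw [Real.norm_of_nonneg (sq_nonneg _)]
      simp only [Pi.add_apply]
      have h1 : ‖ψ u‖ ≤ ‖(φ u : ℂ) * Complex.exp (-((x : ℂ) * Complex.I * (u : ℂ)))‖ + ‖A‖ :=
        norm_sub_le _ _
      have h2 : ‖ψ u‖ / u ≤ ‖(φ u : ℂ) * Complex.exp (-((x : ℂ) * Complex.I * (u : ℂ)))‖ / u +
          ‖A‖ / u := by
        rw [← add_div]
        exact div_le_div_of_nonneg_right h1 hu'.le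
      have h3 : 0 ≤ ‖ψ u‖ / u := by positivity
      have h4 := pow_le_pow_left₀ h3 h2 2
      nlinarith [sq_nonneg (‖(φ u : ℂ) * Complex.exp (-((x : ℂ) * Complex.I * (u : ℂ)))‖ / u -
        ‖A‖ / u)]
  set F : ℝ → ℝ → ℂ := fun σ ξ => A * gg ((σ : ℂ) + (ξ : ℂ) * Complex.I) with hF
  have hFc : Continuous (Function.uncurry F) := by
    have e : Function.uncurry F = fun p : ℝ × ℝ =>
      A * gg ((p.1 : ℂ) + (p.2 : ℂ) * Complex.I) := by
      funext p
      rfl
    rw [e]
    exact continuous_const.mul (gg_cont.comp (by fun_prop))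
  have hF0 : Continuous (fun ξ => F 0 ξ) := hFc.comp (continuous_const.prodMk continuous_id)
  have hFσ : ∀ σ, Continuous (fun ξ => F σ ξ) := fun σ =>
    hFc.comp (continuous_const.prodMk continuous_id)
  have hlim : Tendsto (fun U : ℝ => ∫ u in Ioi (1 : ℝ), ψ u * (w (u - U) : ℂ)) atTop (𝓝 0) := by
    apply hw.rl ψ (fun ξ => b ξ + F 0 ξ) hψm hψs
    · exact (hb.mono_set hsub).add
        ((hF0.integrableOn_Icc (a := -η) (b := η)).mono_set Ioo_subset_Icc_self)
    · have h0 := hL.add (cvg hFc η)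
      rw [add_zero] at h0
      refine squeeze_zero' (Eventually.of_forall fun σ => integral_nonneg fun ξ => norm_nonneg _)
        ?_ h0
      filter_upwards [self_mem_nhdsWithin] with σ hσ
      have hσ' : 0 < σ := hσ
      have hs : ∀ ξ : ℝ, (σ : ℂ) + (ξ : ℂ) * Complex.I ≠ 0 := by
        intro ξ h1
        have h2 := congrArg Complex.re h1
        simp at h2
        linarith
      have i1 : IntegrableOn (fun ξ : ℝ => LT (fun u => (φ u : ℂ)) σ (x + ξ) -
          A / ((σ : ℂ) + (ξ : ℂ) * Complex.I) - b ξ) (Ioo (-η') η') := by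
        refine Integrable.sub ?_ hb
        have h1 : Continuous (fun ξ : ℝ => LT (fun u => (φ u : ℂ)) σ (x + ξ) -
            A / ((σ : ℂ) + (ξ : ℂ) * Complex.I)) := by
          apply Continuous.sub
          · exact (LT_cont hφm hφs hσ').comp (by fun_prop)
          · exact Continuous.div (by fun_prop) (by fun_prop) hs
        exact (h1.integrableOn_Icc (a := -η') (b := η')).mono_set Ioo_subset_Icc_self
      have i2 : IntegrableOn (fun ξ : ℝ => F σ ξ - F 0 ξ) (Ioo (-η) η) := by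
        have h1 : Continuous (fun ξ : ℝ => F σ ξ - F 0 ξ) := (hFσ σ).sub hF0
        exact (h1.integrableOn_Icc (a := -η) (b := η)).mono_set Ioo_subset_Icc_self
      have h1 : ∀ ξ : ℝ, LT ψ σ ξ - (b ξ + F 0 ξ) =
          (LT (fun u => (φ u : ℂ)) σ (x + ξ) - A / ((σ : ℂ) + (ξ : ℂ) * Complex.I) - b ξ) +
          (F σ ξ - F 0 ξ) := by
        intro ξ
        have h2 : LT ψ σ ξ = LT (fun u => (φ u : ℂ)) σ (x + ξ) -
            A * (Complex.exp (-((σ : ℂ) + (ξ : ℂ) * Complex.I)) /
              ((σ : ℂ) + (ξ : ℂ) * Complex.I)) := by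
          rw [← LT_const A hσ' ξ, ← LT_shift]
          exact LT_sub (LT_int (hφm.mul hexm) hφes hσ' ξ)
            (LT_int measurable_const (sq_int_const A) hσ' ξ)
        have h3 : F σ ξ = A / ((σ : ℂ) + (ξ : ℂ) * Complex.I) -
            A * (Complex.exp (-((σ : ℂ) + (ξ : ℂ) * Complex.I)) /
              ((σ : ℂ) + (ξ : ℂ) * Complex.I)) := by
          simp only [hF]
          rw [gg_eq (hs ξ)]
          ring
        rw [h2, h3]
        ring
      have h4 : ∫ ξ in Ioo (-η) η, ‖LT ψ σ ξ - (b ξ + F 0 ξ)‖ ≤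
          ∫ ξ in Ioo (-η) η, (‖LT (fun u => (φ u : ℂ)) σ (x + ξ) -
            A / ((σ : ℂ) + (ξ : ℂ) * Complex.I) - b ξ‖ + ‖F σ ξ - F 0 ξ‖) := by
        apply integral_mono_of_nonneg (Eventually.of_forall fun ξ => norm_nonneg _)
        · exact (i1.mono_set hsub).norm.add i2.norm
        · refine Eventually.of_forall fun ξ => ?_
          simp only
          rw [h1]
          exact norm_add_le _ _
      refine h4.trans ?_
      rw [integral_add (i1.mono_set hsub).norm i2.norm]
      apply add_le_add _ le_rfl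
      apply setIntegral_mono_set i1.norm (Eventually.of_forall fun ξ => norm_nonneg _)
      exact hsub.eventuallyLE
  have h1 : Tendsto (fun U : ℝ => ((∫ u in Ioi (1 : ℝ), w (u - U) : ℝ) : ℂ)) atTop (𝓝 1) := by
    have h2 := (Complex.continuous_ofReal.tendsto _).comp hw.one_lim
    simpa [Function.comp_def] using h2
  have h2 := hlim.add (h1.const_mul A)
  rw [zero_add, mul_one] at h2
  refine h2.congr fun U => ?_
  rw [← integral_complex_ofReal, ← integral_const_mul, ← integral_add (hw.int hψm hψs U)]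
  · refine integral_congr_ae (Eventually.of_forall fun u => ?_)
    simp only [hψ]
    ring
  · exact hw.int measurable_const (sq_int_const A) U

/-- products with the kernel are integrable, real version -/
lemma Good.intR (hw : Good w C η) {ψ : ℝ → ℝ} (hm : Measurable ψ)
    (h : IntegrableOn (fun u : ℝ => (ψ u / u) ^ 2) (Ioi 1)) (U : ℝ) :
    IntegrableOn (fun u : ℝ => ψ u * w (u - U)) (Ioi 1) := by
  have h1 : IntegrableOn (fun u : ℝ => (‖(ψ u : ℂ)‖ / u) ^ 2) (Ioi 1) := by
    refine h.congr (Eventually.of_forall fun u => ?_)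
    simp only
    rw [Complex.norm_real, div_pow, div_pow, Real.norm_eq_abs, sq_abs]
  have h2 := (hw.int (Complex.measurable_ofReal.comp hm) h1 U).re
  refine h2.congr (Eventually.of_forall fun u => ?_)
  simp

lemma Good.intB (hw : Good w C η) {ψ : ℝ → ℝ} (hm : Measurable ψ)
    (h : IntegrableOn (fun u : ℝ => (ψ u / u) ^ 2) (Ioi 1)) (U : ℝ) {f : ℝ → ℝ}
    (hf : Continuous f) {K : ℝ} (hK : ∀ u, |f u| ≤ K) :
    IntegrableOn (fun u : ℝ => ψ u * w (u - U) * f u) (Ioi 1) := by
  apply Integrable.mul_bdd (c := K) (hw.intR hm h U) hf.aestronglyMeasurable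
  exact Eventually.of_forall fun u => by rw [Real.norm_eq_abs]; exact hK u

/-- splitting into real and imaginary parts -/
lemma Good.split (hw : Good w C η) {ψ : ℝ → ℝ} (hm : Measurable ψ)
    (h : IntegrableOn (fun u : ℝ => (ψ u / u) ^ 2) (Ioi 1)) (x U : ℝ) :
    (∫ u in Ioi (1 : ℝ), (ψ u : ℂ) * Complex.exp (-((x : ℂ) * Complex.I * (u : ℂ))) *
      (w (u - U) : ℂ)) =
      ((∫ u in Ioi (1 : ℝ), ψ u * w (u - U) * Real.cos (x * u) : ℝ) : ℂ) -
      ((∫ u in Ioi (1 : ℝ), ψ u * w (u - U) * Real.sin (x * u) : ℝ) : ℂ) * Complex.I := by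
  have h1 : IntegrableOn (fun u : ℝ => ψ u * w (u - U) * Real.cos (x * u)) (Ioi 1) :=
    hw.intB hm h U (by fun_prop) (fun u => Real.abs_cos_le_one _)
  have h2 : IntegrableOn (fun u : ℝ => ψ u * w (u - U) * Real.sin (x * u)) (Ioi 1) :=
    hw.intB hm h U (by fun_prop) (fun u => Real.abs_sin_le_one _)
  have h3 : ∀ u : ℝ, (ψ u : ℂ) * Complex.exp (-((x : ℂ) * Complex.I * (u : ℂ))) *
      (w (u - U) : ℂ) = ((ψ u * w (u - U) * Real.cos (x * u) : ℝ) : ℂ) -
      ((ψ u * w (u - U) * Real.sin (x * u) : ℝ) : ℂ) * Complex.I := by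
    intro u
    have e1 : -((x : ℂ) * Complex.I * (u : ℂ)) = ((-(x * u) : ℝ) : ℂ) * Complex.I := by
      push_cast
      ring
    rw [e1, Complex.exp_mul_I, ← Complex.ofReal_cos, ← Complex.ofReal_sin,
      Real.cos_neg, Real.sin_neg]
    push_cast
    ring
  simp_rw [h3]
  rw [integral_sub, integral_mul_const]
  · rw [integral_complex_ofReal, integral_complex_ofReal]
  · exact h1.ofReal
  · exact h2.ofReal.mul_const _

/-- the part far from the centre of the window -/
lemma Good.far (hw : Good w C η) (ψ : ℝ → ℝ) {δ U u : ℝ} (hδ : 0 < δ) (hδ1 : δ < 1) (hU : 0 < U)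
    (hu : 1 < u) (hfar : δ * U / 2 ≤ |u - (1 - δ / 2) * U|) :
    |ψ u| * w (u - (1 - δ / 2) * U) ≤ (1 + (δ * U / 2) ^ 2)⁻¹ *
      ((ψ u / u) ^ 2 + C ^ 2 * (1 + 2 / δ) ^ 2 * (1 + (u - (1 - δ / 2) * U) ^ 2)⁻¹) := by
  set v := u - (1 - δ / 2) * U with hv
  set R := 1 + (δ * U / 2) ^ 2 with hR
  have hR0 : 0 < R := by positivity
  have hv0 : 0 < 1 + v ^ 2 := by positivity
  have hu0 : 0 < u := by linarith
  have hRv : R ≤ 1 + v ^ 2 := by
    have h1 := pow_le_pow_left₀ (by positivity) hfar 2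
    rw [sq_abs] at h1
    linarith
  have h2 := hw.nonneg v
  have h3 := hw.le v
  have hC := hw.C_nonneg
  -- size of u
  have hu2 : u ≤ (1 + 2 / δ) * |v| := by
    have h4 : U ≤ 2 / δ * |v| := by
      rw [div_mul_eq_mul_div, le_div_iff₀ hδ]
      linarith
    have h5 : u ≤ |v| + U := by
      have h6 : u = v + (1 - δ / 2) * U := by rw [hv]; ring
      have h7 := le_abs_self v
      nlinarith
    linarith
  have hu3 : u ^ 2 ≤ (1 + 2 / δ) ^ 2 * v ^ 2 := by
    have h4 := pow_le_pow_left₀ hu0.le hu2 2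
    rwa [mul_pow, sq_abs] at h4
  have h8 : w v ^ 2 ≤ C ^ 2 / (1 + v ^ 2) ^ 4 := by
    calc w v ^ 2 ≤ (C / (1 + v ^ 2) ^ 2) ^ 2 := pow_le_pow_left₀ h2 h3 2
      _ = _ := by rw [div_pow, ← pow_mul]
  have h9 : (u * w v) ^ 2 ≤ C ^ 2 * (1 + 2 / δ) ^ 2 * (1 + v ^ 2)⁻¹ * (R⁻¹) ^ 2 := by
    calc (u * w v) ^ 2 = u ^ 2 * w v ^ 2 := by ring
      _ ≤ ((1 + 2 / δ) ^ 2 * v ^ 2) * (C ^ 2 / (1 + v ^ 2) ^ 4) :=
        mul_le_mul hu3 h8 (sq_nonneg _) (by positivity)
      _ ≤ ((1 + 2 / δ) ^ 2 * (1 + v ^ 2)) * (C ^ 2 / (1 + v ^ 2) ^ 4) := by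
        apply mul_le_mul_of_nonneg_right _ (by positivity)
        apply mul_le_mul_of_nonneg_left _ (by positivity)
        linarith
      _ = C ^ 2 * (1 + 2 / δ) ^ 2 * (1 + v ^ 2)⁻¹ * ((1 + v ^ 2)⁻¹) ^ 2 := by
        field_simp
      _ ≤ _ := by
        apply mul_le_mul_of_nonneg_left _ (by positivity)
        apply pow_le_pow_left₀ (by positivity)
        exact inv_anti₀ hR0 hRv
  -- AM-GM
  have h10 : |ψ u| * w v = (|ψ u| / u) * (u * w v) := by field_simp
  have h11 : (|ψ u| / u) * (u * w v) ≤ R⁻¹ * (|ψ u| / u) ^ 2 + R * (u * w v) ^ 2 := by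
    have h12 : (|ψ u| / u) * (u * w v) = R⁻¹ * ((|ψ u| / u) * (R * (u * w v))) := by
      field_simp
    have h13 := ab_le (|ψ u| / u) (R * (u * w v))
    have h14 := mul_le_mul_of_nonneg_left h13 (inv_pos.2 hR0).le
    rw [h12]
    refine h14.trans (le_of_eq ?_)
    field_simp
  have h15 : R * (u * w v) ^ 2 ≤ R⁻¹ * (C ^ 2 * (1 + 2 / δ) ^ 2 * (1 + v ^ 2)⁻¹) := by
    have h16 := mul_le_mul_of_nonneg_left h9 hR0.le
    refine h16.trans (le_of_eq ?_)
    field_simp
  rw [h10]
  have h17 : (|ψ u| / u) ^ 2 = (ψ u / u) ^ 2 := by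
    rw [div_pow, div_pow, sq_abs]
  rw [h17] at h11
  calc (|ψ u| / u) * (u * w v) ≤ R⁻¹ * (ψ u / u) ^ 2 + R * (u * w v) ^ 2 := h11
    _ ≤ R⁻¹ * (ψ u / u) ^ 2 + R⁻¹ * (C ^ 2 * (1 + 2 / δ) ^ 2 * (1 + v ^ 2)⁻¹) := by linarith
    _ = _ := by ring

end kernel

theorem main (hrl : S_rl) (hker : Pool.Agent.NH98.RT.S_kernel) : S_win := by
  intro φ a τ B δ hτ hm hφ ha0 haev hloc hδ hδ1 hfr J hJ σ hσ
  set S : ℝ := ∑ x ∈ J, a x * (2 * σ / (σ ^ 2 + x ^ 2)) with hS
  have hS0 : 0 ≤ S := by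
    apply Finset.sum_nonneg
    intro x _
    have := ha0 x
    positivity
  have hττ : τ * τ = 1 := by
    rcases hτ with h1 | h1 <;> rw [h1] <;> norm_num
  have key : ∀ κ : ℝ, 0 < κ → κ < 1 → (1 - κ) * S ≤ B := by
    intro κ hκ hκ1
    obtain ⟨Λ, c, hΛ, hcev, hc0, h0Λ, hc1, hcJ, hk⟩ := hker J κ hκ
    -- a common radius
    choose ηf bf hηf hbf hLf using hloc
    set e : ℝ → ℝ := fun x => if x = 0 then ηf x else min (ηf x) (|x| / 2) with he
    have he0 : ∀ x, 0 < e x := by
      intro x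
      simp only [he]
      split_ifs with hx
      · exact hηf x
      · exact lt_min (hηf x) (by have := abs_pos.2 hx; linarith)
    have he1 : ∀ x, e x ≤ ηf x := by
      intro x
      simp only [he]
      split_ifs with hx
      · exact le_rfl
      · exact min_le_left _ _
    have he2 : ∀ x, x ≠ 0 → e x ≤ |x| / 2 := by
      intro x hx
      simp only [he]
      rw [if_neg hx]
      exact min_le_right _ _
    set η : ℝ := Λ.inf' ⟨0, h0Λ⟩ e with hη
    have hη0 : 0 < η := by
      rw [hη, Finset.lt_inf'_iff]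
      intro x _
      exact he0 x
    have hηe : ∀ x ∈ Λ, η ≤ e x := fun x hx => Finset.inf'_le e hx
    obtain ⟨w, C, hwc, hw0, hwle, hwone, hwrl⟩ := hrl η hη0
    have hw : Good w C η := ⟨hwc, hw0, hwle, hwone, hwrl⟩
    have hC := hw.C_nonneg
    set ψ : ℝ → ℝ := fun u => B - φ u with hψdef
    have hψm : Measurable ψ := measurable_const.sub hm
    have hBs : IntegrableOn (fun u : ℝ => (B / u) ^ 2) (Ioi 1) := by
      have h1 := sq_int_const (B : ℂ)
      refine h1.congr (Eventually.of_forall fun u => ?_)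
      simp only
      rw [Complex.norm_real, div_pow, div_pow, Real.norm_eq_abs, sq_abs]
    have hψs : IntegrableOn (fun u : ℝ => (ψ u / u) ^ 2) (Ioi 1) := by
      refine Integrable.mono' ((hBs.const_mul 2).add (hφ.const_mul 2)) ?_ ?_
      · apply Measurable.aestronglyMeasurable
        exact (hψm.div measurable_id).pow_const 2
      · refine Eventually.of_forall fun u => ?_
        rw [Real.norm_of_nonneg (sq_nonneg _)]
        simp only [Pi.add_apply, hψdef]
        rw [sub_div]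
        nlinarith [sq_nonneg (B / u + φ u / u)]
    set v : ℝ → ℝ := fun u => W Λ c σ (τ * u) with hv
    have hv0 : ∀ u, 0 ≤ v u := fun u => W_nonneg Λ c σ hσ hk _
    have hvu : ∀ u, v u = ∑ x ∈ Λ, c x * (σ / (σ ^ 2 + x ^ 2)) *
        (σ * Real.cos (x * u) + x * τ * Real.sin (x * u)) := by
      intro u
      simp only [hv, W]
      apply Finset.sum_congr rfl
      intro x _
      rcases hτ with h1 | h1
      · rw [h1]; simp
      · rw [h1]
        have h2 : x * (-1 * u) = -(x * u) := by ring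
        rw [h2, Real.cos_neg, Real.sin_neg]
        ring
    have hvc : Continuous v := by
      have : v = fun u => ∑ x ∈ Λ, c x * (σ / (σ ^ 2 + x ^ 2)) *
        (σ * Real.cos (x * u) + x * τ * Real.sin (x * u)) := funext hvu
      rw [this]
      fun_prop
    -- the limits for `ψ`
    set Lψ : ℝ → ℂ := fun x => (B : ℂ) * (if x = 0 then 1 else 0) -
      (if x = 0 then 0 else (τ : ℂ) * (a x : ℂ) / ((x : ℂ) * Complex.I)) with hLψ
    have hψlim : ∀ x ∈ Λ, Tendsto (fun U : ℝ => ∫ u in Ioi (1 : ℝ),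
        (ψ u : ℂ) * Complex.exp (-((x : ℂ) * Complex.I * (u : ℂ))) * (w (u - U) : ℂ)) atTop
        (𝓝 (Lψ x)) := by
      intro x hx
      have h1 := hw.phi_lim hη0 hm hφ ((hηe x hx).trans (he1 x)) (hbf x) (hLf x)
      have h2 : Tendsto (fun U : ℝ => ∫ u in Ioi (1 : ℝ),
          Complex.exp (-((x : ℂ) * Complex.I * (u : ℂ))) * (w (u - U) : ℂ)) atTop
          (𝓝 (if x = 0 then 1 else 0)) := by
        by_cases hx0 : x = 0
        · rw [if_pos hx0, hx0]
          have h3 := (Complex.continuous_ofReal.tendsto _).comp hw.one_lim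
          rw [Complex.ofReal_one] at h3
          refine h3.congr fun U => ?_
          simp only [Function.comp]
          rw [← integral_complex_ofReal]
          refine integral_congr_ae (Eventually.of_forall fun u => ?_)
          simp
        · rw [if_neg hx0]
          exact hw.exp_lim hη0 hx0 ((hηe x hx).trans (he2 x hx0))
      have h3 := (h2.const_mul (B : ℂ)).sub h1
      refine h3.congr fun U => ?_
      have hexm : Measurable (fun u : ℝ => Complex.exp (-((x : ℂ) * Complex.I * (u : ℂ)))) := by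
        apply Continuous.measurable
        fun_prop
      have hn : ∀ u : ℝ, ‖Complex.exp (-((x : ℂ) * Complex.I * (u : ℂ)))‖ = 1 := by
        intro u
        rw [Complex.norm_exp]
        simp
      have i1 : IntegrableOn (fun u : ℝ =>
          Complex.exp (-((x : ℂ) * Complex.I * (u : ℂ))) * (w (u - U) : ℂ)) (Ioi 1) := by
        apply hw.int hexm
        refine (sq_int_const 1).congr (Eventually.of_forall fun u => ?_)
        simp only
        rw [hn, norm_one]
      have i2 : IntegrableOn (fun u : ℝ => (φ u : ℂ) *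
          Complex.exp (-((x : ℂ) * Complex.I * (u : ℂ))) * (w (u - U) : ℂ)) (Ioi 1) := by
        apply hw.int ((Complex.measurable_ofReal.comp hm).mul hexm)
        refine hφ.congr (Eventually.of_forall fun u => ?_)
        simp only [Pi.mul_apply, Function.comp]
        rw [norm_mul, hn, mul_one, Complex.norm_real, div_pow, div_pow, Real.norm_eq_abs, sq_abs]
      rw [← integral_const_mul, ← integral_sub (i1.const_mul _) i2]
      refine integral_congr_ae (Eventually.of_forall fun u => ?_)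
      simp only [hψdef]
      push_cast
      ring
    have hCo : ∀ x ∈ Λ, Tendsto (fun U : ℝ => ∫ u in Ioi (1 : ℝ),
        ψ u * w (u - U) * Real.cos (x * u)) atTop (𝓝 (if x = 0 then B else 0)) := by
      intro x hx
      have h1 := (Complex.continuous_re.tendsto _).comp (hψlim x hx)
      have h2 : (Lψ x).re = if x = 0 then B else 0 := by
        simp only [hLψ]
        split_ifs with hx
        · simp
        · have h3 : (τ : ℂ) * (a x : ℂ) / ((x : ℂ) * Complex.I) =
              -(((τ * a x / x : ℝ) : ℂ) * Complex.I) := by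
            have : (x : ℂ) ≠ 0 := by exact_mod_cast hx
            push_cast
            field_simp
            rw [Complex.I_sq]
            ring
          rw [h3]
          simp
      rw [h2] at h1
      refine h1.congr fun U => ?_
      simp only [Function.comp]
      rw [hw.split hψm hψs]
      simp
    have hSn : ∀ x ∈ Λ, Tendsto (fun U : ℝ => ∫ u in Ioi (1 : ℝ),
        ψ u * w (u - U) * Real.sin (x * u)) atTop
        (𝓝 (if x = 0 then 0 else -(τ * a x / x))) := by
      intro x hx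
      have h1 := ((Complex.continuous_im.tendsto _).comp (hψlim x hx)).neg
      have h2 : -(Lψ x).im = if x = 0 then 0 else -(τ * a x / x) := by
        simp only [hLψ]
        split_ifs with hx
        · simp
        · have h3 : (τ : ℂ) * (a x : ℂ) / ((x : ℂ) * Complex.I) =
              -(((τ * a x / x : ℝ) : ℂ) * Complex.I) := by
            have : (x : ℂ) ≠ 0 := by exact_mod_cast hx
            push_cast
            field_simp
            rw [Complex.I_sq]
            ring
          rw [h3]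
          simp
      rw [h2] at h1
      refine h1.congr fun U => ?_
      simp only [Function.comp]
      rw [hw.split hψm hψs]
      simp
    -- the sum
    have hI : Tendsto (fun U : ℝ => ∫ u in Ioi (1 : ℝ), ψ u * w (u - U) * v u)
        atTop (𝓝 (∑ x ∈ Λ, c x * (σ / (σ ^ 2 + x ^ 2)) *
          (σ * (if x = 0 then B else 0) + x * τ * (if x = 0 then 0 else -(τ * a x / x))))) := by
      have h1 : Tendsto (fun U : ℝ => ∑ x ∈ Λ, c x * (σ / (σ ^ 2 + x ^ 2)) *
          (σ * (∫ u in Ioi (1 : ℝ), ψ u * w (u - U) * Real.cos (x * u)) +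
          x * τ * (∫ u in Ioi (1 : ℝ), ψ u * w (u - U) * Real.sin (x * u))))
          atTop (𝓝 (∑ x ∈ Λ, c x * (σ / (σ ^ 2 + x ^ 2)) *
          (σ * (if x = 0 then B else 0) + x * τ * (if x = 0 then 0 else -(τ * a x / x))))) := by
        apply tendsto_finsetSum
        intro x hx
        exact (((hCo x hx).const_mul σ).add ((hSn x hx).const_mul (x * τ))).const_mul _
      refine h1.congr fun U => ?_
      have j1 : ∀ x, IntegrableOn (fun u : ℝ => ψ u * w (u - U) * Real.cos (x * u))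
          (Ioi 1) := fun x => hw.intB hψm hψs U (by fun_prop) (fun u => Real.abs_cos_le_one _)
      have j2 : ∀ x, IntegrableOn (fun u : ℝ => ψ u * w (u - U) * Real.sin (x * u))
          (Ioi 1) := fun x => hw.intB hψm hψs U (by fun_prop) (fun u => Real.abs_sin_le_one _)
      have h2 : ∀ u : ℝ, ψ u * w (u - U) * v u = ∑ x ∈ Λ, c x * (σ / (σ ^ 2 + x ^ 2)) *
          (σ * (ψ u * w (u - U) * Real.cos (x * u)) +
            x * τ * (ψ u * w (u - U) * Real.sin (x * u))) := by
        intro u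
        rw [hvu, Finset.mul_sum]
        apply Finset.sum_congr rfl
        intro x _
        ring
      simp_rw [h2]
      rw [integral_finsetSum]
      · apply Finset.sum_congr rfl
        intro x _
        rw [integral_const_mul, integral_add ((j1 x).const_mul _) ((j2 x).const_mul _),
          integral_const_mul, integral_const_mul]
      · intro x _
        exact (((j1 x).const_mul _).add ((j2 x).const_mul _)).const_mul _
    -- the lower bound
    obtain ⟨K, hK⟩ : ∃ K, ∀ y, |v y| ≤ K := by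
      refine ⟨∑ x ∈ Λ, |c x * (σ / (σ ^ 2 + x ^ 2))| * (σ + |x * τ|), fun y => ?_⟩
      rw [hvu]
      refine (Finset.abs_sum_le_sum_abs _ _).trans (Finset.sum_le_sum fun x _ => ?_)
      rw [abs_mul]
      apply mul_le_mul_of_nonneg_left _ (abs_nonneg _)
      refine (abs_add_le _ _).trans ?_
      rw [abs_mul, abs_mul (x * τ), abs_of_pos hσ]
      have h1 := Real.abs_cos_le_one (x * y)
      have h2 := Real.abs_sin_le_one (x * y)
      have h3 := abs_nonneg (x * τ)
      nlinarith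
    have hK0 : 0 ≤ K := (abs_nonneg _).trans (hK 0)
    set I0 : ℝ := ∫ u in Ioi (1 : ℝ), (ψ u / u) ^ 2 with hI0
    set C2 : ℝ := C ^ 2 * (1 + 2 / δ) ^ 2 with hC2
    have hC20 : 0 ≤ C2 := by positivity
    have hlow : ∀ U : ℝ, 0 < U → (∀ u : ℝ, (1 - δ) * U ≤ u → u ≤ U → φ u ≤ B) →
        0 ≤ (∫ u in Ioi (1 : ℝ), ψ u * w (u - (1 - δ / 2) * U) * v u) +
          K * ((1 + (δ * U / 2) ^ 2)⁻¹ * (I0 + C2 * Real.pi)) := by
      intro U hU hUB
      set U' := (1 - δ / 2) * U with hU'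
      set R := 1 + (δ * U / 2) ^ 2 with hR
      have hR0 : 0 < R := by positivity
      have k1 : IntegrableOn (fun u : ℝ => ψ u * w (u - U') * v u) (Ioi 1) :=
        hw.intB hψm hψs U' hvc hK
      have k3 : IntegrableOn (fun u : ℝ => (ψ u / u) ^ 2 + C2 * (1 + (u - U') ^ 2)⁻¹) (Ioi 1) :=
        hψs.add ((cauchy_int U').integrableOn.const_mul _)
      have k2 : IntegrableOn (fun u : ℝ => K * (R⁻¹ * ((ψ u / u) ^ 2 +
          C2 * (1 + (u - U') ^ 2)⁻¹))) (Ioi 1) := (k3.const_mul _).const_mul _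
      have h1 : 0 ≤ ∫ u in Ioi (1 : ℝ), (ψ u * w (u - U') * v u +
          K * (R⁻¹ * ((ψ u / u) ^ 2 + C2 * (1 + (u - U') ^ 2)⁻¹))) := by
        apply setIntegral_nonneg measurableSet_Ioi
        intro u hu
        have hu1 : 1 < u := hu
        rcases le_or_gt (δ * U / 2) |u - U'| with h1 | h1
        · have h2 := hw.far ψ hδ hδ1 hU hu1 h1
          have h3 : |ψ u * w (u - U') * v u| ≤ K * (R⁻¹ * ((ψ u / u) ^ 2 +
              C2 * (1 + (u - U') ^ 2)⁻¹)) := by
            rw [abs_mul, abs_mul, abs_of_nonneg (hw.nonneg _), mul_comm K]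
            exact mul_le_mul h2 (hK u) (abs_nonneg _) (by positivity)
          have h4 := neg_abs_le (ψ u * w (u - U') * v u)
          linarith
        · rw [abs_lt] at h1
          have h2 : φ u ≤ B := by
            apply hUB
            · rw [hU'] at h1
              nlinarith [h1.1]
            · rw [hU'] at h1
              nlinarith [h1.2]
          have h3 : 0 ≤ ψ u := by
            simp only [hψdef]
            linarith
          have h4 := hw.nonneg (u - U')
          have h5 := hv0 u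
          positivity
      rw [integral_add k1 k2, integral_const_mul, integral_const_mul,
        integral_add hψs ((cauchy_int U').integrableOn.const_mul _), integral_const_mul] at h1
      have h2 : K * (R⁻¹ * (I0 + C2 * ∫ u in Ioi (1 : ℝ), (1 + (u - U') ^ 2)⁻¹)) ≤
          K * (R⁻¹ * (I0 + C2 * Real.pi)) := by
        apply mul_le_mul_of_nonneg_left _ hK0
        apply mul_le_mul_of_nonneg_left _ (inv_pos.2 hR0).le
        have h3 := mul_le_mul_of_nonneg_left (cauchy_le U') hC20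
        linarith
      linarith
    have hge : 0 ≤ ∑ x ∈ Λ, c x * (σ / (σ ^ 2 + x ^ 2)) *
          (σ * (if x = 0 then B else 0) + x * τ * (if x = 0 then 0 else -(τ * a x / x))) := by
      have hd : 0 < 1 - δ / 2 := by linarith
      have h1 : Tendsto (fun U : ℝ => (1 - δ / 2) * U) atTop atTop :=
        tendsto_id.const_mul_atTop hd
      have h2 := hI.comp h1
      have h3 : Tendsto (fun U : ℝ => 1 + (δ * U / 2) ^ 2) atTop atTop := by
        apply tendsto_atTop_add_const_left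
        have h4 : Tendsto (fun U : ℝ => δ * U / 2) atTop atTop :=
          (tendsto_id.const_mul_atTop hδ).atTop_div_const two_pos
        exact (tendsto_pow_atTop (two_ne_zero)).comp h4
      have h4 : Tendsto (fun U : ℝ => K * ((1 + (δ * U / 2) ^ 2)⁻¹ * (I0 + C2 * Real.pi))) atTop
          (𝓝 0) := by
        have h5 := ((tendsto_inv_atTop_zero.comp h3).mul_const (I0 + C2 * Real.pi)).const_mul K
        rw [zero_mul, mul_zero] at h5
        exact h5
      have h5 := h2.add h4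
      rw [add_zero] at h5
      refine ge_of_tendsto_of_frequently h5 ?_
      refine (hfr.and_eventually (eventually_gt_atTop 0)).mono fun U hU => ?_
      exact hlow U hU.2 hU.1
    -- rewriting
    have hsum : ∑ x ∈ Λ.erase 0, c x * (a x * (σ / (σ ^ 2 + x ^ 2))) ≤ B := by
      rw [← Finset.add_sum_erase Λ _ h0Λ] at hge
      have e0 : c 0 * (σ / (σ ^ 2 + (0:ℝ) ^ 2)) *
          (σ * (if (0:ℝ) = 0 then B else 0) + 0 * τ * (if (0:ℝ) = 0 then 0 else -(τ * a 0 / 0))) =
          B := by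
        rw [hc1]
        simp only [if_true]
        field_simp
        ring
      have e1 : ∑ x ∈ Λ.erase 0, c x * (σ / (σ ^ 2 + x ^ 2)) *
          (σ * (if x = 0 then B else 0) + x * τ * (if x = 0 then 0 else -(τ * a x / x))) =
          -∑ x ∈ Λ.erase 0, c x * (a x * (σ / (σ ^ 2 + x ^ 2))) := by
        rw [← Finset.sum_neg_distrib]
        apply Finset.sum_congr rfl
        intro x hx
        have hx0 : x ≠ 0 := Finset.ne_of_mem_erase hx
        rw [if_neg hx0, if_neg hx0]
        have h3 : x * τ * -(τ * a x / x) = -(a x) := by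
          have : x * τ * -(τ * a x / x) = -((τ * τ) * a x) := by field_simp
          rw [this, hττ, one_mul]
        rw [h3]
        ring
      rw [e0, e1] at hge
      linarith
    -- restriction to `J ∪ -J`
    have hJneg : Disjoint J (J.image (fun x => -x)) := by
      rw [Finset.disjoint_left]
      intro x hx hx'
      obtain ⟨y, hy, hyx⟩ := Finset.mem_image.1 hx'
      have h1 := hJ x hx
      have h2 := hJ y hy
      linarith
    have hsub : J ∪ J.image (fun x => -x) ⊆ Λ.erase 0 := by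
      intro x hx
      rcases Finset.mem_union.1 hx with h1 | h1
      · exact Finset.mem_erase.2 ⟨(hJ x h1).ne', (hcJ x h1).1⟩
      · obtain ⟨y, hy, hyx⟩ := Finset.mem_image.1 h1
        have h2 := hJ y hy
        refine Finset.mem_erase.2 ⟨?_, ?_⟩
        · intro h0
          linarith
        · rw [← hyx]
          exact hΛ y (hcJ y hy).1
    have hle : ∑ x ∈ J ∪ J.image (fun x => -x), c x * (a x * (σ / (σ ^ 2 + x ^ 2))) ≤
        ∑ x ∈ Λ.erase 0, c x * (a x * (σ / (σ ^ 2 + x ^ 2))) := by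
      apply Finset.sum_le_sum_of_subset_of_nonneg hsub
      intro x _ _
      have h1 := hc0 x
      have h2 := ha0 x
      positivity
    rw [Finset.sum_union hJneg, Finset.sum_image (fun x _ y _ hxy => neg_injective hxy)] at hle
    have hfin : (1 - κ) * S ≤ ∑ x ∈ J, c x * (a x * (σ / (σ ^ 2 + x ^ 2))) +
        ∑ x ∈ J, c (-x) * (a (-x) * (σ / (σ ^ 2 + (-x) ^ 2))) := by
      rw [hS, Finset.mul_sum, ← Finset.sum_add_distrib]
      apply Finset.sum_le_sum
      intro x hx
      rw [hcev, haev, neg_sq]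
      have h1 := (hcJ x hx).2
      have h2 := ha0 x
      have h3 : 0 ≤ a x * (2 * σ / (σ ^ 2 + x ^ 2)) := by positivity
      calc (1 - κ) * (a x * (2 * σ / (σ ^ 2 + x ^ 2)))
          ≤ c x * (a x * (2 * σ / (σ ^ 2 + x ^ 2))) := mul_le_mul_of_nonneg_right h1 h3
        _ = _ := by ring
    linarith
  -- let `κ → 0`
  have hfinal : Tendsto (fun κ : ℝ => (1 - κ) * S) (𝓝[>] 0) (𝓝 S) := by
    have h2 : Continuous (fun κ : ℝ => (1 - κ) * S) := by fun_prop
    have h3 := (h2.tendsto 0).mono_left (nhdsWithin_le_nhds (s := Ioi 0))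
    simpa using h3
  refine le_of_tendsto hfinal ?_
  have h2 : ∀ᶠ κ : ℝ in 𝓝[>] 0, κ < 1 :=
    nhdsWithin_le_nhds (gt_mem_nhds (by norm_num))
  filter_upwards [self_mem_nhdsWithin, h2] with κ hκ hκ1
  exact key κ hκ hκ1

end Pool.Agent.NH98.EW.Win

namespace Pool.Agent.NH98.EW

/-- EW-2. A function which is bounded above in arbitrarily large windows. -/
theorem t_win (h : S_rl) : S_win := Win.main h Pool.Agent.NH98.RT.t_kernel

end Pool.Agent.NH98.EW
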