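import Pool.Agent.NH98.EW.Asm
import Pool.Agent.NH98.EW.Win
import Pool.Agent.NH98.EW.RL
import Pool.Agent.NH98.EW.L2
import Pool.Agent.NH98.EW.Bdry
import Pool.Agent.NH98.RS2.Rate
import Pool.Agent.NH98.RS2.Par
import Pool.Agent.NH98.RS2.Line
import Pool.Agent.NH98.RS2.Rem
import Pool.Agent.NH98.RS2.LatC
import Pool.Agent.NH98.RS2.Wt
import Pool.Agent.NH98.RS2.Unf
import Pool.Agent.NH98.RS2.Fac
import Pool.Agent.NH98.RS2.Cont
import Pool.Agent.NH98.RS2.Exp
import Pool.Agent.NH98.RS2.LogD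
import Pool.Agent.NH98.RS2.Taub
import Pool.Agent.NH98.RS2.Mert
import Pool.Agent.NH98.RS2.Half
import Pool.Agent.NH98.RS2.Zeta
import Pool.Agent.TH949.TX.BSDE

/-! # The original product in every window: all cases -/

set_option autoImplicit false

open MeasureTheory Filter Topology Set
open Pool.Agent.W263.BSD (GoodPrime pointCount IsLSeries bsdProduct bsdStar bsdProduct_pos
  bsdStar_pos rsSum corr_tendsto)
open Pool.Agent.TH270.MS Pool.Agent.TH270.MS.EQ
open Pool.Agent.NH98.RT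
open Pool.Agent.TH949.TX (window_and window_mono Hyp ll TG every_mid)

namespace Pool.Agent.NH98.EW

/-- the continuation of the Rankin-Selberg series -/
theorem cont : RS2.S_cont :=
  RS2.t_cont RS2.t_par (RS2.t_lat (RS2.t_line RS2.t_par) (RS2.t_rem (RS2.t_line RS2.t_par))) RS2.t_wt
    (RS2.t_unf RS2.t_wt) RS2.t_fac

variable {a b : ℤ} {F : ℂ → ℂ}

/-- **The theorem of Rankin and Selberg with the error `o(1 / log x)`.** -/
theorem corrRate {N : ℕ} [NeZero N]
    {f : CuspForm (CongruenceSubgroup.Gamma0 N : Subgroup (Matrix.GeneralLinearGroup (Fin 2) ℝ)) 2}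
    (hΔ : 4 * a ^ 3 + 27 * b ^ 2 ≠ 0) (hf : Pool.Agent.TH941.Hecke f)
    (hb : Pool.Agent.TH941.Belongs a b f) : CorrRate a b :=
  RS2.rate (RS2.t_log cont RS2.t_exp) (RS2.t_mert RS2.t_taub) RS2.t_half RS2.t_zeta hΔ hf hb

/-- For all large `X` there is an `x` with the property `S` in the window `[X^(1-δ), X]`. -/
def InW (δ : ℝ) (S : ℝ → Prop) : Prop :=
  ∀ᶠ X : ℝ in atTop, ∃ x : ℝ, X ^ (1 - δ) ≤ x ∧ x ≤ X ∧ S x

theorem InW.imp {δ : ℝ} (h1 : δ < 1) {S S' : ℝ → Prop} (h : InW δ S) (hS : ∀ᶠ x : ℝ in atTop, S x → S' x) :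
    InW δ S' := by
  refine (window_and h1 h hS).mono ?_
  rintro X ⟨x, k1, k2, k3, k4⟩
  exact ⟨x, k1, k2, k4 k3⟩

theorem InW.mono {δ δ1 : ℝ} (h1 : δ1 ≤ δ) {S : ℝ → Prop} (h : InW δ1 S) : InW δ S := window_mono h1 h

theorem up_w (hF : IsLSeries a b F) {z : ℂ} (hz : 1 < z.re) (h0 : F z = 0) (ρ : ℝ) {C : ℝ}
    (hC : 0 < C) (K : ℝ) {δ : ℝ} (hδ : 0 < δ) (hδ1 : δ < 1) :
    InW δ fun x => K < Real.log x * dev a b ρ C x := by
  set c : ℝ := (z.re - 1) / 2 with hc
  have hc0 : 0 < c := by rw [hc]; linarith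
  have h1 : InW δ fun x => 1 ≤ x ∧ 1 * x ^ c < Real.log (bsdProduct a b x) :=
    Pool.Agent.TH949.TX.bsd_up hF hc0.le (ρ := z) (by rw [hc]; linarith) h0 (δ := δ) (C := 1) hδ
  refine h1.imp hδ1 ?_
  filter_upwards [pow_big hc0 ρ (1 + |Real.log C|) (|K| + 1), eventually_ge_atTop (Real.exp 1)] with x h3 h4
  rintro ⟨-, h5⟩
  have h6 := one_le_log h4
  rw [dev_eq hC h4]
  have h9 : ρ * Real.log (Real.log x) ≤ |ρ| * Real.log (Real.log x) :=
    mul_le_mul_of_nonneg_right (le_abs_self _) (Real.log_nonneg h6)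
  have h10 := le_abs_self (Real.log C)
  set D := Real.log (bsdProduct a b x) - ρ * Real.log (Real.log x) - Real.log C with hD
  have h11 : |K| + 1 ≤ D := by
    rw [hD]
    linarith
  have h12 : |K| + 1 ≤ Real.log x * D := by
    calc |K| + 1 ≤ D := h11
      _ = 1 * D := (one_mul _).symm
      _ ≤ Real.log x * D := mul_le_mul_of_nonneg_right h6 (by have := abs_nonneg K; linarith)
  have := le_abs_self K
  linarith

theorem down_w (hF : IsLSeries a b F) (hreal : ∀ s : ℝ, 1 < s → F s ≠ 0) {z : ℂ} (hz : 1 < z.re)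
    (h0 : F z = 0) (ρ : ℝ) {C : ℝ} (hC : 0 < C) (K : ℝ) {δ : ℝ} (hδ : 0 < δ) (hδ1 : δ < 1) :
    InW δ fun x => Real.log x * dev a b ρ C x < -K := by
  set c : ℝ := (z.re - 1) / 2 with hc
  have hc0 : 0 < c := by rw [hc]; linarith
  have h1 : InW δ fun x => 1 ≤ x ∧ Real.log (bsdProduct a b x) < -(1 * x ^ c) :=
    Pool.Agent.TH949.TX.bsd_down hF hc0.le (fun s hs => hreal s (by linarith)) (ρ := z)
      (by rw [hc]; linarith) h0 (δ := δ) (C := 1) hδ
  refine h1.imp hδ1 ?_
  filter_upwards [pow_big hc0 ρ (2 + |Real.log C|) (|K| + 1), eventually_ge_atTop (Real.exp 1)] with x h3 h4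
  rintro ⟨-, h5⟩
  have h6 := one_le_log h4
  rw [dev_eq hC h4]
  have h9 : -(|ρ| * Real.log (Real.log x)) ≤ ρ * Real.log (Real.log x) := by
    have := mul_le_mul_of_nonneg_right (neg_abs_le ρ) (Real.log_nonneg h6)
    linarith
  have h10 := neg_abs_le (Real.log C)
  set D := Real.log (bsdProduct a b x) - ρ * Real.log (Real.log x) - Real.log C with hD
  have h11 : |K| + 1 ≤ -D := by
    rw [hD]
    linarith
  have h12 : |K| + 1 ≤ Real.log x * -D := by
    calc |K| + 1 ≤ -D := h11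
      _ = 1 * -D := (one_mul _).symm
      _ ≤ Real.log x * -D := mul_le_mul_of_nonneg_right h6 (by have := abs_nonneg K; linarith)
  have := le_abs_self K
  have h13 : Real.log x * D = -(Real.log x * -D) := by ring
  rw [h13]
  linarith

theorem lead_eq {N : ℕ} [NeZero N]
    {f : CuspForm (CongruenceSubgroup.Gamma0 N : Subgroup (Matrix.GeneralLinearGroup (Fin 2) ℝ)) 2}
    (hΔ : 4 * a ^ 3 + 27 * b ^ 2 ≠ 0) (hF : IsLSeries a b F) (hf : Pool.Agent.TH941.Hecke f)
    (hb : Pool.Agent.TH941.Belongs a b f) (hnz : ∀ s : ℂ, 1 < s.re → F s ≠ 0) {m : ℕ}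
    (hm : analyticOrderAt F 1 = m) : iteratedDeriv m F 1 / (m.factorial : ℂ) =
      ((√2 * Real.exp (m * Real.eulerMascheroniConstant) / TT F m : ℝ) : ℂ) := by
  obtain ⟨h1, h2⟩ := lead_pos hΔ hF hf hb hnz hm
  have h4 : (0 : ℝ) < m.factorial := by exact_mod_cast m.factorial_pos
  have h3 : √2 * Real.exp (m * Real.eulerMascheroniConstant) / TT F m =
      ‖iteratedDeriv m F 1‖ / m.factorial := by
    unfold TT
    have h5 : 0 < √2 * Real.exp (m * Real.eulerMascheroniConstant) := by positivity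
    field_simp
  rw [h3]
  push_cast
  rw [← h1]

/-- **All cases, with the right order and constant, in every window.** -/
theorem lead_w {N : ℕ} [NeZero N]
    {f : CuspForm (CongruenceSubgroup.Gamma0 N : Subgroup (Matrix.GeneralLinearGroup (Fin 2) ℝ)) 2}
    (hΔ : 4 * a ^ 3 + 27 * b ^ 2 ≠ 0) (hF : IsLSeries a b F) (hf : Pool.Agent.TH941.Hecke f)
    (hb : Pool.Agent.TH941.Belongs a b f) (hw : Fricke f) {m : ℕ} (hm : analyticOrderAt F 1 = m)
    {δ : ℝ} (hδ : 0 < δ) (hδ1 : δ < 1) :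
    (∀ K : ℝ, InW δ fun x => K < Real.log x * dev a b m (TT F m) x) ∧
    ((∀ s : ℝ, 1 < s → F s ≠ 0) → ∀ K : ℝ, InW δ fun x => Real.log x * dev a b m (TT F m) x < -K) := by
  have hT := TT_pos hF hm
  have hcr := corrRate hΔ hf hb
  by_cases hnz : ∀ s : ℂ, 1 < s.re → F s ≠ 0
  · have hlead := lead_eq hΔ hF hf hb hnz hm
    refine ⟨fun K => ?_, fun _ K => ?_⟩
    · have h := rh_caseW (t_win t_rl) (t_bdry t_l2) hΔ hF hf hb hw hcr hnz hm hT hlead (τ := 1) (Or.inl rfl) K hδ hδ1
      refine (not_frequently.1 h).mono fun X hX => ?_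
      push Not at hX
      obtain ⟨x, k1, k2, k3⟩ := hX
      exact ⟨x, k1, k2, by linarith⟩
    · have h := rh_caseW (t_win t_rl) (t_bdry t_l2) hΔ hF hf hb hw hcr hnz hm hT hlead (τ := -1) (Or.inr rfl) K hδ hδ1
      refine (not_frequently.1 h).mono fun X hX => ?_
      push Not at hX
      obtain ⟨x, k1, k2, k3⟩ := hX
      exact ⟨x, k1, k2, by linarith⟩
  · push Not at hnz
    obtain ⟨z, hz, h0⟩ := hnz
    exact ⟨fun K => up_w hF hz h0 _ hT K hδ hδ1, fun hreal K => down_w hF hreal hz h0 _ hT K hδ hδ1⟩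

/-- **All exponents and constants, in every window.** -/
theorem all_w {N : ℕ} [NeZero N]
    {f : CuspForm (CongruenceSubgroup.Gamma0 N : Subgroup (Matrix.GeneralLinearGroup (Fin 2) ℝ)) 2}
    (hΔ : 4 * a ^ 3 + 27 * b ^ 2 ≠ 0) (hF : IsLSeries a b F) (hf : Pool.Agent.TH941.Hecke f)
    (hb : Pool.Agent.TH941.Belongs a b f) (hw : Fricke f) {m : ℕ} (hm : analyticOrderAt F 1 = m)
    (H : Hyp a b F m) {δ : ℝ} (hδ : 0 < δ) (hδ1 : δ < 1) (ρ : ℝ) {C : ℝ} (hC : 0 < C) (K : ℝ) :
    InW δ fun x => K < Real.log x * |dev a b ρ C x| := by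
  have hT := TT_pos hF hm
  by_cases hnz : ∀ s : ℂ, 1 < s.re → F s ≠ 0
  · by_cases hρC : ρ = m ∧ C = TT F m
    · rw [hρC.1, hρC.2]
      refine ((lead_w hΔ hF hf hb hw hm hδ hδ1).1 K).imp hδ1 ?_
      filter_upwards [eventually_ge_atTop (Real.exp 1)] with x hx h1
      have h4 := one_le_log hx
      have h6 : Real.log x * dev a b m (TT F m) x ≤ Real.log x * |dev a b m (TT F m) x| :=
        mul_le_mul_of_nonneg_left (le_abs_self _) (by linarith)
      linarith
    · -- a point of the window where the quotient with the right order is near the right constant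
      obtain ⟨ε, hε, hbig⟩ : ∃ ε > 0, ∀ᶠ x : ℝ in atTop, ε ≤ |((m : ℝ) - ρ) * Real.log (Real.log x) +
          (Real.log (TT F m) - Real.log C)| - ε := by
        by_cases hρ : ρ = m
        · have hCT : Real.log (TT F m) - Real.log C ≠ 0 := by
            intro h
            refine hρC ⟨hρ, ?_⟩
            exact (Real.log_injOn_pos (Set.mem_Ioi.2 hT) (Set.mem_Ioi.2 hC) (by linarith)).symm
          refine ⟨|Real.log (TT F m) - Real.log C| / 2, by positivity, Eventually.of_forall fun x => ?_⟩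
          rw [hρ, sub_self, zero_mul, zero_add]
          linarith
        · have h1 : (m : ℝ) - ρ ≠ 0 := sub_ne_zero.2 (Ne.symm hρ)
          have h2 : Tendsto (fun x : ℝ => |(m : ℝ) - ρ| * Real.log (Real.log x)) atTop atTop :=
            (Real.tendsto_log_atTop.comp Real.tendsto_log_atTop).const_mul_atTop (abs_pos.2 h1)
          refine ⟨1, one_pos, ?_⟩
          filter_upwards [h2.eventually_ge_atTop (|Real.log (TT F m) - Real.log C| + 2),
            eventually_ge_atTop (Real.exp 1)] with x h3 h4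
          have h5 := Real.log_nonneg (one_le_log h4)
          have h6 : |((m : ℝ) - ρ) * Real.log (Real.log x)| = |(m : ℝ) - ρ| * Real.log (Real.log x) := by
            rw [abs_mul, abs_of_nonneg h5]
          have h7 := abs_sub_abs_le_abs_sub (((m : ℝ) - ρ) * Real.log (Real.log x))
            (-(Real.log (TT F m) - Real.log C))
          rw [abs_neg, sub_neg_eq_add] at h7
          linarith
      have h1 : InW δ fun x => |ll a b m x - Real.log (TG F m)| < ε :=
        every_mid H (fun s hs => hnz s (by simpa using hs)) hδ hδ1 hε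
      refine h1.imp hδ1 ?_
      filter_upwards [hbig, eventually_ge_atTop (Real.exp 1),
        Real.tendsto_log_atTop.eventually_gt_atTop (|K| / ε)] with x h2 h3 h4 h5
      rw [dev_eq hC h3]
      have h7 : TG F m = TT F m := rfl
      rw [h7] at h5
      unfold Pool.Agent.TH949.TX.ll at h5
      have h8 : Real.log (bsdProduct a b x) - ρ * Real.log (Real.log x) - Real.log C =
          (((m : ℝ) - ρ) * Real.log (Real.log x) + (Real.log (TT F m) - Real.log C)) -
          -(Real.log (bsdProduct a b x) - m * Real.log (Real.log x) - Real.log (TT F m)) := by ring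
      have h9 := abs_sub_abs_le_abs_sub (((m : ℝ) - ρ) * Real.log (Real.log x) + (Real.log (TT F m) - Real.log C))
        (-(Real.log (bsdProduct a b x) - m * Real.log (Real.log x) - Real.log (TT F m)))
      rw [abs_neg, ← h8] at h9
      have h10 : ε ≤ |Real.log (bsdProduct a b x) - ρ * Real.log (Real.log x) - Real.log C| := by linarith
      have h11 : 0 < Real.log x := by linarith [one_le_log h3]
      rw [div_lt_iff₀ hε] at h4
      have h12 := mul_le_mul_of_nonneg_left h10 h11.le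
      have := le_abs_self K
      linarith
  · push Not at hnz
    obtain ⟨z, hz, h0⟩ := hnz
    refine (up_w hF hz h0 ρ hC K hδ hδ1).imp hδ1 ?_
    filter_upwards [eventually_ge_atTop (Real.exp 1)] with x hx h1
    have h4 := one_le_log hx
    have h6 : Real.log x * dev a b ρ C x ≤ Real.log x * |dev a b ρ C x| :=
      mul_le_mul_of_nonneg_left (le_abs_self _) (by linarith)
    linarith

end Pool.Agent.NH98.EW
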