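import Mathlib

/-! # Oscillation in every window: statements (analysis)

Project EW (helper98), problem MP_3283e1_nt. See the job specs for the proofs. -/

set_option autoImplicit false

open MeasureTheory Filter Topology Set

namespace Pool.Agent.NH98.EW

/-- EW-1. A band limited kernel and the lemma of Riemann and Lebesgue for functions whose Laplace transform has local boundary
values in `L¹`. -/
def S_rl : Prop := ∀ η : ℝ, 0 < η → ∃ (w : ℝ → ℝ) (C : ℝ), Continuous w ∧ (∀ v, 0 ≤ w v) ∧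
  (∀ v, w v ≤ C / (1 + v ^ 2) ^ 2) ∧ ∫ v, w v = 1 ∧
  ∀ (ψ b : ℝ → ℂ), Measurable ψ → IntegrableOn (fun u : ℝ => (‖ψ u‖ / u) ^ 2) (Ioi 1) →
    IntegrableOn b (Ioo (-η) η) →
    Tendsto (fun σ : ℝ => ∫ ξ in Ioo (-η) η,
      ‖(∫ u in Ioi (1 : ℝ), ψ u * Complex.exp (-(((σ : ℂ) + (ξ : ℂ) * Complex.I) * (u : ℂ)))) - b ξ‖)
      (𝓝[>] 0) (𝓝 0) →
    Tendsto (fun U : ℝ => ∫ u in Ioi (1 : ℝ), ψ u * (w (u - U) : ℂ)) atTop (𝓝 0)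

/-- the local behaviour of the Laplace transform of `φ` at the point `i x`: a simple pole with the residue `A` and an
integrable function -/
def Loc (φ : ℝ → ℝ) (x : ℝ) (A : ℂ) : Prop := ∃ (η : ℝ) (b : ℝ → ℂ), 0 < η ∧ IntegrableOn b (Ioo (-η) η) ∧
  Tendsto (fun σ : ℝ => ∫ ξ in Ioo (-η) η,
    ‖(∫ u in Ioi (1 : ℝ), (φ u : ℂ) * Complex.exp (-(((σ : ℂ) + ((x + ξ : ℝ) : ℂ) * Complex.I) * (u : ℂ)))) -
      A / ((σ : ℂ) + (ξ : ℂ) * Complex.I) - b ξ‖) (𝓝[>] 0) (𝓝 0)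

/-- EW-2. A function which is bounded above in arbitrarily large windows, with the poles `τ a(x) / (i x)`, `a ≥ 0` even. -/
def S_win : Prop := ∀ (φ : ℝ → ℝ) (a : ℝ → ℝ) (τ B δ : ℝ), (τ = 1 ∨ τ = -1) → Measurable φ →
  IntegrableOn (fun u : ℝ => (φ u / u) ^ 2) (Ioi 1) → (∀ x, 0 ≤ a x) → (∀ x, a (-x) = a x) →
  (∀ x : ℝ, Loc φ x (if x = 0 then 0 else (τ : ℂ) * (a x : ℂ) / ((x : ℂ) * Complex.I))) →
  0 < δ → δ < 1 → (∃ᶠ U : ℝ in atTop, ∀ u : ℝ, (1 - δ) * U ≤ u → u ≤ U → φ u ≤ B) →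
  ∀ (J : Finset ℝ), (∀ x ∈ J, 0 < x) → ∀ σ : ℝ, 0 < σ →
    ∑ x ∈ J, a x * (2 * σ / (σ ^ 2 + x ^ 2)) ≤ B

/-- EW-3. The Laplace transform of a square integrable function has local boundary values in `L¹`. -/
def S_l2 : Prop := ∀ f : ℝ → ℝ, Measurable f → Integrable (fun u => f u ^ 2) → ∀ x η : ℝ, 0 < η →
  ∃ b : ℝ → ℂ, IntegrableOn b (Ioo (-η) η) ∧
  Tendsto (fun σ : ℝ => ∫ ξ in Ioo (-η) η,
    ‖(∫ u in Ioi (0 : ℝ), (f u : ℂ) * Complex.exp (-(((σ : ℂ) + ((x + ξ : ℝ) : ℂ) * Complex.I) * (u : ℂ)))) -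
      b ξ‖) (𝓝[>] 0) (𝓝 0)

end Pool.Agent.NH98.EW
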