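import Pool.Agent.NH98.RT.Lap3
import Pool.Agent.NH98.EW.Stm

/-! # The boundary behaviour: statement

Project EW (helper98), problem MP_3283e1_nt. See the job specs for the proofs. -/

set_option autoImplicit false

open MeasureTheory Filter Topology Set
open Pool.Agent.TH942.LS (Dat)
open Pool.Agent.TH942.SL
open Pool.Agent.TH270.MS
open Pool.Agent.NH98.RT (ph)

namespace Pool.Agent.NH98.EW

/-- EW-4. The boundary behaviour of the transform of the deviation of the partial sums. -/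
def S_bdry : Prop := ∀ (lam c : ℕ → ℝ) (δ σ : ℝ) (G₀ g : ℂ → ℂ) (k p κ : ℕ) (η C : ℝ),
  Cn lam c δ σ G₀ g k p κ η C → ∀ r q : ℝ, (∀ s : ℂ, 0 < s.re → G₀ s ≠ 0) → (p : ℝ) = k + r →
  g 0 = Real.exp (r * Real.eulerMascheroniConstant - q) →
  IntegrableOn (fun u : ℝ => (ph lam c r q u / u) ^ 2) (Ioi 1) ∧
  ∀ x : ℝ, Loc (ph lam c r q) x (if x = 0 then 0 else
    ((analyticOrderNatAt G₀ ((x : ℂ) * Complex.I) : ℝ) : ℂ) / ((x : ℂ) * Complex.I))

end Pool.Agent.NH98.EW
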